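import Mathlib

set_option autoImplicit false

namespace Pool.Agent.Results.MP_4cba3d_ag.AllPairs.General

open MvPolynomial Filter Topology Set

/-- `p` is a simple (nondegenerate) positive solution of the system `f = g = 0`. -/
def IsSimplePositive (f g : MvPolynomial (Fin 2) ℝ) (p : ℝ × ℝ) : Prop :=
  0 < p.1 ∧ 0 < p.2 ∧ eval ![p.1, p.2] f = 0 ∧ eval ![p.1, p.2] g = 0 ∧
    eval ![p.1, p.2] (pderiv 0 f) * eval ![p.1, p.2] (pderiv 1 g) -
      eval ![p.1, p.2] (pderiv 1 f) * eval ![p.1, p.2] (pderiv 0 g) ≠ 0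

/-- `N(m₁, m₂)`: the supremum of the number of simple positive solutions over all systems
`f = g = 0` of two real bivariate polynomials with exactly `m₁` and `m₂` monomials. -/
noncomputable def fewN (m₁ m₂ : ℕ) : ℕ∞ :=
  ⨆ (f : MvPolynomial (Fin 2) ℝ) (g : MvPolynomial (Fin 2) ℝ)
    (_ : f.support.card = m₁) (_ : g.support.card = m₂),
    {p : ℝ × ℝ | IsSimplePositive f g p}.encard

noncomputable def Y (n : ℕ) (t : ℝ) : ℝ := (1 - t ^ (n + 1)) ^ (1 / (n + 1) : ℝ)

noncomputable def ev (n : ℕ) (P : MvPolynomial (Fin 2) ℝ) (t : ℝ) : ℝ := eval ![t, Y n t] P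

theorem Y_cont (n : ℕ) : Continuous (Y n) := by
  unfold Y
  exact (continuous_const.sub (continuous_pow (n + 1))).rpow_const
    (fun x => Or.inr (by positivity))

theorem ev_cont (n : ℕ) (P : MvPolynomial (Fin 2) ℝ) : Continuous (ev n P) := by
  unfold ev
  refine (MvPolynomial.continuous_eval P).comp ?_
  refine continuous_pi fun i => ?_
  fin_cases i
  · exact continuous_id
  · exact Y_cont n

theorem pow_lt_one' (n : ℕ) {t : ℝ} (h0 : 0 < t) (h1 : t < 1) : t ^ (n + 1) < 1 :=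
  pow_lt_one₀ h0.le h1 (by omega)

theorem Y_pos (n : ℕ) {t : ℝ} (h0 : 0 < t) (h1 : t < 1) : 0 < Y n t := by
  have := pow_lt_one' n h0 h1
  unfold Y
  exact Real.rpow_pos_of_pos (by linarith) _

theorem Y_pow (n : ℕ) {t : ℝ} (h : t ^ (n + 1) ≤ 1) : Y n t ^ (n + 1) = 1 - t ^ (n + 1) := by
  unfold Y
  rw [← Real.rpow_natCast, ← Real.rpow_mul (by linarith)]
  push_cast
  rw [one_div_mul_cancel (by positivity), Real.rpow_one]

theorem eval_mono (x y c : ℝ) (a b : ℕ) :
    eval ![x, y] (monomial (Finsupp.single (0 : Fin 2) a + Finsupp.single 1 b) c) =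
      c * (x ^ a * y ^ b) := by
  rw [eval_monomial, Finsupp.prod_add_index' (by simp) (by intro i a b; rw [pow_add])]
  rw [Finsupp.prod_single_index (by simp), Finsupp.prod_single_index (by simp)]
  simp

noncomputable def bexp (n : ℕ) (κ : ℝ) : ℕ := (n + 1) * ⌈κ ^ (n + 1)⌉₊

theorem Y_bexp (n : ℕ) {κ t : ℝ} (h0 : 0 < t) (h1 : t < 1) :
    Y n t ^ bexp n κ = (1 - t ^ (n + 1)) ^ ⌈κ ^ (n + 1)⌉₊ := by
  unfold bexp
  rw [pow_mul, Y_pow n (pow_lt_one' n h0 h1).le]

theorem lim_in {κ t : ℝ} (hκ : 0 ≤ κ) (h0 : 0 < t) (h1 : t < 1) (h : κ * t < 1) :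
    Tendsto (fun n : ℕ => Y n t ^ bexp n κ) atTop (𝓝 1) := by
  have hl : Tendsto (fun n : ℕ => 1 - ((κ * t) ^ (n + 1) + t ^ (n + 1))) atTop (𝓝 1) := by
    have a := (tendsto_pow_atTop_nhds_zero_of_lt_one (by positivity) h).comp
      (tendsto_add_atTop_nat 1)
    have b := (tendsto_pow_atTop_nhds_zero_of_lt_one h0.le h1).comp (tendsto_add_atTop_nat 1)
    have c := (a.add b).const_sub 1
    simpa using c
  refine tendsto_of_tendsto_of_tendsto_of_le_of_le hl tendsto_const_nhds (fun n => ?_)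
    (fun n => ?_)
  · show 1 - ((κ * t) ^ (n + 1) + t ^ (n + 1)) ≤ Y n t ^ bexp n κ
    rw [Y_bexp n h0 h1]
    have h2 := pow_lt_one' n h0 h1
    have ht : 0 ≤ t ^ (n + 1) := by positivity
    have hb := one_add_mul_le_pow (a := -(t ^ (n + 1))) (by linarith) ⌈κ ^ (n + 1)⌉₊
    have hk := (Nat.ceil_lt_add_one (pow_nonneg hκ (n + 1))).le
    have h3 := mul_le_mul_of_nonneg_right hk ht
    calc 1 - ((κ * t) ^ (n + 1) + t ^ (n + 1)) = 1 - (κ ^ (n + 1) + 1) * t ^ (n + 1) := by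
          rw [mul_pow]; ring
      _ ≤ 1 + ⌈κ ^ (n + 1)⌉₊ * (-(t ^ (n + 1))) := by linarith
      _ ≤ (1 + -(t ^ (n + 1))) ^ ⌈κ ^ (n + 1)⌉₊ := hb
      _ = _ := by rw [← sub_eq_add_neg]
  · show Y n t ^ bexp n κ ≤ 1
    rw [Y_bexp n h0 h1]
    have h2 := pow_lt_one' n h0 h1
    have ht : 0 ≤ t ^ (n + 1) := by positivity
    exact pow_le_one₀ (by linarith) (by linarith)

theorem lim_out {κ t : ℝ} (h0 : 0 < t) (h1 : t < 1) (h : 1 < κ * t) :
    Tendsto (fun n : ℕ => Y n t ^ bexp n κ) atTop (𝓝 0) := by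
  have hu : Tendsto (fun n : ℕ => Real.exp (-((κ * t) ^ (n + 1)))) atTop (𝓝 0) := by
    refine Real.tendsto_exp_neg_atTop_nhds_zero.comp ?_
    exact (tendsto_pow_atTop_atTop_of_one_lt h).comp (tendsto_add_atTop_nat 1)
  refine squeeze_zero (fun n => ?_) (fun n => ?_) hu
  · have := Y_pos n h0 h1
    positivity
  · rw [Y_bexp n h0 h1]
    have h2 := Real.add_one_le_exp (-(t ^ (n + 1)))
    have h3 := pow_lt_one' n h0 h1
    have ht : 0 ≤ t ^ (n + 1) := by positivity
    calc (1 - t ^ (n + 1)) ^ ⌈κ ^ (n + 1)⌉₊ ≤ Real.exp (-(t ^ (n + 1))) ^ ⌈κ ^ (n + 1)⌉₊ :=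
          pow_le_pow_left₀ (by linarith) (by linarith) _
      _ = Real.exp (⌈κ ^ (n + 1)⌉₊ * (-(t ^ (n + 1)))) := by rw [← Real.exp_nat_mul]
      _ ≤ Real.exp (-((κ * t) ^ (n + 1))) := by
          apply Real.exp_le_exp.2
          have h4 := Nat.le_ceil (κ ^ (n + 1))
          have h5 := mul_le_mul_of_nonneg_right h4 ht
          rw [mul_pow]
          linarith

noncomputable def limF : List (ℝ × ℝ) → ℝ → ℝ
  | [], _ => 0
  | (p :: L), t => (if p.2 * t < 1 then p.1 else 0) + t * limF L t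

noncomputable def hor : List (ℝ × ℝ) → ℝ → ℝ
  | [], _ => 0
  | (p :: L), t => p.1 + t * hor L t

noncomputable def polyN (n : ℕ) : List (ℝ × ℝ) → MvPolynomial (Fin 2) ℝ
  | [] => 0
  | (p :: L) => X 0 * polyN n L +
      monomial (Finsupp.single (0 : Fin 2) 0 + Finsupp.single 1 (bexp n p.2)) p.1

theorem hor_cont (L : List (ℝ × ℝ)) : Continuous (hor L) := by
  induction L with
  | nil => exact continuous_const
  | cons p L ih =>
    have h : hor (p :: L) = fun t => p.1 + t * hor L t := rfl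
    rw [h]
    exact continuous_const.add (continuous_id.mul ih)

theorem limF_eq_hor (L : List (ℝ × ℝ)) (t : ℝ) (h : ∀ p ∈ L, p.2 * t < 1) :
    limF L t = hor L t := by
  induction L with
  | nil => rfl
  | cons p L ih =>
    show (if p.2 * t < 1 then p.1 else 0) + t * limF L t = p.1 + t * hor L t
    rw [if_pos (h p (by simp)), ih (fun q hq => h q (by simp [hq]))]

theorem lim_polyN (L : List (ℝ × ℝ)) {t : ℝ} (h0 : 0 < t) (h1 : t < 1)
    (hκ : ∀ p ∈ L, 0 ≤ p.2) (hne : ∀ p ∈ L, p.2 * t ≠ 1) :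
    Tendsto (fun n => ev n (polyN n L) t) atTop (𝓝 (limF L t)) := by
  induction L with
  | nil =>
    have h : (fun n => ev n (polyN n []) t) = fun _ => (0 : ℝ) := by
      funext n
      simp [ev, polyN]
    rw [h]
    exact tendsto_const_nhds
  | cons p L ih =>
    have h2 := ih (fun q hq => hκ q (by simp [hq])) (fun q hq => hne q (by simp [hq]))
    have h3 : Tendsto (fun n : ℕ => p.1 * Y n t ^ bexp n p.2) atTop
        (𝓝 (if p.2 * t < 1 then p.1 else 0)) := by
      split_ifs with h4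
      · have := (lim_in (hκ p (by simp)) h0 h1 h4).const_mul p.1
        simpa using this
      · have h5 : 1 < p.2 * t :=
          lt_of_le_of_ne (not_lt.1 h4) (Ne.symm (hne p (by simp)))
        have := (lim_out h0 h1 h5).const_mul p.1
        simpa using this
    have h4 := h3.add (h2.const_mul t)
    refine h4.congr fun n => ?_
    show _ = eval ![t, Y n t] (X 0 * polyN n L +
      monomial (Finsupp.single (0 : Fin 2) 0 + Finsupp.single 1 (bexp n p.2)) p.1)
    rw [map_add, map_mul, eval_mono, eval_X]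
    simp only [Matrix.cons_val_zero, pow_zero, one_mul]
    unfold ev
    ring

theorem card_add_monomial (A : MvPolynomial (Fin 2) ℝ) (d : Fin 2 →₀ ℕ) (c : ℝ) (hc : c ≠ 0)
    (hd : d ∉ A.support) : (A + monomial d c).support.card = A.support.card + 1 := by
  classical
  have h : (A + monomial d c).support = insert d A.support := by
    ext e
    rw [mem_support_iff, coeff_add, coeff_monomial, Finset.mem_insert, mem_support_iff]
    by_cases he : d = e
    · subst he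
      rw [mem_support_iff, not_not] at hd
      simp [hd, hc]
    · simp [he, Ne.symm he]
  rw [h, Finset.card_insert_of_notMem hd]

theorem card_X_mul (P : MvPolynomial (Fin 2) ℝ) :
    (X 0 * P).support.card = P.support.card := by
  rw [support_X_mul, Finset.card_map]

theorem mem_X_mul {P : MvPolynomial (Fin 2) ℝ} {d : Fin 2 →₀ ℕ} (hd : d ∈ (X 0 * P).support) :
    ∃ e ∈ P.support, d = Finsupp.single 0 1 + e := by
  rw [support_X_mul, Finset.mem_map] at hd
  obtain ⟨e, he, h⟩ := hd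
  exact ⟨e, he, h.symm⟩

theorem card_polyN (n : ℕ) (L : List (ℝ × ℝ)) (h : ∀ p ∈ L, p.1 ≠ 0) :
    (polyN n L).support.card = L.length := by
  induction L with
  | nil => simp [polyN]
  | cons p L ih =>
    have h1 : (Finsupp.single (0 : Fin 2) 0 + Finsupp.single 1 (bexp n p.2)) ∉
        (X 0 * polyN n L).support := by
      intro h
      obtain ⟨e, -, he⟩ := mem_X_mul h
      have := DFunLike.congr_fun he 0
      simp at this
      omega
    show (X 0 * polyN n L + monomial (Finsupp.single (0 : Fin 2) 0 +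
      Finsupp.single 1 (bexp n p.2)) p.1).support.card = L.length + 1
    rw [card_add_monomial _ _ _ (h p (by simp)) h1, card_X_mul,
      ih (fun q hq => h q (by simp [hq]))]

structure Good (s : ℕ) (L : List (ℝ × ℝ)) (c ζ : ℝ) (t : ℕ → ℝ) : Prop where
  coef : ∀ p ∈ L, p.1 ≠ 0
  nonneg : ∀ p ∈ L, 0 ≤ p.2
  small : ∀ p ∈ L, p.2 * ζ < 1
  pos : 0 < ζ
  hump : ∀ x, 0 ≤ x → x < ζ → 0 < c * limF L x
  zero : limF L ζ = 0
  two : 1 ≤ s
  first : ζ < t 0
  mono : ∀ i, i + 1 < s → t i < t (i + 1)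
  lt_one : ∀ i < s, t i < 1
  avoid : ∀ i < s, ∀ p ∈ L, p.2 * t i ≠ 1
  sign : ∀ i < s, 0 < (-1 : ℝ) ^ (i + 1) * c * limF L (t i)

theorem Good.lt {s : ℕ} {L : List (ℝ × ℝ)} {c ζ : ℝ} {t : ℕ → ℝ} (h : Good s L c ζ t) :
    ∀ i < s, ζ < t i := by
  intro i
  induction i with
  | zero => intro _; exact h.first
  | succ i ih =>
    intro hi
    exact (ih (by omega)).trans (h.mono i hi)

theorem good_base : Good 1 [(1, 2), (-4, 0)] 1 (1 / 4) (fun _ => 3 / 8) := by
  have hF : ∀ x : ℝ, limF [(1, 2), (-4, 0)] x = (if 2 * x < 1 then 1 else 0) - 4 * x := by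
    intro x
    simp [limF]
    ring
  refine ⟨?_, ?_, ?_, by norm_num, ?_, ?_, le_refl _, by norm_num, ?_, ?_, ?_, ?_⟩
  · intro p hp
    simp only [List.mem_cons, List.not_mem_nil, or_false] at hp
    rcases hp with rfl | rfl <;> norm_num
  · intro p hp
    simp only [List.mem_cons, List.not_mem_nil, or_false] at hp
    rcases hp with rfl | rfl <;> norm_num
  · intro p hp
    simp only [List.mem_cons, List.not_mem_nil, or_false] at hp
    rcases hp with rfl | rfl <;> norm_num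
  · intro x h0 h1
    rw [hF, if_pos (by linarith)]
    linarith
  · rw [hF, if_pos (by norm_num)]
    norm_num
  · intro i hi
    omega
  · intro i hi
    norm_num
  · intro i hi p hp
    simp only [List.mem_cons, List.not_mem_nil, or_false] at hp
    rcases hp with rfl | rfl <;> norm_num
  · intro i hi
    rw [hF]
    have h : i = 0 := by omega
    subst h
    norm_num

theorem good_step {s : ℕ} {L : List (ℝ × ℝ)} {c ζ : ℝ} {t : ℕ → ℝ} (h : Good s L c ζ t) :
    ∃ p : ℝ × ℝ, ∃ ζ' : ℝ, ∃ t' : ℕ → ℝ, Good (s + 3) (p :: L) (-c) ζ' t' ∧ 0 < -c * p.1 ∧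
      ∀ K : ℝ, K * ζ < 1 → K < p.2 := by
  have hζ := h.pos
  have hlt := h.lt

  set g : ℝ → ℝ := fun x => x * (c * hor L x) with hg
  have hgc : Continuous g := continuous_id.mul (continuous_const.mul (hor_cont L))
  have hsm : ∀ x, 0 ≤ x → x ≤ ζ → ∀ p ∈ L, p.2 * x < 1 := by
    intro x h0 h1 p hp
    exact lt_of_le_of_lt (mul_le_mul_of_nonneg_left h1 (h.nonneg p hp)) (h.small p hp)
  have hgF : ∀ x, 0 ≤ x → x ≤ ζ → x * (c * limF L x) = g x := by
    intro x h0 h1
    rw [hg, limF_eq_hor L x (hsm x h0 h1)]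
  have hc : c ≠ 0 := by
    rintro rfl
    have := h.hump 0 le_rfl hζ
    simp at this
  have hgpos : ∀ x, 0 < x → x < ζ → 0 < g x := by
    intro x h0 h1
    rw [← hgF x h0.le h1.le]
    exact mul_pos h0 (h.hump x h0.le h1)
  have hgζ : g ζ = 0 := by
    rw [← hgF ζ hζ.le le_rfl, h.zero]
    ring
  have hg0 : g 0 = 0 := by
    rw [hg]
    simp
  set μ := ζ / 2 with hμ
  have hμ0 : 0 < μ := by positivity
  have hμζ : μ < ζ := by linarith
  set ℓ := g μ / 2 with hℓ
  have hgμ := hgpos μ hμ0 hμζ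
  have hℓ0 : 0 < ℓ := by positivity
  have hℓμ : g μ = 2 * ℓ := by rw [hℓ]; ring

  obtain ⟨q2, hq2μ, hq2ζ, hq2⟩ : ∃ q, μ < q ∧ q < ζ ∧ g q < ℓ := by
    have h1 : ∀ᶠ x in 𝓝 ζ, g x < ℓ := by
      have h2 := hgc.tendsto ζ
      rw [hgζ] at h2
      exact h2.eventually (gt_mem_nhds hℓ0)
    have h2 : ∀ᶠ x in 𝓝[<] ζ, g x < ℓ := h1.filter_mono nhdsWithin_le_nhds
    have h3 : ∀ᶠ x in 𝓝[<] ζ, x ∈ Set.Ioo μ ζ := Ioo_mem_nhdsLT hμζ
    obtain ⟨q, hq, hq'⟩ := (h2.and h3).exists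
    exact ⟨q, hq'.1, hq'.2, hq⟩
  set q3 := (q2 + ζ) / 2 with hq3
  have h23 : q2 < q3 := by linarith
  have h3ζ : q3 < ζ := by linarith
  have hq20 : 0 < q2 := by linarith
  have hq30 : 0 < q3 := by linarith
  set κ := 2 / (q2 + q3) with hκ
  have hs0 : 0 < q2 + q3 := by linarith
  have hκ0 : 0 < κ := by positivity
  have hκ2 : κ * q2 < 1 := by
    rw [hκ, div_mul_eq_mul_div, div_lt_one hs0]
    linarith
  have hκ3 : 1 < κ * q3 := by
    rw [hκ, div_mul_eq_mul_div, one_lt_div hs0]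
    linarith

  obtain ⟨ζ', ⟨⟨hζ'0, hζ'μ⟩, hζ'ℓ⟩, hleast⟩ :
      ∃ z, IsLeast {x | x ∈ Set.Icc 0 μ ∧ ℓ ≤ g x} z := by
    have h1 : IsCompact {x | x ∈ Set.Icc 0 μ ∧ ℓ ≤ g x} := by
      have h2 : IsClosed {x | ℓ ≤ g x} := isClosed_le continuous_const hgc
      exact isCompact_Icc.inter_right h2
    exact h1.exists_isLeast ⟨μ, ⟨hμ0.le, le_rfl⟩, by rw [hℓμ]; linarith⟩
  have hbelow : ∀ x, 0 ≤ x → x < ζ' → g x < ℓ := by
    intro x h0 h1
    by_contra h2
    have h3 := hleast ⟨⟨h0, by linarith⟩, not_lt.1 h2⟩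
    linarith
  have hζ'eq : g ζ' = ℓ := by
    rcases hζ'ℓ.eq_or_lt with h1 | h1
    · exact h1.symm
    · exfalso
      have h2 := intermediate_value_Ioo hζ'0 hgc.continuousOn
      obtain ⟨z, hz, hz'⟩ := h2 ⟨by rw [hg0]; exact hℓ0, h1⟩
      have := hbelow z hz.1.le hz.2
      linarith
  have hζ'pos : 0 < ζ' := by
    rcases hζ'0.eq_or_lt with h1 | h1
    · rw [← h1, hg0] at hζ'eq
      linarith
    · exact h1
  have hζ'lt : ζ' < μ := by
    rcases hζ'μ.eq_or_lt with h1 | h1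
    · rw [h1, hℓμ] at hζ'eq
      linarith
    · exact h1

  set C := ℓ / c with hC
  have hcC : c * C = ℓ := by rw [hC]; field_simp
  have hC0 : C ≠ 0 := div_ne_zero hℓ0.ne' hc
  have hin : ∀ x, 0 ≤ x → x ≤ q2 → -c * limF ((-C, κ) :: L) x = ℓ - g x := by
    intro x h0 h1
    have h2 : κ * x < 1 := lt_of_le_of_lt (mul_le_mul_of_nonneg_left h1 hκ0.le) hκ2
    show -c * ((if κ * x < 1 then -C else 0) + x * limF L x) = ℓ - g x
    rw [if_pos h2, ← hgF x h0 (by linarith), ← hcC]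
    ring
  have hout : ∀ x, q3 ≤ x → -c * limF ((-C, κ) :: L) x = -(x * (c * limF L x)) := by
    intro x h1
    have h2 : ¬ κ * x < 1 := by
      rw [not_lt]
      exact hκ3.le.trans (mul_le_mul_of_nonneg_left h1 hκ0.le)
    show -c * ((if κ * x < 1 then -C else 0) + x * limF L x) = -(x * (c * limF L x))
    rw [if_neg h2]
    ring
  have hcons : ∀ {Q : ℝ × ℝ → Prop}, Q (-C, κ) → (∀ p ∈ L, Q p) →
      ∀ p ∈ (-C, κ) :: L, Q p := by
    intro Q h1 h2 p hp
    rcases List.mem_cons.1 hp with rfl | hp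
    · exact h1
    · exact h2 p hp
  have hκt : ∀ i < s, 1 < κ * t i := by
    intro i hi
    have := hlt i hi
    exact lt_of_lt_of_le hκ3 (mul_le_mul_of_nonneg_left (by linarith) hκ0.le)
  have h2s := h.two
  have ht0 := h.lt_one 0 (by omega)
  have hζt0 := h.first
  refine ⟨(-C, κ), ζ', fun i => if i = 0 then μ else if i = 1 then q2 else
    if i = 2 then q3 else t (i - 3), ?_, ?_, ?_⟩
  rotate_left
  · show 0 < -c * -C
    rw [neg_mul_neg, hcC]
    exact hℓ0
  · intro K hK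
    show K < κ
    have hκζ : 1 < κ * ζ := lt_of_lt_of_le hκ3 (mul_le_mul_of_nonneg_left h3ζ.le hκ0.le)
    have h1 : K * ζ < κ * ζ := hK.trans hκζ
    exact lt_of_mul_lt_mul_right h1 hζ.le
  refine ⟨hcons (neg_ne_zero.2 hC0) h.coef, hcons hκ0.le h.nonneg, ?_, hζ'pos, ?_, ?_, by omega,
    ?_, ?_, ?_, ?_, ?_⟩
  · refine hcons ?_ (hsm ζ' hζ'0 (by linarith))
    show κ * ζ' < 1
    exact lt_of_le_of_lt (mul_le_mul_of_nonneg_left (by linarith) hκ0.le) hκ2
  · intro x h0 h1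
    rw [hin x h0 (by linarith)]
    linarith [hbelow x h0 h1]
  · have h1 := hin ζ' hζ'0 (by linarith)
    rw [hζ'eq, sub_self] at h1
    exact (mul_eq_zero.1 h1).resolve_left (neg_ne_zero.2 hc)
  · simpa using hζ'lt
  · intro i hi
    rcases i with _ | _ | _ | i
    · simpa using hq2μ
    · simpa using h23
    · simp
      linarith
    · have h4 : ¬ (i + 1 + 1 + 1 = 0) := by omega
      have h5 : ¬ (i + 1 + 1 + 1 = 1) := by omega
      have h6 : ¬ (i + 1 + 1 + 1 = 2) := by omega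
      have h4' : ¬ (i + 1 + 1 + 1 + 1 = 0) := by omega
      have h5' : ¬ (i + 1 + 1 + 1 + 1 = 1) := by omega
      have h6' : ¬ (i + 1 + 1 + 1 + 1 = 2) := by omega
      simp only [h4, h5, h6, h4', h5', h6', if_false]
      have h7 : i + 1 + 1 + 1 - 3 = i := by omega
      have h8 : i + 1 + 1 + 1 + 1 - 3 = i + 1 := by omega
      rw [h7, h8]
      exact h.mono i (by omega)
  · intro i hi
    rcases i with _ | _ | _ | i
    · simp
      linarith
    · simp
      linarith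
    · simp
      linarith
    · have h4 : ¬ (i + 1 + 1 + 1 = 0) := by omega
      have h5 : ¬ (i + 1 + 1 + 1 = 1) := by omega
      have h6 : ¬ (i + 1 + 1 + 1 = 2) := by omega
      simp only [h4, h5, h6, if_false]
      have h7 : i + 1 + 1 + 1 - 3 = i := by omega
      rw [h7]
      exact h.lt_one i (by omega)
  · intro i hi
    rcases i with _ | _ | _ | i
    · simp only [if_true]
      refine hcons ?_ fun p hp => (hsm μ hμ0.le hμζ.le p hp).ne
      show κ * μ ≠ 1
      exact (lt_of_le_of_lt (mul_le_mul_of_nonneg_left hq2μ.le hκ0.le) hκ2).ne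
    · simp only [zero_add, one_ne_zero, if_false, if_true]
      exact hcons hκ2.ne fun p hp => (hsm q2 hq20.le hq2ζ.le p hp).ne
    · simp only [zero_add, Nat.reduceAdd, OfNat.ofNat_ne_zero, OfNat.ofNat_ne_one, if_false,
        if_true]
      exact hcons hκ3.ne' fun p hp => (hsm q3 hq30.le h3ζ.le p hp).ne
    · have h4 : ¬ (i + 1 + 1 + 1 = 0) := by omega
      have h5 : ¬ (i + 1 + 1 + 1 = 1) := by omega
      have h6 : ¬ (i + 1 + 1 + 1 = 2) := by omega
      simp only [h4, h5, h6, if_false]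
      have h7 : i + 1 + 1 + 1 - 3 = i := by omega
      rw [h7]
      exact hcons (hκt i (by omega)).ne' fun p hp => h.avoid i (by omega) p hp
  · intro i hi
    rcases i with _ | _ | _ | i
    · simp only [if_true, zero_add, pow_one]
      have h1 := hin μ hμ0.le hq2μ.le
      rw [mul_assoc, h1]
      linarith
    · simp only [zero_add, one_ne_zero, if_false, if_true]
      have h1 := hin q2 hq20.le le_rfl
      rw [mul_assoc, h1]
      norm_num
      linarith
    · simp only [zero_add, Nat.reduceAdd, OfNat.ofNat_ne_zero, OfNat.ofNat_ne_one, if_false,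
        if_true]
      have h1 := hout q3 le_rfl
      rw [mul_assoc, h1, hgF q3 hq30.le h3ζ.le]
      have := hgpos q3 hq30 h3ζ
      norm_num
      linarith
    · have h4 : ¬ (i + 1 + 1 + 1 = 0) := by omega
      have h5 : ¬ (i + 1 + 1 + 1 = 1) := by omega
      have h6 : ¬ (i + 1 + 1 + 1 = 2) := by omega
      simp only [h4, h5, h6, if_false]
      have h7 : i + 1 + 1 + 1 - 3 = i := by omega
      rw [h7]
      have h8 := hlt i (by omega)
      have h1 := hout (t i) (by linarith)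
      rw [mul_assoc, h1]
      have h9 := mul_pos (show 0 < t i by linarith) (h.sign i (by omega))
      calc 0 < _ := h9
        _ = _ := by ring

def Chain (m : ℕ) (c B : ℝ) (P : MvPolynomial (Fin 2) ℝ) : Prop :=
  ∃ τ e : ℕ → ℝ, (∀ i < m, 0 < τ i ∧ 1 / 2 ≤ τ i * B ∧ 0 ≤ e i ∧ e i ≤ m) ∧
    (∀ i, i + 1 < m → τ i < τ (i + 1)) ∧
    ∃ γ : ℝ, 0 < γ ∧ ∀ᶠ r in 𝓝[>] (0 : ℝ), ∀ x, r ≤ x → x ≤ 4 * r →
      ∀ i < m, γ * r ^ e i ≤ (-1 : ℝ) ^ i * c * eval ![x, r ^ τ i] P

theorem chain_step {m : ℕ} {c B : ℝ} {P : MvPolynomial (Fin 2) ℝ} (h : Chain m c B P)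
    (b : ℕ) (hb1 : 1 ≤ b) (hb : 2 * B * (m + 2) ≤ b) (c1 : ℝ) (hc : 0 < -c * c1) :
    Chain (m + 1) (-c) b
      (X 0 * P + monomial (Finsupp.single (0 : Fin 2) 0 + Finsupp.single 1 b) c1) := by
  obtain ⟨τ, e, h1, h2, γ, hγ, h3⟩ := h
  have hb0 : (0 : ℝ) < b := by exact_mod_cast hb1
  have hτb : ∀ i < m, (m : ℝ) + 2 ≤ τ i * b := by
    intro i hi
    obtain ⟨a1, a2, -, -⟩ := h1 i hi
    have hm : (0 : ℝ) ≤ m := Nat.cast_nonneg m
    have a3 := mul_le_mul_of_nonneg_left hb a1.le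
    nlinarith
  obtain ⟨K, hK⟩ : ∃ K : ℝ, ∀ x y : ℝ, 0 ≤ x → x ≤ 1 → 0 ≤ y → y ≤ 1 →
      |eval ![x, y] P| ≤ K := by
    have hcont : Continuous fun z : ℝ × ℝ => eval ![z.1, z.2] P := by
      refine (MvPolynomial.continuous_eval P).comp ?_
      refine continuous_pi fun i => ?_
      fin_cases i
      · exact continuous_fst
      · exact continuous_snd
    obtain ⟨K, hK⟩ := (isCompact_Icc (a := (0 : ℝ)) (b := 1)).prod
      (isCompact_Icc (a := (0 : ℝ)) (b := 1)) |>.exists_bound_of_continuousOn hcont.continuousOn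
    exact ⟨K, fun x y a1 a2 a3 a4 => hK (x, y) ⟨⟨a1, a2⟩, ⟨a3, a4⟩⟩⟩
  set A := -c * c1 with hA
  refine ⟨fun i => if i = 0 then 1 / (2 * b) else τ (i - 1),
    fun i => if i = 0 then 1 / 2 else e (i - 1) + 1, ?_, ?_, min (A / 2) (γ / 2),
    by positivity, ?_⟩
  · intro i hi
    rcases i with _ | i
    · simp only [if_true]
      refine ⟨by positivity, ?_, by norm_num, ?_⟩
      · field_simp
        exact le_refl _
      · have hm : (0 : ℝ) ≤ m := Nat.cast_nonneg m
        push_cast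
        linarith
    · simp only [Nat.add_eq_zero_iff, one_ne_zero, and_false, if_false, Nat.add_sub_cancel]
      obtain ⟨a1, a2, a3, a4⟩ := h1 i (by omega)
      have a5 := hτb i (by omega)
      have hm : (0 : ℝ) ≤ m := Nat.cast_nonneg m
      refine ⟨a1, by linarith, by linarith, ?_⟩
      push_cast
      linarith
  · intro i hi
    rcases i with _ | i
    · simp only [if_true, zero_add, one_ne_zero, if_false, Nat.sub_self]
      have a5 := hτb 0 (by omega)
      have hm : (0 : ℝ) ≤ m := Nat.cast_nonneg m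
      rw [div_lt_iff₀ (by positivity)]
      nlinarith
    · have e1 : ¬ (i + 1 = 0) := by omega
      have e2 : ¬ (i + 1 + 1 = 0) := by omega
      simp only [e1, e2, if_false, Nat.add_sub_cancel]
      exact h2 i (by omega)
  · have f1 : ∀ᶠ r in 𝓝[>] (0 : ℝ), r < 1 / 4 :=
      (gt_mem_nhds (by norm_num : (0 : ℝ) < 1 / 4) : ∀ᶠ r in 𝓝 (0 : ℝ), r < 1 / 4).filter_mono
        nhdsWithin_le_nhds
    have f2 : ∀ᶠ r in 𝓝[>] (0 : ℝ), r ^ (1 / 2 : ℝ) * (4 * |c| * K) < A / 2 := by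
      have g1 : Tendsto (fun r : ℝ => r ^ (1 / 2 : ℝ) * (4 * |c| * K)) (𝓝 0) (𝓝 0) := by
        have g2 : Continuous fun r : ℝ => r ^ (1 / 2 : ℝ) * (4 * |c| * K) :=
          (continuous_id.rpow_const fun x => Or.inr (by norm_num)).mul continuous_const
        have g3 := g2.tendsto 0
        simpa using g3
      exact (g1.eventually (gt_mem_nhds (by positivity))).filter_mono nhdsWithin_le_nhds
    have f3 : ∀ᶠ r in 𝓝[>] (0 : ℝ), r * A < γ / 2 := by
      have g1 : Tendsto (fun r : ℝ => r * A) (𝓝 0) (𝓝 0) := by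
        have g2 : Continuous fun r : ℝ => r * A := by fun_prop
        have g3 := g2.tendsto 0
        simpa using g3
      exact (g1.eventually (gt_mem_nhds (by positivity))).filter_mono nhdsWithin_le_nhds
    filter_upwards [h3, f1, f2, f3, self_mem_nhdsWithin] with r hr hr1 hr2 hr3 hr0 x hx1 hx2 i hi
    have hr0' : 0 < r := hr0
    have hx0 : 0 < x := lt_of_lt_of_le hr0' hx1
    rw [map_add, map_mul, eval_mono, eval_X]
    simp only [Matrix.cons_val_zero, pow_zero, one_mul]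
    rcases i with _ | i
    · simp only [if_true, pow_zero, one_mul]
      have y1 : (r ^ (1 / (2 * b) : ℝ)) ^ b = r ^ (1 / 2 : ℝ) := by
        rw [← Real.rpow_natCast, ← Real.rpow_mul hr0'.le]
        congr 1
        field_simp
      have y0 : 0 ≤ r ^ (1 / (2 * b) : ℝ) := by positivity
      have y2 : r ^ (1 / (2 * b) : ℝ) ≤ 1 :=
        Real.rpow_le_one hr0'.le (by linarith) (by positivity)
      rw [y1]
      have hE := hK x (r ^ (1 / (2 * b) : ℝ)) hx0.le (by linarith) y0 y2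
      set E := eval ![x, r ^ (1 / (2 * b) : ℝ)] P
      have z1 : |c * (x * E)| ≤ |c| * (4 * r * K) := by
        rw [abs_mul, abs_mul, abs_of_pos hx0]
        have : x * |E| ≤ 4 * r * K := by
          have hK0 : 0 ≤ K := (abs_nonneg E).trans hE
          exact mul_le_mul hx2 hE (abs_nonneg _) (by linarith)
        exact mul_le_mul_of_nonneg_left this (abs_nonneg _)
      have z2 : r = r ^ (1 / 2 : ℝ) * r ^ (1 / 2 : ℝ) := by
        rw [← Real.rpow_add hr0']
        norm_num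
      have hs0 : 0 < r ^ (1 / 2 : ℝ) := by positivity
      set σ := r ^ (1 / 2 : ℝ)
      have z3 : |c| * (4 * r * K) = σ * (σ * (4 * |c| * K)) := by
        rw [show |c| * (4 * r * K) = r * (4 * |c| * K) by ring]
        nth_rewrite 1 [z2]
        ring
      have z4 : σ * (σ * (4 * |c| * K)) ≤ σ * (A / 2) :=
        mul_le_mul_of_nonneg_left hr2.le hs0.le
      have z5 := le_abs_self (c * (x * E))
      have z6 : min (A / 2) (γ / 2) * σ ≤ A / 2 * σ :=
        mul_le_mul_of_nonneg_right (min_le_left _ _) hs0.le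
      have z7 : -c * (x * E + c1 * σ) = A * σ - c * (x * E) := by rw [hA]; ring
      rw [z7]
      linarith
    · have e1 : ¬ (i + 1 = 0) := by omega
      simp only [e1, if_false, Nat.add_sub_cancel]
      have hri := hr x hx1 hx2 i (by omega)
      obtain ⟨a1, a2, a3, a4⟩ := h1 i (by omega)
      have a5 := hτb i (by omega)
      have y1 : (r ^ τ i) ^ b = r ^ (τ i * b) := by
        rw [← Real.rpow_natCast, ← Real.rpow_mul hr0'.le]
      have y2 : r ^ (τ i * b) ≤ r ^ (e i + 1 + 1) :=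
        Real.rpow_le_rpow_of_exponent_ge hr0' (by linarith) (by linarith)
      have y3 : r ^ (e i + 1 + 1) = r ^ (e i + 1) * r := by
        rw [Real.rpow_add hr0' (e i + 1) 1, Real.rpow_one]
      have y4 : r ^ (e i + 1) = r ^ e i * r := by
        rw [Real.rpow_add hr0', Real.rpow_one]
      have hp : 0 < r ^ (e i + 1) := by positivity
      have hp' : 0 < r ^ e i := by positivity
      rw [y1]
      set E := eval ![x, r ^ τ i] P
      have z1 : r * (γ * r ^ e i) ≤ x * ((-1 : ℝ) ^ i * c * E) :=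
        mul_le_mul hx1 hri (by positivity) hx0.le
      have z2 : (-1 : ℝ) ^ (i + 1) * -c * (x * E + c1 * r ^ (τ i * b)) =
          x * ((-1 : ℝ) ^ i * c * E) - (-1 : ℝ) ^ i * (A * r ^ (τ i * b)) := by
        rw [hA, pow_succ]
        ring
      have z3 : (-1 : ℝ) ^ i * (A * r ^ (τ i * b)) ≤ A * r ^ (τ i * b) := by
        have hA0 : 0 ≤ A * r ^ (τ i * b) := by positivity
        rcases neg_one_pow_eq_or ℝ i with h4 | h4
        · rw [h4, one_mul]
        · rw [h4]
          linarith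
      have z4 : A * r ^ (τ i * b) ≤ A * (r ^ (e i + 1) * r) := by
        rw [← y3]
        exact mul_le_mul_of_nonneg_left y2 hc.le
      have z5 : r ^ (e i + 1) * (r * A) ≤ r ^ (e i + 1) * (γ / 2) :=
        mul_le_mul_of_nonneg_left hr3.le hp.le
      have z6 : min (A / 2) (γ / 2) * r ^ (e i + 1) ≤ γ / 2 * r ^ (e i + 1) :=
        mul_le_mul_of_nonneg_right (min_le_right _ _) hp.le
      have z7 : r * (γ * r ^ e i) = γ * r ^ (e i + 1) := by
        rw [y4]
        ring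
      rw [z2]
      linarith

theorem bexp_ratio {K κ : ℝ} (hK : 1 ≤ K) (h : K < κ) (M : ℝ) (hM : 0 ≤ M) :
    ∀ᶠ n : ℕ in atTop, M * bexp n K ≤ bexp n κ := by
  have hK0 : 0 < K := by linarith
  have h1 : 1 < κ / K := (one_lt_div hK0).2 h
  have h2 := ((tendsto_pow_atTop_atTop_of_one_lt h1).comp (tendsto_add_atTop_nat 1)).eventually
    (eventually_ge_atTop (2 * M))
  filter_upwards [h2] with n hn
  have hn' : 2 * M ≤ (κ / K) ^ (n + 1) := hn
  unfold bexp
  push_cast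
  have h3 := Nat.le_ceil (κ ^ (n + 1))
  have h4 := (Nat.ceil_lt_add_one (pow_nonneg hK0.le (n + 1))).le
  have h5 : (1 : ℝ) ≤ K ^ (n + 1) := one_le_pow₀ hK
  have h6 : 2 * M * K ^ (n + 1) ≤ κ ^ (n + 1) := by
    have h7 := mul_le_mul_of_nonneg_right hn' (by linarith : 0 ≤ K ^ (n + 1))
    rwa [← mul_pow, div_mul_cancel₀ _ hK0.ne'] at h7
  have h8 : M * (⌈K ^ (n + 1)⌉₊ : ℝ) ≤ ⌈κ ^ (n + 1)⌉₊ := by
    have h9 := mul_le_mul_of_nonneg_left h4 hM
    nlinarith
  have h10 : (0 : ℝ) ≤ n + 1 := by positivity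
  calc M * ((n + 1 : ℝ) * ⌈K ^ (n + 1)⌉₊) = (n + 1 : ℝ) * (M * ⌈K ^ (n + 1)⌉₊) := by ring
    _ ≤ (n + 1 : ℝ) * ⌈κ ^ (n + 1)⌉₊ := mul_le_mul_of_nonneg_left h8 h10

theorem chain_base (n : ℕ) : Chain 2 1 (bexp n 2) (polyN n [(1, 2), (-4, 0)]) := by
  have h0 : Chain 1 (-1) (1 / 4) (polyN n [(-4, 0)]) := by
    refine ⟨fun _ => 2, fun _ => 0, fun i _ => by norm_num, fun i hi => by omega, 4,
      by norm_num, ?_⟩
    refine Eventually.of_forall fun r x _ _ i hi => ?_
    have h : i = 0 := by omega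
    subst h
    have h2 : eval ![x, r ^ (2 : ℝ)] (polyN n [(-4, 0)]) = -4 := by
      show eval ![x, r ^ (2 : ℝ)] (X 0 * 0 + monomial (Finsupp.single (0 : Fin 2) 0 +
        Finsupp.single 1 (bexp n 0)) (-4)) = -4
      rw [map_add, eval_mono]
      simp [bexp]
    rw [h2]
    norm_num
  have hb : (2 : ℝ) ≤ bexp n 2 := by
    unfold bexp
    push_cast
    have h1 := Nat.le_ceil ((2 : ℝ) ^ (n + 1))
    have h2 : (2 : ℝ) ≤ 2 ^ (n + 1) := le_self_pow₀ (by norm_num) (by omega)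
    have h3 : (0 : ℝ) ≤ n := Nat.cast_nonneg n
    nlinarith
  have h1 := chain_step h0 (bexp n 2) (by exact_mod_cast (by linarith : (1 : ℝ) ≤ bexp n 2))
    (by push_cast; linarith) 1 (by norm_num)
  rw [neg_neg] at h1
  exact h1

theorem exists_good (k : ℕ) : ∃ (L : List (ℝ × ℝ)) (c ζ K : ℝ) (t : ℕ → ℝ),
    Good (3 * k + 1) L c ζ t ∧ L.length = k + 2 ∧ 1 ≤ K ∧ K * ζ < 1 ∧
    ∀ᶠ n : ℕ in atTop, Chain (k + 2) c (bexp n K) (polyN n L) := by
  induction k with
  | zero =>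
    exact ⟨_, _, _, 2, _, good_base, rfl, by norm_num, by norm_num,
      Eventually.of_forall fun n => chain_base n⟩
  | succ k ih =>
    obtain ⟨L, c, ζ, K, t, h, hL, hK1, hKζ, hch⟩ := ih
    obtain ⟨p, ζ', t', h', hp1, hp2⟩ := good_step h
    have hKp := hp2 K hKζ
    refine ⟨p :: L, -c, ζ', p.2, t', ?_, by simp [hL], by linarith,
      h'.small p (by simp), ?_⟩
    · have h1 : 3 * (k + 1) + 1 = 3 * k + 1 + 3 := by ring
      rw [h1]
      exact h'
    · filter_upwards [hch, bexp_ratio hK1 hKp (2 * ((k + 2 : ℕ) + 2)) (by positivity)] with n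
        hn1 hn2
      have hb1 : 1 ≤ bexp n p.2 := by
        unfold bexp
        have h1 : 0 < ⌈p.2 ^ (n + 1)⌉₊ :=
          Nat.ceil_pos.2 (pow_pos (by linarith : (0 : ℝ) < p.2) _)
        exact Nat.succ_le_of_lt (Nat.mul_pos (Nat.succ_pos n) h1)
      exact chain_step hn1 (bexp n p.2) hb1 (by linarith) p.1 hp1

def Alt (n N : ℕ) (P : MvPolynomial (Fin 2) ℝ) : Prop :=
  ∃ (c : ℝ) (t : ℕ → ℝ), (∀ i ≤ N, 0 < t i ∧ t i < 1) ∧ (∀ i < N, t i < t (i + 1)) ∧
    ∀ i ≤ N, 0 < (-1 : ℝ) ^ i * c * ev n P (t i)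

theorem exists_alt (k : ℕ) : ∃ (n : ℕ) (P : MvPolynomial (Fin 2) ℝ) (c B : ℝ),
    Alt n (3 * k + 1) P ∧ P.support.card = k + 2 ∧ Chain (k + 1 + 1) c B P := by
  obtain ⟨L, c, ζ, K, t, h, hL, -, -, hch⟩ := exists_good k
  have hζ := h.pos
  have hlt := h.lt
  have hζ1 : ζ < 1 := (hlt 0 (by omega)).trans (h.lt_one 0 (by omega))
  set u : ℕ → ℝ := fun i => if i = 0 then ζ / 2 else t (i - 1) with hu
  have hu0 : u 0 = ζ / 2 := by simp [hu]
  have hus : ∀ i, u (i + 1) = t i := by intro i; simp [hu]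
  have hub : ∀ i ≤ 3 * k + 1, 0 < u i ∧ u i < 1 := by
    intro i hi
    rcases i with _ | i
    · rw [hu0]; exact ⟨by linarith, by linarith⟩
    · rw [hus]
      exact ⟨hζ.trans (hlt i (by omega)), h.lt_one i (by omega)⟩
  have e : ∀ᶠ n : ℕ in atTop, ∀ i ∈ Finset.range (3 * k + 2),
      0 < (-1 : ℝ) ^ i * c * ev n (polyN n L) (u i) := by
    refine (Finset.eventually_all _).2 fun i hi => ?_
    rw [Finset.mem_range] at hi
    have hb := hub i (by omega)
    have hav : ∀ p ∈ L, p.2 * u i ≠ 1 := by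
      rcases i with _ | i
      · rw [hu0]
        intro p hp
        have h1 := h.nonneg p hp
        have h2 := h.small p hp
        have h3 : p.2 * (ζ / 2) ≤ p.2 * ζ := mul_le_mul_of_nonneg_left (by linarith) h1
        exact (lt_of_le_of_lt h3 h2).ne
      · rw [hus]
        exact h.avoid i (by omega)
    have hsg : 0 < (-1 : ℝ) ^ i * c * limF L (u i) := by
      rcases i with _ | i
      · rw [hu0, pow_zero, one_mul]
        exact h.hump _ (by linarith) (by linarith)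
      · rw [hus]
        exact h.sign i (by omega)
    have h1 := (lim_polyN L hb.1 hb.2 h.nonneg hav).const_mul ((-1 : ℝ) ^ i * c)
    exact h1.eventually (lt_mem_nhds hsg)
  obtain ⟨n, hn, hchn⟩ := (e.and hch).exists
  refine ⟨n, polyN n L, c, bexp n K,
    ⟨c, u, hub, ?_, fun i hi => hn i (Finset.mem_range.2 (by omega))⟩, ?_, hchn⟩
  · intro i hi
    rcases i with _ | i
    · rw [hu0, hus]
      have := hlt 0 (by omega)
      linarith
    · rw [hus, hus]
      exact h.mono i (by omega)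
  · rw [card_polyN n L h.coef, hL]

noncomputable def W (n : ℕ) (q : ℝ → ℝ) (P : MvPolynomial (Fin 2) ℝ) (t : ℝ) : ℝ :=
  eval ![t, (q t) ^ (1 / (n + 1) : ℝ)] P

theorem hasDerivAt_curve {Y : ℝ → ℝ} {Y' t : ℝ} (hY : HasDerivAt Y Y' t)
    (P : MvPolynomial (Fin 2) ℝ) :
    HasDerivAt (fun x => eval ![x, Y x] P)
      (eval ![t, Y t] (pderiv 0 P) + Y' * eval ![t, Y t] (pderiv 1 P)) t := by
  induction P using MvPolynomial.induction_on with
  | C a =>
    have h2 : (fun x => eval ![x, Y x] (C a : MvPolynomial (Fin 2) ℝ)) = fun _ => a := by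
      funext x
      simp
    rw [h2]
    have h3 : eval ![t, Y t] (pderiv 0 (C a : MvPolynomial (Fin 2) ℝ)) +
        Y' * eval ![t, Y t] (pderiv 1 (C a : MvPolynomial (Fin 2) ℝ)) = 0 := by
      simp
    rw [h3]
    exact hasDerivAt_const t a
  | add p q hp hq =>
    have h2 : (fun x => eval ![x, Y x] (p + q)) =
        fun x => eval ![x, Y x] p + eval ![x, Y x] q := by
      funext x
      simp
    rw [h2]
    refine (hp.add hq : HasDerivAt (fun x => eval ![x, Y x] p + eval ![x, Y x] q) _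
      t).congr_deriv ?_
    simp only [map_add]
    ring
  | mul_X p i hp =>
    have hX : HasDerivAt (fun x => eval ![x, Y x] (X i : MvPolynomial (Fin 2) ℝ))
        (eval ![t, Y t] (pderiv 0 (X i : MvPolynomial (Fin 2) ℝ)) +
          Y' * eval ![t, Y t] (pderiv 1 (X i : MvPolynomial (Fin 2) ℝ))) t := by
      fin_cases i
      · have h2 : (fun x => eval ![x, Y x] (X 0 : MvPolynomial (Fin 2) ℝ)) = fun x => x := by
          funext x
          simp
        have h3 : eval ![t, Y t] (pderiv 0 (X 0 : MvPolynomial (Fin 2) ℝ)) +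
          Y' * eval ![t, Y t] (pderiv 1 (X 0 : MvPolynomial (Fin 2) ℝ)) = 1 := by
          rw [pderiv_X_self, pderiv_X_of_ne (by decide)]
          simp
        show HasDerivAt (fun x => eval ![x, Y x] (X 0 : MvPolynomial (Fin 2) ℝ))
          (eval ![t, Y t] (pderiv 0 (X 0 : MvPolynomial (Fin 2) ℝ)) +
          Y' * eval ![t, Y t] (pderiv 1 (X 0 : MvPolynomial (Fin 2) ℝ))) t
        rw [h3, h2]
        exact hasDerivAt_id t
      · have h2 : (fun x => eval ![x, Y x] (X 1 : MvPolynomial (Fin 2) ℝ)) = Y := by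
          funext x
          simp
        have h3 : eval ![t, Y t] (pderiv 0 (X 1 : MvPolynomial (Fin 2) ℝ)) +
          Y' * eval ![t, Y t] (pderiv 1 (X 1 : MvPolynomial (Fin 2) ℝ)) = Y' := by
          rw [pderiv_X_self, pderiv_X_of_ne (by decide)]
          simp
        show HasDerivAt (fun x => eval ![x, Y x] (X 1 : MvPolynomial (Fin 2) ℝ))
          (eval ![t, Y t] (pderiv 0 (X 1 : MvPolynomial (Fin 2) ℝ)) +
          Y' * eval ![t, Y t] (pderiv 1 (X 1 : MvPolynomial (Fin 2) ℝ))) t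
        rw [h3, h2]
        exact hY
    have h2 : (fun x => eval ![x, Y x] (p * X i)) =
        fun x => eval ![x, Y x] p * eval ![x, Y x] (X i) := by
      funext x
      simp
    rw [h2]
    refine (hp.mul hX : HasDerivAt (fun x => eval ![x, Y x] p * eval ![x, Y x] (X i)) _
      t).congr_deriv ?_
    simp only [Derivation.leibniz, map_add, smul_eq_mul, map_mul]
    ring

theorem sard (g : ℝ → ℝ) (Z : Set ℝ) (h : ∀ x ∈ Z, HasDerivAt g 0 x) :
    MeasureTheory.volume (g '' Z) = 0 := by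
  refine MeasureTheory.addHaar_image_eq_zero_of_det_fderivWithin_eq_zero MeasureTheory.volume
    (f' := fun _ => (0 : ℝ →L[ℝ] ℝ)) (fun x hx => ?_) (fun x hx => ?_)
  · have h1 := (h x hx).hasFDerivAt.hasFDerivWithinAt (s := Z)
    simpa using h1
  · simp

theorem exists_root {f : ℝ → ℝ} {a b : ℝ} (hab : a < b) (hf : ContinuousOn f (Icc a b))
    (h : f a * f b < 0) : ∃ z, a < z ∧ z < b ∧ f z = 0 := by
  rcases mul_neg_iff.1 h with h1 | h1
  · obtain ⟨z, hz, hz0⟩ := intermediate_value_Ioo' hab.le hf ⟨h1.2, h1.1⟩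
    exact ⟨z, hz.1, hz.2, hz0⟩
  · obtain ⟨z, hz, hz0⟩ := intermediate_value_Ioo hab.le hf ⟨h1.1, h1.2⟩
    exact ⟨z, hz.1, hz.2, hz0⟩

structure Sys (n k : ℕ) (F : MvPolynomial (Fin 2) ℝ) (q : ℝ → ℝ) : Prop where
  card : F.support.card = 3 + k
  val : ∀ x y : ℝ, 0 < x → eval ![x, y] F = x ^ k * (y ^ (n + 1) - q x)
  dy : ∀ x y : ℝ, eval ![x, y] (pderiv 1 F) = (n + 1) * (x ^ k * y ^ n)
  diff : ∀ x, 0 < x → DifferentiableAt ℝ q x
  zero : eval ![0, 0] F ≠ 0

def Gaps (n : ℕ) (q : ℝ → ℝ) (P : MvPolynomial (Fin 2) ℝ) (N : ℕ) : Prop :=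
  ∃ u v : ℕ → ℝ, (∀ i < N, 0 < u i ∧ u i < v i) ∧ (∀ i < N, ∀ x ∈ Icc (u i) (v i), 0 < q x) ∧
    (∀ i < N, ∀ j < N, i ≠ j → v i ≤ u j ∨ v j ≤ u i) ∧
    ∀ i < N, W n q P (u i) * W n q P (v i) < 0

theorem root_pow (n : ℕ) {w : ℝ} (h : 0 ≤ w) : (w ^ (1 / (n + 1) : ℝ)) ^ (n + 1) = w := by
  rw [← Real.rpow_natCast, ← Real.rpow_mul h]
  push_cast
  rw [one_div_mul_cancel (by positivity), Real.rpow_one]

theorem main (n k N : ℕ) (F : MvPolynomial (Fin 2) ℝ) (q : ℝ → ℝ) (P : MvPolynomial (Fin 2) ℝ)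
    (hF : Sys n k F q) (hG : Gaps n q P N) :
    ∃ g : MvPolynomial (Fin 2) ℝ, g.support.card = P.support.card ∧
    ∃ S : Finset (ℝ × ℝ), S.card = N ∧ ∀ p ∈ S, IsSimplePositive F g p := by
  classical
  rcases Nat.eq_zero_or_pos N with hN | hN
  · subst hN
    exact ⟨P, rfl, ∅, rfl, by simp⟩
  obtain ⟨u, v, huv, hpos, hdis, hsg⟩ := hG
  have hne : P.support.Nonempty := by
    rw [Finset.nonempty_iff_ne_empty, Ne, MvPolynomial.support_eq_empty]
    rintro rfl
    have := hsg 0 hN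
    simp [W] at this
  obtain ⟨d, hd⟩ := hne
  set m : ℝ → ℝ := W n q (monomial d 1) with hm
  have hd2 : d = Finsupp.single 0 (d 0) + Finsupp.single 1 (d 1) := by
    ext i
    fin_cases i <;> simp
  have hYpos : ∀ x, 0 < q x → 0 < (q x) ^ (1 / (n + 1) : ℝ) := fun x hx =>
    Real.rpow_pos_of_pos hx _
  have hmval : ∀ x, m x = x ^ d 0 * ((q x) ^ (1 / (n + 1) : ℝ)) ^ d 1 := by
    intro x
    rw [hm]
    unfold W
    rw [hd2, eval_mono]
    simp
  have hmpos : ∀ x, 0 < x → 0 < q x → 0 < m x := by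
    intro x h0 h1
    rw [hmval]
    have := hYpos x h1
    positivity
  set g : ℝ → ℝ := fun x => W n q P x / m x with hg
  set Z : Set ℝ := {x | 0 < x ∧ 0 < q x ∧ HasDerivAt g 0 x} with hZ
  have hnull : MeasureTheory.volume (g '' Z) = 0 := sard g Z (fun x hx => hx.2.2)
  have hQ : ∀ ε x, W n q (P + monomial d (-ε)) x = W n q P x - ε * m x := by
    intro ε x
    have h1 : (monomial d (-ε) : MvPolynomial (Fin 2) ℝ) = C (-ε) * monomial d 1 := by
      rw [C_mul_monomial, mul_one]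
    rw [hm]
    unfold W
    rw [h1, map_add, map_mul, eval_C]
    ring
  have hU : ∀ᶠ ε : ℝ in 𝓝 0, (∀ i ∈ Finset.range N,
      W n q (P + monomial d (-ε)) (u i) * W n q (P + monomial d (-ε)) (v i) < 0) ∧
      coeff d P + (-ε) ≠ 0 := by
    refine Eventually.and ?_ ?_
    · refine (Finset.eventually_all _).2 fun i hi => ?_
      rw [Finset.mem_range] at hi
      have h1 := hsg i hi
      have h2 : Continuous fun ε : ℝ => W n q (P + monomial d (-ε)) (u i) *
          W n q (P + monomial d (-ε)) (v i) := by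
        simp only [hQ]
        fun_prop
      have h3 : W n q (P + monomial d (-0)) (u i) * W n q (P + monomial d (-0)) (v i) < 0 := by
        rw [hQ, hQ, zero_mul, sub_zero, zero_mul, sub_zero]
        exact h1
      exact h2.continuousAt.eventually (gt_mem_nhds h3)
    · have h2 : Continuous fun ε : ℝ => coeff d P + (-ε) := by fun_prop
      have h3 : coeff d P + (-0) ≠ 0 := by
        rw [neg_zero, add_zero]
        exact mem_support_iff.1 hd
      exact h2.continuousAt.eventually (isOpen_ne.mem_nhds h3)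
  obtain ⟨ε, hε1, hε2⟩ : ∃ ε, ((∀ i ∈ Finset.range N,
      W n q (P + monomial d (-ε)) (u i) * W n q (P + monomial d (-ε)) (v i) < 0) ∧
      coeff d P + (-ε) ≠ 0) ∧ ε ∉ g '' Z := by
    by_contra hcon
    push Not at hcon
    have h1 : {ε : ℝ | (∀ i ∈ Finset.range N,
      W n q (P + monomial d (-ε)) (u i) * W n q (P + monomial d (-ε)) (v i) < 0) ∧
        coeff d P + (-ε) ≠ 0} ⊆ g '' Z := fun ε hε => hcon ε hε
    have h2 := MeasureTheory.measure_mono (μ := MeasureTheory.volume) h1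
    have h3 := MeasureTheory.Measure.measure_pos_of_mem_nhds MeasureTheory.volume hU
    rw [hnull] at h2
    exact absurd (lt_of_lt_of_le h3 h2) (lt_irrefl _)
  obtain ⟨hsg', hcoef⟩ := hε1
  set Q := P + monomial d (-ε) with hQdef
  have hcard : Q.support.card = P.support.card := by
    have h1 : Q.support = P.support := by
      ext e
      rw [mem_support_iff, mem_support_iff, hQdef, coeff_add, coeff_monomial]
      by_cases he : d = e
      · subst he
        simp only [if_true]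
        exact ⟨fun _ => mem_support_iff.1 hd, fun _ => hcoef⟩
      · simp [he]
    rw [h1]
  have hroot : ∀ i, i < N → ∃ z, u i < z ∧ z < v i ∧ W n q Q z = 0 := by
    intro i hi
    refine exists_root (huv i hi).2 ?_ (hsg' i (Finset.mem_range.2 hi))
    unfold W
    refine (MvPolynomial.continuous_eval Q).comp_continuousOn ?_
    refine continuousOn_pi.2 fun j => ?_
    fin_cases j
    · exact continuousOn_id
    · refine ContinuousOn.rpow_const (fun x hx => ?_) (fun x hx => Or.inr (by positivity))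
      exact (hF.diff x (lt_of_lt_of_le (huv i hi).1 hx.1)).continuousAt.continuousWithinAt
  choose! z hz using hroot
  have zne : ∀ i < N, ∀ j < N, i ≠ j → z i ≠ z j := by
    intro i hi j hj hij
    have h1 := hz i hi
    have h2 := hz j hj
    rcases hdis i hi j hj hij with h | h
    · exact (by linarith [h1.2.1, h2.1] : z i < z j).ne
    · exact (by linarith [h2.2.1, h1.1] : z j < z i).ne'
  refine ⟨Q, hcard, (Finset.range N).image (fun i => (z i, (q (z i)) ^ (1 / (n + 1) : ℝ))),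
    ?_, ?_⟩
  · rw [Finset.card_image_of_injOn, Finset.card_range]
    intro i hi j hj hij
    have h1 : z i = z j := congrArg Prod.fst hij
    rw [Finset.coe_range, Set.mem_Iio] at hi hj
    by_contra h2
    exact zne i hi j hj h2 h1
  · intro p hp
    rw [Finset.mem_image] at hp
    obtain ⟨i, hi, rfl⟩ := hp
    rw [Finset.mem_range] at hi
    obtain ⟨h1, h2, h3⟩ := hz i hi
    have h0 : 0 < z i := lt_trans (huv i hi).1 h1
    have hq : 0 < q (z i) := hpos i hi _ ⟨h1.le, h2.le⟩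
    have hY := hYpos _ hq
    have hYp := root_pow n hq.le
    refine ⟨h0, hY, ?_, h3, ?_⟩
    · show eval ![z i, (q (z i)) ^ (1 / (n + 1) : ℝ)] F = 0
      rw [hF.val _ _ h0, hYp, sub_self, mul_zero]
    · show eval ![z i, (q (z i)) ^ (1 / (n + 1) : ℝ)] (pderiv 0 F) *
          eval ![z i, (q (z i)) ^ (1 / (n + 1) : ℝ)] (pderiv 1 Q) -
        eval ![z i, (q (z i)) ^ (1 / (n + 1) : ℝ)] (pderiv 1 F) *
          eval ![z i, (q (z i)) ^ (1 / (n + 1) : ℝ)] (pderiv 0 Q) ≠ 0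
      intro hJ
      have hqd := (hF.diff _ h0).hasDerivAt
      have hYd := hqd.rpow_const (p := (1 / (n + 1) : ℝ)) (Or.inl hq.ne')
      set Y' := deriv q (z i) * (1 / (n + 1) : ℝ) * q (z i) ^ ((1 / (n + 1) : ℝ) - 1)
      have hcF := hasDerivAt_curve hYd F
      have hcQ := hasDerivAt_curve hYd Q
      have hcP := hasDerivAt_curve hYd P
      have hcm := hasDerivAt_curve hYd (monomial d 1)
      have hF0 : (fun x => eval ![x, (q x) ^ (1 / (n + 1) : ℝ)] F) =ᶠ[𝓝 (z i)]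
          fun _ => (0 : ℝ) := by
        have e1 : ∀ᶠ x in 𝓝 (z i), 0 < q x :=
          (hF.diff _ h0).continuousAt.eventually (lt_mem_nhds hq)
        have e2 : ∀ᶠ x in 𝓝 (z i), 0 < x := lt_mem_nhds h0
        filter_upwards [e1, e2] with x hx hx0
        rw [hF.val _ _ hx0, root_pow n hx.le, sub_self, mul_zero]
      have hF1 := hcF.unique ((hasDerivAt_const (z i) (0 : ℝ)).congr_of_eventuallyEq hF0)
      have hFy : 0 < eval ![z i, (q (z i)) ^ (1 / (n + 1) : ℝ)] (pderiv 1 F) := by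
        rw [hF.dy]
        positivity
      set Fx := eval ![z i, (q (z i)) ^ (1 / (n + 1) : ℝ)] (pderiv 0 F)
      set Fy := eval ![z i, (q (z i)) ^ (1 / (n + 1) : ℝ)] (pderiv 1 F)
      set Qx := eval ![z i, (q (z i)) ^ (1 / (n + 1) : ℝ)] (pderiv 0 Q)
      set Qy := eval ![z i, (q (z i)) ^ (1 / (n + 1) : ℝ)] (pderiv 1 Q)
      have hQ0 : Qx + Y' * Qy = 0 := by
        have h5 : Fy * (Qx + Y' * Qy) = 0 := by
          have h6 : Fx = -(Y' * Fy) := by linarith
          rw [h6] at hJ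
          linarith
        exact (mul_eq_zero.1 h5).resolve_left hFy.ne'
      rw [hQ0] at hcQ
      apply hε2
      refine ⟨z i, ⟨h0, hq, ?_⟩, ?_⟩
      ·
        set a := eval ![z i, (q (z i)) ^ (1 / (n + 1) : ℝ)] (pderiv 0 P) +
          Y' * eval ![z i, (q (z i)) ^ (1 / (n + 1) : ℝ)] (pderiv 1 P)
        set b := eval ![z i, (q (z i)) ^ (1 / (n + 1) : ℝ)] (pderiv 0 (monomial d 1)) +
          Y' * eval ![z i, (q (z i)) ^ (1 / (n + 1) : ℝ)] (pderiv 1 (monomial d 1))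
        have hP' : HasDerivAt (W n q P) a (z i) := hcP
        have hm' : HasDerivAt m b (z i) := hcm
        have hQ' : HasDerivAt (W n q Q) 0 (z i) := hcQ
        have hQ'' : HasDerivAt (W n q Q) (a - ε * b) (z i) := by
          have h6 := hP'.sub (hm'.const_mul ε)
          have h8 : (W n q P - fun x => ε * m x) = W n q Q := by
            funext x
            rw [hQdef, hQ]
            rfl
          rw [h8] at h6
          exact h6
        have hab : a - ε * b = 0 := hQ''.unique hQ'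
        have hmz := hmpos (z i) h0 hq
        have hgd := hP'.div hm' hmz.ne'
        have hPz : W n q P (z i) = ε * m (z i) := by
          have := hQ ε (z i)
          rw [← hQdef, h3] at this
          linarith
        have hz0 : (a * m (z i) - W n q P (z i) * b) / m (z i) ^ 2 = 0 := by
          have h9 : a = ε * b := by linarith
          rw [hPz, h9]
          ring
        rw [hz0] at hgd
        exact hgd
      · show W n q P (z i) / m (z i) = ε
        have hmz := hmpos (z i) h0 hq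
        have := hQ ε (z i)
        rw [← hQdef, h3] at this
        rw [div_eq_iff hmz.ne']
        linarith

theorem levels {f : ℝ → ℝ} {a b : ℝ} (hab : a < b) (hf : ContinuousOn f (Icc a b))
    (ha : f a ≤ 0) (m : ℕ) (w : ℕ → ℝ) (hw : ∀ i < m, 0 < w i ∧ w i ≤ f b)
    (hmono : ∀ i, i + 1 < m → w (i + 1) < w i) :
    ∃ x : ℕ → ℝ, (∀ i < m, a ≤ x i ∧ x i ≤ b ∧ f (x i) = w i) ∧
      (∀ i, i + 1 < m → x (i + 1) < x i) ∧
      ∀ i < m, ∀ y, x i ≤ y → y ≤ b → 0 < f y := by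
  have hc1 : IsCompact (Icc a b ∩ f ⁻¹' Iic 0) :=
    isCompact_Icc.of_isClosed_subset
      (hf.preimage_isClosed_of_isClosed isClosed_Icc isClosed_Iic) inter_subset_left
  obtain ⟨R, hR, hRg⟩ := hc1.exists_isGreatest ⟨a, ⟨le_rfl, hab.le⟩, ha⟩
  have hRab : R ∈ Icc a b := hR.1
  have hR0 : f R ≤ 0 := hR.2
  have hpos : ∀ y, R < y → y ≤ b → 0 < f y := by
    intro y h1 h2
    by_contra h3
    have h4 := hRg ⟨⟨by linarith [hRab.1], h2⟩, not_lt.1 h3⟩
    linarith
  have hT : ∀ i < m, ∃ T, (R < T ∧ T ≤ b) ∧ f T = w i ∧ ∀ y, R ≤ y → y ≤ b → w i ≤ f y →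
      T ≤ y := by
    intro i hi
    obtain ⟨hw0, hwb⟩ := hw i hi
    have hfR : ContinuousOn f (Icc R b) := hf.mono (Icc_subset_Icc_left hRab.1)
    have hc2 : IsCompact (Icc R b ∩ f ⁻¹' Ici (w i)) :=
      isCompact_Icc.of_isClosed_subset
        (hfR.preimage_isClosed_of_isClosed isClosed_Icc isClosed_Ici) inter_subset_left
    obtain ⟨T, hT, hTl⟩ := hc2.exists_isLeast ⟨b, ⟨hRab.2, le_rfl⟩, hwb⟩
    have hTR : T ∈ Icc R b := hT.1
    have hTw : w i ≤ f T := hT.2
    have hRT : R < T := by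
      rcases hTR.1.eq_or_lt with h | h
      · rw [← h] at hTw
        linarith
      · exact h
    refine ⟨T, ⟨hRT, hTR.2⟩, ?_, fun y h1 h2 h3 => hTl ⟨⟨h1, h2⟩, h3⟩⟩
    rcases hTw.eq_or_lt with h | h
    · exact h.symm
    · exfalso
      obtain ⟨z, hz, hz'⟩ := intermediate_value_Ioo hRT.le
        (hfR.mono (Icc_subset_Icc_right hTR.2)) ⟨lt_of_le_of_lt hR0 hw0, h⟩
      have := hTl ⟨⟨hz.1.le, by linarith [hz.2, hTR.2]⟩, hz'.ge⟩
      linarith [hz.2]
  choose! T hT1 hT2 hT3 using hT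
  refine ⟨T, ?_, ?_, ?_⟩
  · intro i hi
    exact ⟨by linarith [hRab.1, (hT1 i hi).1], (hT1 i hi).2, hT2 i hi⟩
  · intro i hi
    have h1 := hT2 i (by omega)
    have h2 := hT2 (i + 1) hi
    have h3 := hmono i hi
    have h4 := hT3 (i + 1) hi (T i) (hT1 i (by omega)).1.le (hT1 i (by omega)).2
      (by rw [h1]; exact h3.le)
    rcases h4.eq_or_lt with h5 | h5
    · rw [h5, h1] at h2
      linarith
    · exact h5
  · intro i hi y h1 h2
    exact hpos y (lt_of_lt_of_le (hT1 i hi).1 h1) h2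

theorem sgn_aux {i : ℕ} {c A B : ℝ} (h1 : 0 < (-1 : ℝ) ^ i * c * A)
    (h2 : 0 < (-1 : ℝ) ^ (i + 1) * c * B) : A * B < 0 := by
  rw [pow_succ] at h2
  by_contra h
  have h3 := mul_nonneg (sq_nonneg c) (not_lt.1 h)
  rcases neg_one_pow_eq_or ℝ i with h4 | h4
  · rw [h4] at h1 h2
    nlinarith [mul_pos h1 h2]
  · rw [h4] at h1 h2
    nlinarith [mul_pos h1 h2]

theorem root_of_pow (n : ℕ) {w : ℝ} (h : 0 ≤ w) : (w ^ (n + 1)) ^ (1 / (n + 1) : ℝ) = w := by
  rw [← Real.rpow_natCast, ← Real.rpow_mul h]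
  push_cast
  rw [mul_one_div_cancel (by positivity), Real.rpow_one]

theorem new_gaps (n : ℕ) (q : ℝ → ℝ) (P : MvPolynomial (Fin 2) ℝ) {a b : ℝ} (hab : a < b)
    (hq : ContinuousOn q (Icc a b)) (w0 : ℝ)
    (hor : (q a ≤ 0 ∧ w0 ≤ q b) ∨ (q b ≤ 0 ∧ w0 ≤ q a)) (m : ℕ) (c : ℝ) (η : ℕ → ℝ)
    (hη : ∀ i < m + 1, 0 < η i ∧ (η i) ^ (n + 1) ≤ w0)
    (hηm : ∀ i, i + 1 < m + 1 → η (i + 1) < η i)
    (hs : ∀ x ∈ Icc a b, ∀ i < m + 1, 0 < (-1 : ℝ) ^ i * c * eval ![x, η i] P) :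
    ∃ u v : ℕ → ℝ, (∀ i < m, a ≤ u i ∧ u i < v i ∧ v i ≤ b) ∧
      (∀ i < m, ∀ x ∈ Icc (u i) (v i), 0 < q x) ∧
      (∀ i < m, ∀ j < m, i ≠ j → v i ≤ u j ∨ v j ≤ u i) ∧
      ∀ i < m, W n q P (u i) * W n q P (v i) < 0 := by
  have hpm : ∀ i, i + 1 < m + 1 → (η (i + 1)) ^ (n + 1) < (η i) ^ (n + 1) := fun i hi =>
    pow_lt_pow_left₀ (hηm i hi) (hη (i + 1) hi).1.le (by omega)
  have hW : ∀ x ∈ Icc a b, ∀ i < m + 1, q x = (η i) ^ (n + 1) →
      0 < (-1 : ℝ) ^ i * c * W n q P x := by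
    intro x hx i hi hqx
    unfold W
    rw [hqx, root_of_pow n (hη i hi).1.le]
    exact hs x hx i hi
  rcases hor with ⟨h1, h2⟩ | ⟨h1, h2⟩
  · obtain ⟨x, hx, hxm, hxp⟩ := levels hab hq h1 (m + 1) (fun i => (η i) ^ (n + 1))
      (fun i hi => ⟨pow_pos (hη i hi).1 _, (hη i hi).2.trans h2⟩) hpm
    have hanti : ∀ i j, i ≤ j → j < m + 1 → x j ≤ x i := by
      intro i j hij
      induction j, hij using Nat.le_induction with
      | base => intro _; exact le_rfl
      | succ j hij ih => intro hj; exact (hxm j hj).le.trans (ih (by omega))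
    refine ⟨fun i => x (i + 1), x, ?_, ?_, ?_, ?_⟩
    · intro i hi
      exact ⟨(hx (i + 1) (by omega)).1, hxm i (by omega), (hx i (by omega)).2.1⟩
    · intro i hi y hy
      exact hxp (i + 1) (by omega) y hy.1 (hy.2.trans (hx i (by omega)).2.1)
    · intro i hi j hj hij
      rcases lt_or_gt_of_ne hij with h | h
      · right
        exact hanti (i + 1) j h (by omega)
      · left
        exact hanti (j + 1) i h (by omega)
    · intro i hi
      obtain ⟨a1, a2, a3⟩ := hx i (by omega)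
      obtain ⟨b1, b2, b3⟩ := hx (i + 1) (by omega)
      rw [mul_comm]
      exact sgn_aux (hW _ ⟨a1, a2⟩ i (by omega) a3) (hW _ ⟨b1, b2⟩ (i + 1) (by omega) b3)
  · have hcf : ContinuousOn (fun x => q (a + b - x)) (Icc a b) := by
      refine hq.comp (by fun_prop) ?_
      intro x hx
      exact ⟨by linarith [hx.2], by linarith [hx.1]⟩
    have e1 : (fun x => q (a + b - x)) a = q b := by
      show q (a + b - a) = q b
      congr 1
      ring
    have e2 : (fun x => q (a + b - x)) b = q a := by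
      show q (a + b - b) = q a
      congr 1
      ring
    obtain ⟨x, hx, hxm, hxp⟩ := levels hab hcf (le_of_eq_of_le e1 h1) (m + 1)
      (fun i => (η i) ^ (n + 1))
      (fun i hi => ⟨pow_pos (hη i hi).1 _, ((hη i hi).2.trans h2).trans e2.ge⟩) hpm
    have hanti : ∀ i j, i ≤ j → j < m + 1 → x j ≤ x i := by
      intro i j hij
      induction j, hij using Nat.le_induction with
      | base => intro _; exact le_rfl
      | succ j hij ih => intro hj; exact (hxm j hj).le.trans (ih (by omega))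
    refine ⟨fun i => a + b - x i, fun i => a + b - x (i + 1), ?_, ?_, ?_, ?_⟩
    · intro i hi
      have a1 := (hx i (by omega)).2.1
      have a2 := hxm i (by omega)
      have a3 := (hx (i + 1) (by omega)).1
      exact ⟨by linarith, by linarith, by linarith⟩
    · intro i hi y hy
      have a1 := hy.1
      have a2 := hy.2
      have a3 := (hx i (by omega)).2.1
      have h3 : 0 < q (a + b - (a + b - y)) :=
        hxp (i + 1) (by omega) (a + b - y) (by linarith) (by linarith)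
      have e3 : a + b - (a + b - y) = y := by ring
      rwa [e3] at h3
    · intro i hi j hj hij
      rcases lt_or_gt_of_ne hij with h | h
      · left
        have := hanti (i + 1) j h (by omega)
        show a + b - x (i + 1) ≤ a + b - x j
        linarith
      · right
        have := hanti (j + 1) i h (by omega)
        show a + b - x (j + 1) ≤ a + b - x i
        linarith
    · intro i hi
      obtain ⟨a1, a2, a3⟩ := hx i (by omega)
      obtain ⟨b1, b2, b3⟩ := hx (i + 1) (by omega)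
      exact sgn_aux (hW (a + b - x i) ⟨by linarith, by linarith⟩ i (by omega) a3)
        (hW (a + b - x (i + 1)) ⟨by linarith, by linarith⟩ (i + 1) (by omega) b3)

theorem sys_base (n : ℕ) : Sys n 0 (X 0 ^ (n + 1) + X 1 ^ (n + 1) - 1)
    (fun x => 1 - x ^ (n + 1)) := by
  refine ⟨?_, ?_, ?_, ?_, ?_⟩
  · have h1 : (X 0 ^ (n + 1) + X 1 ^ (n + 1) - 1 : MvPolynomial (Fin 2) ℝ) =
        monomial (Finsupp.single (0 : Fin 2) (n + 1)) 1 +
        monomial (Finsupp.single (1 : Fin 2) (n + 1)) 1 + monomial 0 (-1) := by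
      rw [X_pow_eq_monomial, X_pow_eq_monomial, sub_eq_add_neg]
      congr 1
      rw [map_neg]
      rfl
    rw [h1, card_add_monomial _ _ _ (by norm_num), card_add_monomial _ _ _ (by norm_num),
      support_monomial, if_neg one_ne_zero, Finset.card_singleton]
    · rw [support_monomial, if_neg one_ne_zero, Finset.mem_singleton]
      intro h
      have := DFunLike.congr_fun h 0
      simp at this
    · classical
      intro h
      rcases Finset.mem_union.1 (support_add h) with h2 | h2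
      · have h3 := support_monomial_subset h2
        rw [Finset.mem_singleton] at h3
        have := DFunLike.congr_fun h3 0
        simp at this
      · have h3 := support_monomial_subset h2
        rw [Finset.mem_singleton] at h3
        have := DFunLike.congr_fun h3 1
        simp at this
  · intro x y _
    simp
    ring
  · intro x y
    simp [pderiv_X_of_ne, Derivation.leibniz_pow, pderiv_X_self]
  · intro x _
    fun_prop
  · simp

theorem sys_step {n k : ℕ} {F : MvPolynomial (Fin 2) ℝ} {q : ℝ → ℝ} (h : Sys n k F q)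
    {δ : ℝ} (hδ : δ ≠ 0) : Sys n (k + 1) (X 0 * F + monomial 0 δ)
      (fun x => q x - δ / x ^ (k + 1)) := by
  refine ⟨?_, ?_, ?_, ?_, ?_⟩
  · have hd : (0 : Fin 2 →₀ ℕ) ∉ (X 0 * F).support := by
      intro h0
      obtain ⟨e, -, he⟩ := mem_X_mul h0
      have := DFunLike.congr_fun he 0
      simp at this
      omega
    rw [card_add_monomial _ _ _ hδ hd, card_X_mul, h.card]
    ring
  · intro x y hx
    rw [map_add, map_mul, eval_X, h.val x y hx, eval_monomial]
    simp only [Matrix.cons_val_zero, Finsupp.prod_zero_index, mul_one]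
    field_simp
    ring
  · intro x y
    have h1 : pderiv 1 (X 0 * F + monomial 0 δ) = X 0 * pderiv 1 F := by
      have h2 : (monomial 0 δ : MvPolynomial (Fin 2) ℝ) = C δ := rfl
      rw [h2, map_add, Derivation.leibniz, pderiv_X_of_ne (by decide), pderiv_C]
      simp
    rw [h1, map_mul, eval_X, h.dy]
    simp only [Matrix.cons_val_zero]
    ring
  · intro x hx
    have hx' : x ^ (k + 1) ≠ 0 := (pow_pos hx _).ne'
    exact (h.diff x hx).sub ((differentiableAt_const δ).div (by fun_prop) hx')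
  · rw [map_add, map_mul, eval_X, eval_monomial]
    simp only [Matrix.cons_val_zero, zero_mul, zero_add, Finsupp.prod_zero_index, mul_one]
    exact hδ

theorem phi_cont (F : MvPolynomial (Fin 2) ℝ) : Continuous fun x : ℝ => eval ![x, 0] F := by
  refine (MvPolynomial.continuous_eval F).comp ?_
  refine continuous_pi fun i => ?_
  fin_cases i
  · exact continuous_id
  · exact continuous_const

theorem old_persist {n k : ℕ} {F : MvPolynomial (Fin 2) ℝ} {q : ℝ → ℝ} (h : Sys n k F q)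
    (P : MvPolynomial (Fin 2) ℝ) (s : ℝ) {u v : ℝ} (hu : 0 < u) (huv : u < v)
    (hq : ∀ x ∈ Icc u v, 0 < q x) (hW : W n q P u * W n q P v < 0) :
    ∀ᶠ l in 𝓝[>] (0 : ℝ), (∀ x ∈ Icc u v, 0 < q x - l * s / x ^ (k + 1)) ∧
      W n (fun x => q x - l * s / x ^ (k + 1)) P u *
        W n (fun x => q x - l * s / x ^ (k + 1)) P v < 0 := by
  refine Eventually.and ?_ ?_
  · have hqc : ContinuousOn q (Icc u v) := fun x hx =>
      (h.diff x (lt_of_lt_of_le hu hx.1)).continuousAt.continuousWithinAt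
    obtain ⟨x0, hx0, hmin⟩ := isCompact_Icc.exists_isMinOn ⟨u, ⟨le_rfl, huv.le⟩⟩ hqc
    have hm0 := hq x0 hx0
    have g1 : Tendsto (fun l : ℝ => l * (|s| / u ^ (k + 1))) (𝓝 0) (𝓝 0) := by
      have g2 : Continuous fun l : ℝ => l * (|s| / u ^ (k + 1)) := by fun_prop
      have g3 := g2.tendsto 0
      simpa using g3
    have g4 := (g1.eventually (gt_mem_nhds hm0)).filter_mono
      (nhdsWithin_le_nhds (s := Set.Ioi (0 : ℝ)))
    filter_upwards [g4, self_mem_nhdsWithin] with l hl hl0 x hx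
    have hl0' : 0 < l := hl0
    have hx1 : 0 < x := lt_of_lt_of_le hu hx.1
    have hqx : q x0 ≤ q x := hmin hx
    have h1 : l * s / x ^ (k + 1) ≤ l * (|s| / u ^ (k + 1)) := by
      have h2 : l * s / x ^ (k + 1) ≤ l * |s| / x ^ (k + 1) :=
        div_le_div_of_nonneg_right (mul_le_mul_of_nonneg_left (le_abs_self s) hl0'.le)
          (by positivity)
      have h3 : l * |s| / x ^ (k + 1) ≤ l * |s| / u ^ (k + 1) :=
        div_le_div_of_nonneg_left (by positivity) (by positivity)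
          (pow_le_pow_left₀ hu.le hx.1 _)
      calc _ ≤ _ := h2
        _ ≤ _ := h3
        _ = _ := by ring
    linarith
  · have hc : ∀ y : ℝ, Continuous fun l : ℝ => W n (fun x => q x - l * s / x ^ (k + 1)) P y := by
      intro y
      unfold W
      refine (MvPolynomial.continuous_eval P).comp ?_
      refine continuous_pi fun i => ?_
      fin_cases i
      · exact continuous_const
      · have g2 : Continuous fun l : ℝ => q y - l * s / y ^ (k + 1) := by fun_prop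
        exact g2.rpow_const fun x => Or.inr (by positivity)
    have h1 := ((hc u).mul (hc v)).tendsto 0
    have h2 : W n (fun x => q x - 0 * s / x ^ (k + 1)) P u *
        W n (fun x => q x - 0 * s / x ^ (k + 1)) P v < 0 := by
      simpa using hW
    exact (h1.eventually (gt_mem_nhds h2)).filter_mono nhdsWithin_le_nhds

theorem gaps_step {n k m N : ℕ} {F : MvPolynomial (Fin 2) ℝ} {q : ℝ → ℝ} {c B : ℝ}
    {P : MvPolynomial (Fin 2) ℝ} (h : Sys n k F q) (hG : Gaps n q P N)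
    (hch : Chain (m + 1) c B P) :
    ∃ F' q', Sys n (k + 1) F' q' ∧ Gaps n q' P (N + m) := by
  obtain ⟨u, v, huv, hpos, hdis, hsg⟩ := hG
  obtain ⟨τ, e, t1, t2, γ, hγ, t3⟩ := hch
  set s : ℝ := -eval ![0, 0] F with hs
  have hs0 : s ≠ 0 := neg_ne_zero.2 h.zero
  have hsa : 0 < |s| := abs_pos.2 hs0

  have e1 : ∀ᶠ r in 𝓝[>] (0 : ℝ), |-(eval ![r, 0] F) - s| < |s| / 4 := by
    have g1 := (phi_cont F).neg.tendsto 0
    have g2 : Tendsto (fun r : ℝ => |-(eval ![r, 0] F) - s|) (𝓝 0) (𝓝 0) := by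
      have g3 := (g1.sub_const s).abs
      simpa [hs] using g3
    exact (g2.eventually (gt_mem_nhds (by positivity))).filter_mono nhdsWithin_le_nhds
  have hscale : Tendsto (fun r : ℝ => 4 * r) (𝓝[>] 0) (𝓝[>] 0) := by
    refine tendsto_nhdsWithin_iff.2 ⟨?_, ?_⟩
    · have g2 : Continuous fun r : ℝ => 4 * r := by fun_prop
      have g3 := g2.tendsto 0
      rw [mul_zero] at g3
      exact g3.mono_left nhdsWithin_le_nhds
    · filter_upwards [self_mem_nhdsWithin] with r hr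
      have : (0 : ℝ) < r := hr
      show (0 : ℝ) < 4 * r
      linarith
  have hscale2 : Tendsto (fun r : ℝ => 2 * r) (𝓝[>] 0) (𝓝[>] 0) := by
    refine tendsto_nhdsWithin_iff.2 ⟨?_, ?_⟩
    · have g2 : Continuous fun r : ℝ => 2 * r := by fun_prop
      have g3 := g2.tendsto 0
      rw [mul_zero] at g3
      exact g3.mono_left nhdsWithin_le_nhds
    · filter_upwards [self_mem_nhdsWithin] with r hr
      have : (0 : ℝ) < r := hr
      show (0 : ℝ) < 2 * r
      linarith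
  have e2 := hscale.eventually e1
  have e3 : ∀ᶠ r in 𝓝[>] (0 : ℝ), 4 * r < 1 :=
    (hscale.mono_right nhdsWithin_le_nhds).eventually (gt_mem_nhds one_pos)
  have e4 : ∀ᶠ r in 𝓝[>] (0 : ℝ), ∀ i ∈ Finset.range N, 4 * r < u i := by
    refine (Finset.eventually_all _).2 fun i hi => ?_
    exact (hscale.mono_right nhdsWithin_le_nhds).eventually
      (gt_mem_nhds (huv i (Finset.mem_range.1 hi)).1)
  have e5 : ∀ᶠ r in 𝓝[>] (0 : ℝ), ∀ i ∈ Finset.range (m + 1),
      (r ^ τ i) ^ (n + 1) < |s| / 4 := by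
    refine (Finset.eventually_all _).2 fun i hi => ?_
    have hτ := (t1 i (Finset.mem_range.1 hi)).1
    have g2 : Continuous fun r : ℝ => (r ^ τ i) ^ (n + 1) :=
      (continuous_id.rpow_const fun x => Or.inr hτ.le).pow (n + 1)
    have g3 := g2.tendsto 0
    rw [Real.zero_rpow hτ.ne', zero_pow (by omega)] at g3
    exact (g3.eventually (gt_mem_nhds (by positivity))).filter_mono nhdsWithin_le_nhds
  have e6 : ∀ᶠ r in 𝓝[>] (0 : ℝ), ∀ i ∈ Finset.range N,
      (∀ x ∈ Icc (u i) (v i), 0 < q x - (2 * r) * s / x ^ (k + 1)) ∧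
      W n (fun x => q x - (2 * r) * s / x ^ (k + 1)) P (u i) *
        W n (fun x => q x - (2 * r) * s / x ^ (k + 1)) P (v i) < 0 := by
    refine (Finset.eventually_all _).2 fun i hi => ?_
    rw [Finset.mem_range] at hi
    exact hscale2.eventually (old_persist h P s (huv i hi).1 (huv i hi).2 (hpos i hi) (hsg i hi))
  obtain ⟨r, r1, r2, r3, r4, r5, r6, r7, r0⟩ :=
    (e1.and (e2.and (e3.and (e4.and (e5.and (e6.and (t3.and self_mem_nhdsWithin))))))).exists
  have r0' : 0 < r := r0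
  set q' : ℝ → ℝ := fun x => q x - (2 * r) * s / x ^ (k + 1) with hq'
  have hS := sys_step h (δ := 2 * r * s) (mul_ne_zero (by positivity) hs0)
  have hS' : Sys n (k + 1) (X 0 * F + monomial 0 (2 * r * s)) q' := hS

  have hval : ∀ x, 0 < x → x ^ k * q' x = -(eval ![x, 0] F) - 2 * r * s / x := by
    intro x hx
    have h1 := h.val x 0 hx
    rw [zero_pow (by omega), zero_sub] at h1
    rw [hq', h1]
    field_simp
    ring
  have v1 : r ^ k * q' r = -(eval ![r, 0] F) - 2 * s := by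
    rw [hval r r0']
    field_simp
  have v2 : (4 * r) ^ k * q' (4 * r) = -(eval ![4 * r, 0] F) - s / 2 := by
    rw [hval (4 * r) (by positivity)]
    field_simp
    ring
  have p1 : 0 < r ^ k := by positivity
  have p1' : r ^ k ≤ 1 := pow_le_one₀ r0'.le (by linarith)
  have p2 : 0 < (4 * r) ^ k := by positivity
  have p2' : (4 * r) ^ k ≤ 1 := pow_le_one₀ (by linarith) r3.le
  have hor : (q' r ≤ 0 ∧ |s| / 4 ≤ q' (4 * r)) ∨ (q' (4 * r) ≤ 0 ∧ |s| / 4 ≤ q' r) := by
    have r1' := abs_lt.1 r1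
    have r2' := abs_lt.1 r2
    rcases lt_or_gt_of_ne hs0 with hneg | hpos'
    · right
      rw [abs_of_neg hneg] at r1' r2' ⊢
      constructor
      · by_contra hcon
        have := mul_pos p2 (not_le.1 hcon)
        rw [v2] at this
        linarith [r2'.2]
      · have h5 : -s / 4 ≤ r ^ k * q' r := by
          rw [v1]
          linarith [r1'.1]
        have h6 : 0 < q' r := by
          by_contra hcon
          have := mul_nonpos_of_nonneg_of_nonpos p1.le (not_lt.1 hcon)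
          linarith
        nlinarith
    · left
      rw [abs_of_pos hpos'] at r1' r2' ⊢
      constructor
      · by_contra hcon
        have := mul_pos p1 (not_le.1 hcon)
        rw [v1] at this
        linarith [r1'.2]
      · have h5 : s / 4 ≤ (4 * r) ^ k * q' (4 * r) := by
          rw [v2]
          linarith [r2'.1]
        have h6 : 0 < q' (4 * r) := by
          by_contra hcon
          have := mul_nonpos_of_nonneg_of_nonpos p2.le (not_lt.1 hcon)
          linarith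
        nlinarith
  have hcont : ContinuousOn q' (Icc r (4 * r)) := fun x hx =>
    (hS'.diff x (lt_of_lt_of_le r0' hx.1)).continuousAt.continuousWithinAt
  obtain ⟨u', v', n1, n2, n3, n4⟩ := new_gaps n q' P (by linarith : r < 4 * r) hcont (|s| / 4)
    hor m c (fun i => r ^ τ i)
    (fun i hi => ⟨by positivity, (r5 i (Finset.mem_range.2 hi)).le⟩)
    (fun i hi => Real.rpow_lt_rpow_of_exponent_gt r0' (by linarith) (t2 i hi))
    (fun x hx i hi => lt_of_lt_of_le (by positivity) (r7 x hx.1 hx.2 i hi))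
  refine ⟨_, q', hS', fun i => if i < N then u i else u' (i - N),
    fun i => if i < N then v i else v' (i - N), ?_, ?_, ?_, ?_⟩
  · intro i hi
    by_cases h1 : i < N
    · simp only [h1, if_true]
      exact huv i h1
    · simp only [h1, if_false]
      have := n1 (i - N) (by omega)
      exact ⟨by linarith [this.1], this.2.1⟩
  · intro i hi
    by_cases h1 : i < N
    · simp only [h1, if_true]
      exact (r6 i (Finset.mem_range.2 h1)).1
    · simp only [h1, if_false]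
      exact n2 (i - N) (by omega)
  · intro i hi j hj hij
    by_cases h1 : i < N
    · by_cases h2 : j < N
      · simp only [h1, h2, if_true]
        exact hdis i h1 j h2 hij
      · simp only [h1, h2, if_true, if_false]
        right
        have a1 := r4 i (Finset.mem_range.2 h1)
        have a2 := n1 (j - N) (by omega)
        linarith [a2.2.2]
    · by_cases h2 : j < N
      · simp only [h1, h2, if_true, if_false]
        left
        have a1 := r4 j (Finset.mem_range.2 h2)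
        have a2 := n1 (i - N) (by omega)
        linarith [a2.2.2]
      · simp only [h1, h2, if_false]
        exact n3 (i - N) (by omega) (j - N) (by omega) (by omega)
  · intro i hi
    by_cases h1 : i < N
    · simp only [h1, if_true]
      exact (r6 i (Finset.mem_range.2 h1)).2
    · simp only [h1, if_false]
      exact n4 (i - N) (by omega)

theorem gaps_base {n N : ℕ} {P : MvPolynomial (Fin 2) ℝ} (h : Alt n N P) :
    Gaps n (fun x => 1 - x ^ (n + 1)) P N := by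
  obtain ⟨c, t, h1, h2, h3⟩ := h
  have hmono : ∀ i j, i ≤ j → j ≤ N → t i ≤ t j := by
    intro i j hij
    induction j, hij using Nat.le_induction with
    | base => intro _; exact le_rfl
    | succ j hij ih => intro hj; exact (ih (by omega)).trans (h2 j (by omega)).le
  refine ⟨t, fun i => t (i + 1), ?_, ?_, ?_, ?_⟩
  · intro i hi
    exact ⟨(h1 i hi.le).1, h2 i hi⟩
  · intro i hi x hx
    have a1 := h1 i hi.le
    have a2 := h1 (i + 1) hi
    have := pow_lt_one' n (lt_of_lt_of_le a1.1 hx.1) (lt_of_le_of_lt hx.2 a2.2)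
    linarith
  · intro i hi j hj hij
    rcases lt_or_gt_of_ne hij with h | h
    · left
      exact hmono (i + 1) j h hj.le
    · right
      exact hmono (j + 1) i h hi.le
  · intro i hi
    exact sgn_aux (h3 i hi.le) (h3 (i + 1) hi)

theorem exists_sys {n m N : ℕ} {c B : ℝ} {P : MvPolynomial (Fin 2) ℝ} (h : Alt n N P)
    (hch : Chain (m + 1) c B P) (k : ℕ) :
    ∃ F q, Sys n k F q ∧ Gaps n q P (N + k * m) := by
  induction k with
  | zero => exact ⟨_, _, sys_base n, by simpa using gaps_base h⟩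
  | succ k ih =>
    obtain ⟨F, q, hF, hG⟩ := ih
    obtain ⟨F', q', hF', hG'⟩ := gaps_step hF hG hch
    refine ⟨F', q', hF', ?_⟩
    have h1 : N + (k + 1) * m = N + k * m + m := by ring
    rw [h1]
    exact hG'

theorem lower (m₁ m₂ : ℕ) (h₁ : 3 ≤ m₁) (h₂ : 2 ≤ m₂) :
    ((m₁ * (m₂ - 1) - 2 : ℕ) : ℕ∞) ≤ fewN m₁ m₂ := by
  obtain ⟨k, rfl⟩ : ∃ k, m₁ = 3 + k := ⟨m₁ - 3, by omega⟩
  obtain ⟨j, rfl⟩ : ∃ j, m₂ = j + 2 := ⟨m₂ - 2, by omega⟩
  obtain ⟨n, P, c, B, hP, hc, hch⟩ := exists_alt j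
  obtain ⟨F, q, hF, hG⟩ := exists_sys hP hch k
  obtain ⟨g, hg, S, hS, hsol⟩ := main n k _ F q P hF hG
  have h1 : (3 + k) * (j + 2 - 1) - 2 = 3 * j + 1 + k * (j + 1) := by
    have h2 : j + 2 - 1 = j + 1 := by omega
    rw [h2]
    have h3 : (3 + k) * (j + 1) = 3 * j + 1 + k * (j + 1) + 2 := by ring
    omega
  rw [h1, ← hS, ← Set.encard_coe_eq_coe_finsetCard]
  unfold fewN
  refine le_iSup_of_le F (le_iSup_of_le g (le_iSup_of_le hF.card
    (le_iSup_of_le (hg.trans hc) ?_)))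
  exact Set.encard_le_encard fun p hp => hsol p hp

theorem fewN_comm_le (a b : ℕ) : fewN a b ≤ fewN b a := by
  unfold fewN
  refine iSup_le fun f => iSup_le fun g => iSup_le fun hf => iSup_le fun hg => ?_
  refine le_iSup_of_le g (le_iSup_of_le f (le_iSup_of_le hg (le_iSup_of_le hf ?_)))
  refine Set.encard_le_encard fun p hp => ?_
  obtain ⟨h1, h2, h3, h4, h5⟩ := hp
  refine ⟨h1, h2, h4, h3, fun h => h5 ?_⟩
  linarith

theorem general_bound (m₁ m₂ : ℕ) (h₁ : 3 ≤ m₁) (h₂ : 3 ≤ m₂) :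
    ((m₁ * m₂ - min m₁ m₂ - 2 : ℕ) : ℕ∞) ≤ fewN m₁ m₂ := by
  rcases le_total m₁ m₂ with h | h
  · have e : m₁ * m₂ - min m₁ m₂ - 2 = m₁ * (m₂ - 1) - 2 := by
      rw [min_eq_left h, Nat.mul_sub_one]
    rw [e]
    exact lower m₁ m₂ h₁ (by omega)
  · have e : m₁ * m₂ - min m₁ m₂ - 2 = m₂ * (m₁ - 1) - 2 := by
      rw [min_eq_right h, Nat.mul_sub_one, mul_comm m₁ m₂]
    rw [e]
    exact (lower m₂ m₁ h₂ (by omega)).trans (fewN_comm_le _ _)

end Pool.Agent.Results.MP_4cba3d_ag.AllPairs.General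

namespace Pool.Agent.Results.MP_4cba3d_ag.AllPairs

open MvPolynomial

/-- `p` is a simple positive solution of `f = g = 0`: both coordinates of `p` are positive, both
polynomials vanish at `p` and the Jacobian determinant of `(f, g)` does not vanish at `p`. -/
def IsSimplePositiveSolution (f g : MvPolynomial (Fin 2) ℝ) (p : Fin 2 → ℝ) : Prop :=
  (∀ i, 0 < p i) ∧ eval p f = 0 ∧ eval p g = 0 ∧
    eval p (pderiv 0 f) * eval p (pderiv 1 g) - eval p (pderiv 1 f) * eval p (pderiv 0 g) ≠ 0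

/-- `N m₁ m₂` is the supremum, over all pairs `f`, `g` of real polynomials in two variables with
exactly `m₁` and exactly `m₂` monomials, of the number of simple positive solutions. -/
noncomputable def N (m₁ m₂ : ℕ) : ℕ∞ :=
  ⨆ (f : MvPolynomial (Fin 2) ℝ) (g : MvPolynomial (Fin 2) ℝ) (_ : f.support.card = m₁)
    (_ : g.support.card = m₂), Set.encard {p : Fin 2 → ℝ | IsSimplePositiveSolution f g p}

noncomputable def e (a b : ℕ) : Fin 2 →₀ ℕ := Finsupp.single 0 a + Finsupp.single 1 b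

def Alt (R : ℝ → ℝ) (n : ℕ) : Prop :=
  ∃ (t : ℕ → ℝ) (σ : ℝ), (∀ i, i ≤ n → 0 < t i ∧ t i < 1 / 4) ∧ (∀ i, i < n → t (i + 1) < t i) ∧
    ∀ i, i ≤ n → 0 < σ * (-1) ^ i * R (t i)

def AltD (R : ℝ → ℝ) (n : ℕ) : Prop :=
  ∃ (t : ℕ → ℝ) (σ : ℝ), (∀ i, i ≤ n → 1 / 4 ≤ t i) ∧ (∀ i, i < n → t (i + 1) < t i) ∧
    ∀ i, i ≤ n → 0 < σ * (-1) ^ i * R (t i)

lemma support_card {ι : Type} [Fintype ι] [DecidableEq ι] (c : ι → ℝ) (a b : ι → ℕ)
    (hc : ∀ i, c i ≠ 0) (hab : Function.Injective fun i => (a i, b i)) :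
    (∑ i, monomial (e (a i) (b i)) (c i) : MvPolynomial (Fin 2) ℝ).support.card =
      Fintype.card ι := by
  have hE : Function.Injective fun i => e (a i) (b i) := by
    intro i j hij
    apply hab
    have h0 := DFunLike.congr_fun hij (0 : Fin 2)
    have h1 := DFunLike.congr_fun hij (1 : Fin 2)
    simp [e] at h0 h1
    show (a i, b i) = (a j, b j)
    rw [h0, h1]
  have hsupp : (∑ i, monomial (e (a i) (b i)) (c i) : MvPolynomial (Fin 2) ℝ).support =
      Finset.univ.image fun i => e (a i) (b i) := by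
    ext d
    rw [mem_support_iff, coeff_sum, Finset.mem_image]
    simp only [coeff_monomial, Finset.mem_univ, true_and]
    constructor
    · intro h
      by_contra hcon
      push Not at hcon
      apply h
      exact Finset.sum_eq_zero fun i _ => if_neg (hcon i)
    · rintro ⟨j, rfl⟩
      rw [Finset.sum_eq_single j]
      · rw [if_pos rfl]
        exact hc j
      · intro i _ hij
        exact if_neg fun h => hij (hE h)
      · intro h
        exact absurd (Finset.mem_univ j) h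
  rw [hsupp, Finset.card_image_of_injective _ hE, Finset.card_univ]

lemma mono_eq_aux (a b : ℕ) (c : ℝ) :
    (monomial (e a b) c : MvPolynomial (Fin 2) ℝ) = C c * X 0 ^ a * X 1 ^ b := by
  unfold e
  rw [monomial_add_single, C_mul_X_pow_eq_monomial]

lemma pow_aux (x : ℝ) (a : ℕ) : x * ((a : ℝ) * x ^ (a - 1)) = a * x ^ a := by
  cases a with
  | zero => simp
  | succ a => simp only [Nat.add_sub_cancel]; ring

lemma eval_mono (p : Fin 2 → ℝ) (a b : ℕ) (c : ℝ) :
    eval p (monomial (e a b) c : MvPolynomial (Fin 2) ℝ) = c * p 0 ^ a * p 1 ^ b := by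
  rw [mono_eq_aux]; simp

lemma eval_pderiv_zero (p : Fin 2 → ℝ) (a b : ℕ) (c : ℝ) :
    p 0 * eval p (pderiv 0 (monomial (e a b) c : MvPolynomial (Fin 2) ℝ)) =
      c * a * p 0 ^ a * p 1 ^ b := by
  rw [mono_eq_aux]
  have h : pderiv (0 : Fin 2) (C c * X 0 ^ a * X 1 ^ b : MvPolynomial (Fin 2) ℝ)
      = C c * ((a : MvPolynomial (Fin 2) ℝ) * X 0 ^ (a - 1)) * X 1 ^ b := by
    rw [pderiv_mul, pderiv_mul, pderiv_C, pderiv_pow, pderiv_pow, pderiv_X_self,
      pderiv_X_of_ne (by decide : (1 : Fin 2) ≠ 0)]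
    ring
  rw [h]
  simp only [map_mul, eval_C, map_natCast, map_pow, eval_X]
  have := pow_aux (p 0) a
  linear_combination c * p 1 ^ b * this

lemma eval_pderiv_one (p : Fin 2 → ℝ) (a b : ℕ) (c : ℝ) :
    p 1 * eval p (pderiv 1 (monomial (e a b) c : MvPolynomial (Fin 2) ℝ)) =
      c * b * p 0 ^ a * p 1 ^ b := by
  rw [mono_eq_aux]
  have h : pderiv (1 : Fin 2) (C c * X 0 ^ a * X 1 ^ b : MvPolynomial (Fin 2) ℝ)
      = C c * X 0 ^ a * ((b : MvPolynomial (Fin 2) ℝ) * X 1 ^ (b - 1)) := by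
    rw [pderiv_mul, pderiv_mul, pderiv_C, pderiv_pow, pderiv_pow, pderiv_X_self,
      pderiv_X_of_ne (by decide : (0 : Fin 2) ≠ 1)]
    ring
  rw [h]
  simp only [map_mul, eval_C, map_natCast, map_pow, eval_X]
  have := pow_aux (p 1) b
  linear_combination c * p 0 ^ a * this

lemma point_solution {ι : Type} [Fintype ι] (c : ι → ℝ) (A B : ι → ℝ) (K M : ℕ)
    (hK : 0 < K) (a b : ι → ℕ) (ha : ∀ i, (a i : ℝ) = K * A i + M)
    (hb : ∀ i, (b i : ℝ) = K * B i + M)
    (heval : ∀ (p : Fin 2 → ℝ) (a b : ℕ) (c : ℝ),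
      eval p (monomial (e a b) c : MvPolynomial (Fin 2) ℝ) = c * p 0 ^ a * p 1 ^ b)
    (hd0 : ∀ (p : Fin 2 → ℝ) (a b : ℕ) (c : ℝ),
      p 0 * eval p (pderiv 0 (monomial (e a b) c : MvPolynomial (Fin 2) ℝ)) =
        c * a * p 0 ^ a * p 1 ^ b)
    (hd1 : ∀ (p : Fin 2 → ℝ) (a b : ℕ) (c : ℝ),
      p 1 * eval p (pderiv 1 (monomial (e a b) c : MvPolynomial (Fin 2) ℝ)) =
        c * b * p 0 ^ a * p 1 ^ b)
    (X : ℝ) (hX0 : 0 < X) (hX1 : X < 1)
    (hS : ∑ i, c i * X ^ (A i) * (1 - X) ^ (B i) = 0)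
    (hS' : ∑ i, c i * X ^ (A i) * (1 - X) ^ (B i) * (A i / X - B i / (1 - X)) ≠ 0) :
    IsSimplePositiveSolution
      (monomial (e K 0) 1 + monomial (e 0 K) 1 + monomial 0 (-1))
      (∑ i, monomial (e (a i) (b i)) (c i))
      (![X ^ ((1 : ℝ) / K), (1 - X) ^ ((1 : ℝ) / K)]) := by
  have hK' : (0:ℝ) < (K:ℝ) := by exact_mod_cast hK
  have hKne : (K:ℝ) ≠ 0 := hK'.ne'
  have h1X : 0 < 1 - X := by linarith
  set x : ℝ := X ^ ((1 : ℝ) / K) with hx
  set y : ℝ := (1 - X) ^ ((1 : ℝ) / K) with hy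
  have hx0 : 0 < x := Real.rpow_pos_of_pos hX0 _
  have hy0 : 0 < y := Real.rpow_pos_of_pos h1X _
  have hxn : ∀ n : ℕ, x ^ n = X ^ ((n:ℝ) / K) := by
    intro n
    rw [hx, ← Real.rpow_natCast, ← Real.rpow_mul hX0.le]
    congr 1
    ring
  have hyn : ∀ n : ℕ, y ^ n = (1 - X) ^ ((n:ℝ) / K) := by
    intro n
    rw [hy, ← Real.rpow_natCast, ← Real.rpow_mul h1X.le]
    congr 1
    ring
  have hxK : x ^ K = X := by
    rw [hxn, div_self hKne, Real.rpow_one]
  have hyK : y ^ K = 1 - X := by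
    rw [hyn, div_self hKne, Real.rpow_one]
  set L : ℝ := X ^ ((M:ℝ) / K) * (1 - X) ^ ((M:ℝ) / K) with hL
  have hL0 : 0 < L := mul_pos (Real.rpow_pos_of_pos hX0 _) (Real.rpow_pos_of_pos h1X _)
  have hT : ∀ i, x ^ (a i) * y ^ (b i) = L * (X ^ (A i) * (1 - X) ^ (B i)) := by
    intro i
    have e1 : ((a i : ℝ)) / K = A i + (M:ℝ) / K := by
      rw [ha]; field_simp
    have e2 : ((b i : ℝ)) / K = B i + (M:ℝ) / K := by
      rw [hb]; field_simp
    rw [hxn, hyn, e1, e2, Real.rpow_add hX0, Real.rpow_add h1X, hL]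
    ring
  set p : Fin 2 → ℝ := ![x, y] with hp
  have p0 : p 0 = x := rfl
  have p1 : p 1 = y := rfl
  have ef : eval p (monomial (e K 0) 1 + monomial (e 0 K) 1 + monomial 0 (-1) : MvPolynomial (Fin 2) ℝ) = 0 := by
    rw [map_add, map_add, heval, heval, p0, p1, hxK, hyK, eval_monomial]
    simp
  have eg : eval p (∑ i, monomial (e (a i) (b i)) (c i) : MvPolynomial (Fin 2) ℝ) = 0 := by
    rw [map_sum]
    have : ∀ i, eval p (monomial (e (a i) (b i)) (c i) : MvPolynomial (Fin 2) ℝ)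
        = L * (c i * X ^ (A i) * (1 - X) ^ (B i)) := by
      intro i
      rw [heval, p0, p1, mul_assoc, hT i]
      ring
    rw [Finset.sum_congr rfl (fun i _ => this i), ← Finset.mul_sum, hS, mul_zero]
  have hm0 : pderiv (0 : Fin 2) (monomial 0 (-1) : MvPolynomial (Fin 2) ℝ) = 0 := by
    rw [pderiv_monomial]; simp
  have hm1 : pderiv (1 : Fin 2) (monomial 0 (-1) : MvPolynomial (Fin 2) ℝ) = 0 := by
    rw [pderiv_monomial]; simp
  have fx : x * eval p (pderiv 0 (monomial (e K 0) 1 + monomial (e 0 K) 1 + monomial 0 (-1) : MvPolynomial (Fin 2) ℝ)) = K * X := by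
    rw [map_add, map_add, hm0, map_add, map_add, map_zero, add_zero, mul_add]
    have h1 := hd0 p K 0 1
    have h2 := hd0 p 0 K 1
    rw [p0, p1] at h1 h2
    rw [h1, h2, hxK]
    simp
  have fy : y * eval p (pderiv 1 (monomial (e K 0) 1 + monomial (e 0 K) 1 + monomial 0 (-1) : MvPolynomial (Fin 2) ℝ)) = K * (1 - X) := by
    rw [map_add, map_add, hm1, map_add, map_add, map_zero, add_zero, mul_add]
    have h1 := hd1 p K 0 1
    have h2 := hd1 p 0 K 1
    rw [p0, p1] at h1 h2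
    rw [h1, h2, hyK]
    simp
  have gx : x * eval p (pderiv 0 (∑ i, monomial (e (a i) (b i)) (c i) : MvPolynomial (Fin 2) ℝ)) =
      ∑ i, (K * A i + M) * (L * (c i * X ^ (A i) * (1 - X) ^ (B i))) := by
    rw [map_sum, map_sum, Finset.mul_sum]
    refine Finset.sum_congr rfl (fun i _ => ?_)
    have h1 := hd0 p (a i) (b i) (c i)
    rw [p0, p1] at h1
    rw [h1, mul_assoc, hT i, ← ha i]
    ring
  have gy : y * eval p (pderiv 1 (∑ i, monomial (e (a i) (b i)) (c i) : MvPolynomial (Fin 2) ℝ)) =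
      ∑ i, (K * B i + M) * (L * (c i * X ^ (A i) * (1 - X) ^ (B i))) := by
    rw [map_sum, map_sum, Finset.mul_sum]
    refine Finset.sum_congr rfl (fun i _ => ?_)
    have h1 := hd1 p (a i) (b i) (c i)
    rw [p0, p1] at h1
    rw [h1, mul_assoc, hT i, ← hb i]
    ring
  refine ⟨?_, ef, eg, ?_⟩
  · intro i
    fin_cases i
    · exact hx0
    · exact hy0
  · intro h0
    apply hS'
    have key : (x * eval p (pderiv 0 (monomial (e K 0) 1 + monomial (e 0 K) 1 + monomial 0 (-1) : MvPolynomial (Fin 2) ℝ))) *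
        (y * eval p (pderiv 1 (∑ i, monomial (e (a i) (b i)) (c i) : MvPolynomial (Fin 2) ℝ))) -
        (y * eval p (pderiv 1 (monomial (e K 0) 1 + monomial (e 0 K) 1 + monomial 0 (-1) : MvPolynomial (Fin 2) ℝ))) *
        (x * eval p (pderiv 0 (∑ i, monomial (e (a i) (b i)) (c i) : MvPolynomial (Fin 2) ℝ))) = 0 := by
      have := congrArg (fun t => x * y * t) h0
      simp only [mul_zero] at this
      rw [← this]
      ring
    rw [fx, fy, gx, gy] at key
    have e3 : (K:ℝ) * X * (∑ i, (K * B i + M) * (L * (c i * X ^ (A i) * (1 - X) ^ (B i)))) -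
        K * (1 - X) * (∑ i, (K * A i + M) * (L * (c i * X ^ (A i) * (1 - X) ^ (B i)))) =
        (K:ℝ) * L * M * (2 * X - 1) * (∑ i, c i * X ^ (A i) * (1 - X) ^ (B i)) -
        (K:ℝ) ^ 2 * L * (X * (1 - X)) *
          (∑ i, c i * X ^ (A i) * (1 - X) ^ (B i) * (A i / X - B i / (1 - X))) := by
      rw [Finset.mul_sum, Finset.mul_sum, Finset.mul_sum, Finset.mul_sum, ← Finset.sum_sub_distrib,
        ← Finset.sum_sub_distrib]
      refine Finset.sum_congr rfl (fun i _ => ?_)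
      have hXne : X ≠ 0 := hX0.ne'
      have h1Xne : 1 - X ≠ 0 := h1X.ne'
      field_simp
      ring
    rw [e3, hS, mul_zero, zero_sub, neg_eq_zero] at key
    have hne : (K:ℝ) ^ 2 * L * (X * (1 - X)) ≠ 0 := by positivity
    exact (mul_eq_zero.1 key).resolve_left hne

lemma clear_one {ι : Type} [Fintype ι] (A : ι → ℚ) (L : ℕ) :
    ∀ i, ∃ z : ℤ, (z : ℝ) = ((((∏ j, (A j).den) * L : ℕ)) : ℝ) * (A i : ℝ) := by
  intro i
  obtain ⟨m, hm⟩ : (A i).den ∣ ∏ j, (A j).den := Finset.dvd_prod_of_mem _ (Finset.mem_univ i)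
  refine ⟨(m : ℤ) * L * (A i).num, ?_⟩
  have h1 : ((A i : ℚ) : ℝ) = ((A i).num : ℝ) / ((A i).den : ℝ) := by
    exact_mod_cast (congrArg (fun q : ℚ => (q : ℝ)) (Rat.num_div_den (A i))).symm
  have h2 : ((A i).den : ℝ) ≠ 0 := by exact_mod_cast (A i).den_ne_zero
  rw [hm, h1]
  push_cast
  field_simp

lemma clear_denominators {ι : Type} [Fintype ι] (A B : ι → ℚ) :
    ∃ (K M : ℕ) (a b : ι → ℕ), 0 < K ∧ (∀ i, (a i : ℝ) = K * (A i : ℝ) + M) ∧
      (∀ i, (b i : ℝ) = K * (B i : ℝ) + M) := by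
  obtain ⟨K, hK⟩ : ∃ K : ℕ, K = (∏ j, (A j).den) * (∏ j, (B j).den) := ⟨_, rfl⟩
  have hK0 : 0 < K := by
    rw [hK]
    exact Nat.mul_pos (Finset.prod_pos fun j _ => (A j).den_pos) (Finset.prod_pos fun j _ => (B j).den_pos)
  have hA : ∀ i, ∃ z : ℤ, (z : ℝ) = (K : ℝ) * (A i : ℝ) := by
    rw [hK]; exact clear_one A _
  have hB : ∀ i, ∃ z : ℤ, (z : ℝ) = (K : ℝ) * (B i : ℝ) := by
    rw [hK, mul_comm]; exact clear_one B _
  choose z hz using hA
  choose w hw using hB
  obtain ⟨M, hM⟩ : ∃ M : ℕ, M = ∑ i, (z i).natAbs + ∑ i, (w i).natAbs := ⟨_, rfl⟩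
  have hzM : ∀ i, 0 ≤ z i + M := by
    intro i
    have h1 : (z i).natAbs ≤ ∑ i, (z i).natAbs := 
      Finset.single_le_sum (f := fun i => (z i).natAbs) (fun _ _ => Nat.zero_le _) (Finset.mem_univ i)
    omega
  have hwM : ∀ i, 0 ≤ w i + M := by
    intro i
    have h1 : (w i).natAbs ≤ ∑ i, (w i).natAbs := 
      Finset.single_le_sum (f := fun i => (w i).natAbs) (fun _ _ => Nat.zero_le _) (Finset.mem_univ i)
    omega
  refine ⟨K, M, fun i => (z i + M).toNat, fun i => (w i + M).toNat, hK0, fun i => ?_, fun i => ?_⟩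
  · have h2 : (((z i + M).toNat : ℤ) : ℝ) = ((z i + M : ℤ) : ℝ) := by rw [Int.toNat_of_nonneg (hzM i)]
    rw [← hz i]
    push_cast at h2
    exact_mod_cast h2
  · have h2 : (((w i + M).toNat : ℤ) : ℝ) = ((w i + M : ℤ) : ℝ) := by rw [Int.toNat_of_nonneg (hwM i)]
    rw [← hw i]
    push_cast at h2
    exact_mod_cast h2

noncomputable def psB : ℕ → ℕ → ℝ
  | 0, 0 => 2
  | 0, _ + 1 => 0
  | 1, 0 => 1
  | 1, _ + 1 => 0
  | n + 2, 0 => psB (n + 1) 0
  | n + 2, j + 1 => psB (n + 1) (j + 1) + psB n j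

lemma psB_nonneg : ∀ n j : ℕ, 0 ≤ psB n j
  | 0, 0 => by simp [psB]
  | 0, _ + 1 => by simp [psB]
  | 1, 0 => by simp [psB]
  | 1, _ + 1 => by simp [psB]
  | n + 2, 0 => by rw [psB]; exact psB_nonneg (n + 1) 0
  | n + 2, j + 1 => by
    rw [psB]; exact add_nonneg (psB_nonneg (n + 1) (j + 1)) (psB_nonneg n j)

lemma psB_pos : ∀ n j : ℕ, 2 * j ≤ n → 0 < psB n j
  | 0, 0, _ => by simp [psB]
  | 0, _ + 1, h => by omega
  | 1, 0, _ => by simp [psB]
  | 1, _ + 1, h => by omega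
  | n + 2, 0, _ => by rw [psB]; exact psB_pos (n + 1) 0 (by omega)
  | n + 2, j + 1, h => by
    rw [psB]
    exact add_pos_of_nonneg_of_pos (psB_nonneg (n + 1) (j + 1)) (psB_pos n j (by omega))

lemma psB_id (X : ℝ) : ∀ n M : ℕ, n ≤ 2 * M + 1 → X ^ n + (1 - X) ^ n =
    ∑ j ∈ Finset.range (M + 1), ((-1) ^ j * psB n j) * (X * (1 - X)) ^ j
  | 0, M, _ => by
    rw [Finset.sum_range_succ']
    simp [psB]
    norm_num
  | 1, M, _ => by
    rw [Finset.sum_range_succ']
    simp [psB]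
  | n + 2, 0, h => by omega
  | n + 2, M + 1, h => by
    have h1 := psB_id X (n + 1) (M + 1) (by omega)
    have h2 := psB_id X n M (by omega)
    rw [Finset.sum_range_succ'] at h1 ⊢
    have e : ∑ j ∈ Finset.range (M + 1),
        ((-1) ^ (j + 1) * psB (n + 2) (j + 1)) * (X * (1 - X)) ^ (j + 1) =
        ∑ j ∈ Finset.range (M + 1),
          ((-1) ^ (j + 1) * psB (n + 1) (j + 1)) * (X * (1 - X)) ^ (j + 1) -
        X * (1 - X) * ∑ j ∈ Finset.range (M + 1), ((-1) ^ j * psB n j) * (X * (1 - X)) ^ j := by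
      rw [Finset.mul_sum, ← Finset.sum_sub_distrib]
      refine Finset.sum_congr rfl fun j _ => ?_
      rw [psB]
      ring
    rw [e, ← h2]
    have e2 : psB (n + 2) 0 = psB (n + 1) 0 := by rw [psB]
    rw [e2]
    have h3 : X ^ (n + 2) + (1 - X) ^ (n + 2) =
        (X ^ (n + 1) + (1 - X) ^ (n + 1)) - X * (1 - X) * (X ^ n + (1 - X) ^ n) := by ring
    rw [h3, h1]
    ring

lemma power_sum (k : ℕ) : ∃ a : ℕ → ℝ, (∀ j ≤ k, a j ≠ 0) ∧
    ∀ X : ℝ, X ^ (2 * k) + (1 - X) ^ (2 * k) =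
      ∑ j ∈ Finset.range (k + 1), a j * (X * (1 - X)) ^ j := by
  refine ⟨fun j => (-1) ^ j * psB (2 * k) j, fun j hj => ?_, fun X => ?_⟩
  · exact mul_ne_zero (pow_ne_zero _ (by norm_num)) (psB_pos (2 * k) j (by omega)).ne'
  · exact psB_id X (2 * k) k (by omega)

lemma alt_step_small (j : ℕ) (a : ℝ) (ha : a ≠ 0) (τ : ℝ) (hτ : τ = 1 ∨ τ = -1) (r : ℝ)
    (hr : 0 < r) (δ : ℝ) (hδ : 0 < δ) :
    ∃ η : ℝ, 0 < η ∧ ∀ x : ℝ, 0 < x → x < η → ∀ s : ℝ, r ≤ s → s ≤ 1 →
      |a * s ^ j * (1 - (s / x ^ 4) ^ (τ * x))| < δ := by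
  have hcont : Continuous (fun x : ℝ => x * |Real.log r| + 4 * |x * Real.log x|) := by
    have h1 : Continuous (fun x : ℝ => x * Real.log x) := Real.continuous_mul_log
    exact (continuous_id.mul continuous_const).add (continuous_const.mul h1.abs)
  have hapos : 0 < |a| := abs_pos.2 ha
  have hpos : 0 < min 1 (δ / (2 * |a|)) := lt_min one_pos (by positivity)
  obtain ⟨η, hη, hη2⟩ := Metric.continuousAt_iff.1 (hcont.continuousAt (x := 0)) _ hpos
  refine ⟨η, hη, ?_⟩
  intro x hx0 hxη s hrs hs1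
  have hd : dist x 0 < η := by
    rw [Real.dist_eq, sub_zero, abs_of_pos hx0]
    exact hxη
  have hE := hη2 hd
  rw [Real.dist_eq] at hE
  simp only [zero_mul, abs_zero, mul_zero, add_zero, sub_zero] at hE
  have hE2 : x * |Real.log r| + 4 * |x * Real.log x| < min 1 (δ / (2 * |a|)) :=
    lt_of_le_of_lt (le_abs_self _) hE
  have hs0 : 0 < s := lt_of_lt_of_le hr hrs
  have hx4 : (0 : ℝ) < x ^ 4 := by positivity
  obtain ⟨T, hT⟩ : ∃ T : ℝ, T = Real.log (s / x ^ 4) * (τ * x) := ⟨_, rfl⟩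
  have hexp : (s / x ^ 4) ^ (τ * x) = Real.exp T := by
    rw [Real.rpow_def_of_pos (by positivity), hT]
  have hlogs : |Real.log s| ≤ |Real.log r| := by
    have h1 : Real.log r ≤ Real.log s := Real.log_le_log hr hrs
    have h2 : Real.log s ≤ 0 := Real.log_nonpos hs0.le hs1
    rw [abs_of_nonpos h2, abs_of_nonpos (h1.trans h2)]
    linarith
  have hτ1 : |τ| = 1 := by
    rcases hτ with h | h
    · rw [h, abs_one]
    · rw [h, abs_neg, abs_one]
  have hTle : |T| ≤ x * |Real.log r| + 4 * |x * Real.log x| := by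
    have e : T = τ * (x * Real.log s) - τ * (4 * (x * Real.log x)) := by
      rw [hT, Real.log_div hs0.ne' hx4.ne', Real.log_pow]
      push_cast
      ring
    rw [e]
    refine (abs_sub _ _).trans ?_
    rw [abs_mul, abs_mul τ, hτ1, one_mul, one_mul, abs_mul, abs_of_pos hx0, abs_mul 4,
      abs_of_pos (by norm_num : (0 : ℝ) < 4)]
    have := mul_le_mul_of_nonneg_left hlogs hx0.le
    linarith
  have hT1 : |T| ≤ 1 := (hTle.trans hE2.le).trans (min_le_left _ _)
  have hT2 : |T| < δ / (2 * |a|) := lt_of_lt_of_le (lt_of_le_of_lt hTle hE2) (min_le_right _ _)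
  have h1 : |1 - Real.exp T| ≤ 2 * |T| := by
    rw [abs_sub_comm]
    exact Real.abs_exp_sub_one_le hT1
  have h2 : |a * s ^ j| ≤ |a| := by
    rw [abs_mul, abs_of_pos (pow_pos hs0 j)]
    have h3 : s ^ j ≤ 1 := pow_le_one₀ hs0.le hs1
    have h4 := mul_le_mul_of_nonneg_left h3 hapos.le
    linarith
  rw [hexp, abs_mul]
  have h5 : |a * s ^ j| * |1 - Real.exp T| ≤ |a| * (2 * |T|) :=
    mul_le_mul h2 h1 (abs_nonneg _) hapos.le
  have h6 : |a| * (2 * |T|) < δ := by
    rw [lt_div_iff₀ (by positivity)] at hT2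
    linarith
  exact lt_of_le_of_lt h5 h6

lemma alt_step_double (j : ℕ) (a : ℝ) (ha : a ≠ 0) (τ : ℝ) (hτ : τ = 1 ∨ τ = -1) (C : ℝ) :
    ∃ η : ℝ, 0 < η ∧ ∀ x : ℝ, 0 < x → x < η → ∀ r : ℝ,
      |r| ≤ C * (2 * x ^ 4) ^ ((j : ℝ) + 1 / 2) →
      0 < -(a * τ) * (r + a * (2 * x ^ 4) ^ j * (1 - (2 * x ^ 4 / x ^ 4) ^ (τ * x))) := by
  have ha' : 0 < |a| := abs_pos.mpr ha
  have hC1 : 0 < |C| + 1 := by positivity
  refine ⟨min 1 (|a| / (8 * (|C| + 1))), lt_min one_pos (by positivity), ?_⟩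
  intro x hx hxη r hr
  have hx1 : x < 1 := lt_of_lt_of_le hxη (min_le_left _ _)
  have hx2 : x < |a| / (8 * (|C| + 1)) := lt_of_lt_of_le hxη (min_le_right _ _)
  have hx3 : x * (8 * (|C| + 1)) < |a| := (lt_div_iff₀ (by positivity)).mp hx2
  have hu : 0 < 2 * x ^ 4 := by positivity
  have hpow : 0 < (2 * x ^ 4) ^ j := pow_pos hu j
  have h2 : 2 * x ^ 4 / x ^ 4 = 2 := by
    field_simp
  rw [h2]

  have hsq : (2 * x ^ 4) ^ ((1 : ℝ) / 2) = Real.sqrt 2 * x ^ 2 := by
    rw [← Real.sqrt_eq_rpow, Real.sqrt_mul (by norm_num)]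
    congr 1
    rw [show x ^ 4 = (x ^ 2) ^ 2 by ring, Real.sqrt_sq (by positivity)]
  have hrp : (2 * x ^ 4) ^ ((j : ℝ) + 1 / 2) = (2 * x ^ 4) ^ j * (Real.sqrt 2 * x ^ 2) := by
    rw [Real.rpow_add hu, Real.rpow_natCast, hsq]
  rw [hrp] at hr
  have hs2 : Real.sqrt 2 ≤ 3 / 2 := by
    rw [Real.sqrt_le_left (by norm_num)]; norm_num
  have hs0 : 0 ≤ Real.sqrt 2 := Real.sqrt_nonneg _
  have hr2 : |r| ≤ (2 * x ^ 4) ^ j * (|C| * (3 / 2 * x ^ 2)) := by
    refine hr.trans ?_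
    calc C * ((2 * x ^ 4) ^ j * (Real.sqrt 2 * x ^ 2))
        ≤ |C| * ((2 * x ^ 4) ^ j * (Real.sqrt 2 * x ^ 2)) := by
          apply mul_le_mul_of_nonneg_right (le_abs_self C) (by positivity)
      _ ≤ |C| * ((2 * x ^ 4) ^ j * (3 / 2 * x ^ 2)) := by gcongr
      _ = _ := by ring

  have hlog : 0.6931471803 < Real.log 2 := Real.log_two_gt_d9
  have hlog' : Real.log 2 < 0.6931471808 := Real.log_two_lt_d9
  have hkey : x / 4 ≤ -τ * (1 - (2 : ℝ) ^ (τ * x)) := by
    rcases hτ with rfl | rfl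
    · rw [Real.rpow_def_of_pos (by norm_num)]
      have := Real.add_one_le_exp (Real.log 2 * (1 * x))
      nlinarith
    · rw [Real.rpow_def_of_pos (by norm_num)]
      have h3 : Real.exp (Real.log 2 * (-1 * x)) = (Real.exp (Real.log 2 * x))⁻¹ := by
        rw [← Real.exp_neg]; congr 1; ring
      rw [h3]
      have h4 := Real.add_one_le_exp (Real.log 2 * x)
      have h5 : 0 < Real.log 2 * x + 1 := by positivity
      have h6 : (Real.exp (Real.log 2 * x))⁻¹ ≤ (Real.log 2 * x + 1)⁻¹ := inv_anti₀ h5 h4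
      have h7 : (Real.log 2 * x + 1)⁻¹ ≤ 1 - x / 4 := by
        rw [inv_le_iff_one_le_mul₀ h5]
        nlinarith
      linarith
  have hab : a * r ≤ |a| * |r| := by
    rw [← abs_mul]; exact le_abs_self _
  have hab' : -(|a| * |r|) ≤ a * r := by
    rw [← abs_mul]; exact neg_abs_le _
  have hfirst : -(|a| * |r|) ≤ -(a * τ) * r := by
    rcases hτ with rfl | rfl
    · linarith
    · linarith
  have hsec : |a| * |a| * (2 * x ^ 4) ^ j * (x / 4) ≤
      -(a * τ) * (a * (2 * x ^ 4) ^ j * (1 - (2 : ℝ) ^ (τ * x))) := by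
    have e : -(a * τ) * (a * (2 * x ^ 4) ^ j * (1 - (2 : ℝ) ^ (τ * x))) =
        |a| * |a| * (2 * x ^ 4) ^ j * (-τ * (1 - (2 : ℝ) ^ (τ * x))) := by
      rw [abs_mul_abs_self]; ring
    rw [e]
    exact mul_le_mul_of_nonneg_left hkey (by positivity)
  have hfin : |a| * ((2 * x ^ 4) ^ j * (|C| * (3 / 2 * x ^ 2))) < |a| * |a| * (2 * x ^ 4) ^ j * (x / 4) := by
    have h8 : |C| * (3 / 2 * x) < |a| * (1 / 4) := by
      have : 0 ≤ |C| := abs_nonneg C
      nlinarith
    calc |a| * ((2 * x ^ 4) ^ j * (|C| * (3 / 2 * x ^ 2)))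
        = |a| * (2 * x ^ 4) ^ j * x * (|C| * (3 / 2 * x)) := by ring
      _ < |a| * (2 * x ^ 4) ^ j * x * (|a| * (1 / 4)) := by
          apply mul_lt_mul_of_pos_left h8 (by positivity)
      _ = _ := by ring
  have hmul : |a| * |r| ≤ |a| * ((2 * x ^ 4) ^ j * (|C| * (3 / 2 * x ^ 2))) :=
    mul_le_mul_of_nonneg_left hr2 ha'.le
  rw [mul_add]
  linarith

lemma alt_step_half (j : ℕ) (a : ℝ) (ha : a ≠ 0) (τ : ℝ) (hτ : τ = 1 ∨ τ = -1) (C : ℝ) :
    ∃ η : ℝ, 0 < η ∧ ∀ x : ℝ, 0 < x → x < η → ∀ r : ℝ,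
      |r| ≤ C * (x ^ 4 / 2) ^ ((j : ℝ) + 1 / 2) →
      0 < (a * τ) * (r + a * (x ^ 4 / 2) ^ j * (1 - (x ^ 4 / 2 / x ^ 4) ^ (τ * x))) := by
  have hl : 0 < Real.log 2 := Real.log_pos (by norm_num)
  have hl1 : Real.log 2 ≤ 1 := by
    have := Real.log_le_sub_one_of_pos (show (0:ℝ) < 2 by norm_num)
    linarith
  have hapos : 0 < |a| := abs_pos.mpr ha
  have hC1 : 0 < |C| + 1 := by positivity
  refine ⟨min 1 (|a| * (Real.log 2 / 2) / (|C| + 1)), lt_min one_pos (by positivity), ?_⟩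
  intro x hx hxη r hr
  have hx1 : x < 1 := lt_of_lt_of_le hxη (min_le_left _ _)
  have hx2 : x < |a| * (Real.log 2 / 2) / (|C| + 1) := lt_of_lt_of_le hxη (min_le_right _ _)
  have hx3 : x * (|C| + 1) < |a| * (Real.log 2 / 2) := by
    rwa [lt_div_iff₀ hC1] at hx2
  have hx4 : 0 < x ^ 4 := by positivity
  have hhalf : x ^ 4 / 2 / x ^ 4 = 1 / 2 := by
    field_simp
  set s : ℝ := x ^ 4 / 2 with hs
  have hs0 : 0 < s := by positivity
  rw [hhalf]

  have hmain : x * (Real.log 2 / 2) ≤ τ * (1 - (1 / 2 : ℝ) ^ (τ * x)) := by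
    have he : (1 / 2 : ℝ) ^ (τ * x) = Real.exp (-(τ * (x * Real.log 2))) := by
      rw [Real.rpow_def_of_pos (by norm_num)]
      congr 1
      rw [one_div, Real.log_inv]
      ring
    rw [he]
    have hy0 : 0 < x * Real.log 2 := by positivity
    have hy1 : x * Real.log 2 ≤ 1 := by nlinarith
    rcases hτ with h | h
    · subst h
      have h1 : 1 + x * Real.log 2 ≤ Real.exp (x * Real.log 2) := by
        have := Real.add_one_le_exp (x * Real.log 2); linarith
      have h2 : Real.exp (-(1 * (x * Real.log 2))) ≤ 1 / (1 + x * Real.log 2) := by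
        rw [one_mul, Real.exp_neg, ← one_div]
        exact one_div_le_one_div_of_le (by linarith) h1
      have h3 : 1 / (1 + x * Real.log 2) ≤ 1 - x * (Real.log 2 / 2) := by
        rw [div_le_iff₀ (by linarith)]
        nlinarith
      linarith
    · subst h
      have h1 : 1 + x * Real.log 2 ≤ Real.exp (x * Real.log 2) := by
        have := Real.add_one_le_exp (x * Real.log 2); linarith
      have h2 : -(-1 * (x * Real.log 2)) = x * Real.log 2 := by ring
      rw [h2]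
      nlinarith

  have hrem : |r| ≤ |C| * (s ^ j * x ^ 2) := by
    have h1 : s ^ ((j : ℝ) + 1 / 2) = s ^ j * Real.sqrt s := by
      rw [Real.rpow_add hs0, Real.rpow_natCast, Real.sqrt_eq_rpow]
    have h2 : Real.sqrt s ≤ x ^ 2 := by
      rw [Real.sqrt_le_left (by positivity)]
      rw [hs]
      nlinarith [hx4]
    have h3 : s ^ ((j : ℝ) + 1 / 2) ≤ s ^ j * x ^ 2 := by
      rw [h1]
      exact mul_le_mul_of_nonneg_left h2 (by positivity)
    have h4 : 0 ≤ s ^ ((j : ℝ) + 1 / 2) := by positivity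
    calc |r| ≤ C * s ^ ((j : ℝ) + 1 / 2) := hr
      _ ≤ |C| * s ^ ((j : ℝ) + 1 / 2) := mul_le_mul_of_nonneg_right (le_abs_self C) h4
      _ ≤ |C| * (s ^ j * x ^ 2) := mul_le_mul_of_nonneg_left h3 (abs_nonneg C)
  have hτabs : |τ| = 1 := by
    rcases hτ with h | h <;> simp [h]
  have hsj : 0 < s ^ j := by positivity
  have hexp : (a * τ) * (r + a * s ^ j * (1 - (1 / 2 : ℝ) ^ (τ * x)))
      = (a * τ) * r + a ^ 2 * s ^ j * (τ * (1 - (1 / 2 : ℝ) ^ (τ * x))) := by ring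
  rw [hexp]
  have hA : -(|a| * |r|) ≤ (a * τ) * r := by
    have := neg_abs_le ((a * τ) * r)
    rw [abs_mul, abs_mul, hτabs, mul_one] at this
    exact this
  have hB : a ^ 2 * s ^ j * (x * (Real.log 2 / 2)) ≤
      a ^ 2 * s ^ j * (τ * (1 - (1 / 2 : ℝ) ^ (τ * x))) :=
    mul_le_mul_of_nonneg_left hmain (by positivity)
  have hD : |a| * |r| ≤ |a| * (|C| * (s ^ j * x ^ 2)) :=
    mul_le_mul_of_nonneg_left hrem (abs_nonneg a)
  have hE : |a| * (|C| * (s ^ j * x ^ 2)) < a ^ 2 * s ^ j * (x * (Real.log 2 / 2)) := by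
    have h1 : |C| * x < |a| * (Real.log 2 / 2) := by nlinarith [abs_nonneg C]
    have h2 : |a| * (|C| * (s ^ j * x ^ 2)) = (|a| * s ^ j * x) * (|C| * x) := by ring
    have h3 : a ^ 2 * s ^ j * (x * (Real.log 2 / 2)) =
        (|a| * s ^ j * x) * (|a| * (Real.log 2 / 2)) := by
      rw [← sq_abs a]; ring
    rw [h2, h3]
    exact mul_lt_mul_of_pos_left h1 (by positivity)
  linarith

lemma alt_step_assembly (j : ℕ) (a : ℝ) (ha : a ≠ 0) (R : ℝ → ℝ) (C : ℝ)
    (hR : ∀ s, 0 < s → s < 1 → |R s| ≤ C * s ^ ((j : ℝ) + 1 / 2)) (n : ℕ) (hn : Alt R n)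
    (hsmall : ∀ (τ : ℝ), (τ = 1 ∨ τ = -1) → ∀ (r : ℝ), 0 < r → ∀ (δ : ℝ), 0 < δ →
      ∃ η : ℝ, 0 < η ∧ ∀ x : ℝ, 0 < x → x < η → ∀ s : ℝ, r ≤ s → s ≤ 1 →
        |a * s ^ j * (1 - (s / x ^ 4) ^ (τ * x))| < δ)
    (hdouble : ∀ (τ : ℝ), (τ = 1 ∨ τ = -1) →
      ∃ η : ℝ, 0 < η ∧ ∀ x : ℝ, 0 < x → x < η → ∀ r : ℝ,
      |r| ≤ C * (2 * x ^ 4) ^ ((j : ℝ) + 1 / 2) →
      0 < -(a * τ) * (r + a * (2 * x ^ 4) ^ j * (1 - (2 * x ^ 4 / x ^ 4) ^ (τ * x))))
    (hhalf : ∀ (τ : ℝ), (τ = 1 ∨ τ = -1) →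
      ∃ η : ℝ, 0 < η ∧ ∀ x : ℝ, 0 < x → x < η → ∀ r : ℝ,
      |r| ≤ C * (x ^ 4 / 2) ^ ((j : ℝ) + 1 / 2) →
      0 < (a * τ) * (r + a * (x ^ 4 / 2) ^ j * (1 - (x ^ 4 / 2 / x ^ 4) ^ (τ * x)))) :
    ∃ (ε : ℚ) (c : ℝ), |ε| < 1 / 4 ∧ c ≠ 0 ∧
      Alt (fun s => R s + (a * s ^ j - c * s ^ ((j : ℝ) + (ε : ℝ)))) (n + 2) := by
  obtain ⟨t, σ, ht, hdec, hpos⟩ := hn
  have hσ : σ ≠ 0 := by
    rintro rfl
    have := hpos 0 (Nat.zero_le n)
    simp at this

  have hmono : ∀ i, i ≤ n → t n ≤ t i := by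
    intro i hi
    obtain ⟨d, rfl⟩ := Nat.exists_eq_add_of_le hi
    clear hi
    have : ∀ e, e ≤ d → t (i + e) ≤ t i := by
      intro e
      induction e with
      | zero => intro _; simp
      | succ e ih =>
        intro he
        have h1 := ih (by omega)
        have h2 := hdec (i + e) (by omega)
        have h3 : i + (e + 1) = i + e + 1 := by omega
        rw [h3]
        linarith
    exact this d le_rfl
  have htn := ht n le_rfl

  set B : ℝ := σ * (-1) ^ (n + 1) with hB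
  have hB0 : B ≠ 0 := mul_ne_zero hσ (pow_ne_zero _ (by norm_num))
  obtain ⟨τ, hτ, hτB⟩ : ∃ τ : ℝ, (τ = 1 ∨ τ = -1) ∧ 0 < -(a * τ) * B := by
    rcases lt_or_gt_of_ne (mul_ne_zero ha hB0) with h | h
    · exact ⟨1, Or.inl rfl, by nlinarith⟩
    · exact ⟨-1, Or.inr rfl, by nlinarith⟩

  obtain ⟨δ, hδ, hδR⟩ : ∃ δ : ℝ, 0 < δ ∧ ∀ i, i ≤ n → δ ≤ |R (t i)| := by
    have hne : (Finset.range (n + 1)).Nonempty := ⟨0, by simp⟩
    obtain ⟨i0, hi0, hmin⟩ := Finset.exists_min_image (Finset.range (n + 1)) (fun i => |R (t i)|) hne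
    refine ⟨|R (t i0)|, ?_, ?_⟩
    · have h1 := hpos i0 (by simpa [Nat.lt_succ_iff] using hi0)
      apply abs_pos.mpr
      rintro h2
      rw [h2, mul_zero] at h1
      exact lt_irrefl _ h1
    · intro i hi
      exact hmin i (by simp; omega)
  obtain ⟨η1, hη1, h1⟩ := hsmall τ hτ (t n) htn.1 δ hδ
  obtain ⟨η2, hη2, h2⟩ := hdouble τ hτ
  obtain ⟨η3, hη3, h3⟩ := hhalf τ hτ
  obtain ⟨x, hx0, hx1⟩ : ∃ x : ℚ, (0 : ℝ) < (x : ℝ) ∧
      (x : ℝ) < min (min η1 η2) (min η3 (min (1 / 4) (t n / 2))) := by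
    have := exists_rat_btwn (show (0 : ℝ) < min (min η1 η2) (min η3 (min (1 / 4) (t n / 2))) by
      refine lt_min (lt_min hη1 hη2) (lt_min hη3 (lt_min (by norm_num) (by linarith [htn.1])))
      )
    exact this
  have hxη1 : (x : ℝ) < η1 := lt_of_lt_of_le hx1 ((min_le_left _ _).trans (min_le_left _ _))
  have hxη2 : (x : ℝ) < η2 := lt_of_lt_of_le hx1 ((min_le_left _ _).trans (min_le_right _ _))
  have hxη3 : (x : ℝ) < η3 := lt_of_lt_of_le hx1 ((min_le_right _ _).trans (min_le_left _ _))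
  have hx4 : (x : ℝ) < 1 / 4 := lt_of_lt_of_le hx1
    ((min_le_right _ _).trans ((min_le_right _ _).trans (min_le_left _ _)))
  have hxt : (x : ℝ) < t n / 2 := lt_of_lt_of_le hx1
    ((min_le_right _ _).trans ((min_le_right _ _).trans (min_le_right _ _)))
  obtain ⟨ε, hε⟩ : ∃ ε : ℚ, (ε : ℝ) = τ * (x : ℝ) := by
    rcases hτ with rfl | rfl
    · exact ⟨x, by simp⟩
    · exact ⟨-x, by simp⟩
  have hεabs : |(ε : ℝ)| < 1 / 4 := by
    rw [hε]
    rcases hτ with rfl | rfl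
    · rw [one_mul, abs_of_pos hx0]; exact hx4
    · rw [neg_one_mul, abs_neg, abs_of_pos hx0]; exact hx4
  have hx4pos : (0 : ℝ) < (x : ℝ) ^ 4 := by positivity
  have hx4le : (x : ℝ) ^ 4 ≤ (x : ℝ) := by
    have h5 : (x : ℝ) ^ 3 ≤ 1 := pow_le_one₀ hx0.le (by linarith)
    calc (x : ℝ) ^ 4 = (x : ℝ) ^ 3 * (x : ℝ) := by ring
      _ ≤ 1 * (x : ℝ) := by exact mul_le_mul_of_nonneg_right h5 hx0.le
      _ = (x : ℝ) := one_mul _
  have hrep : ∀ s : ℝ, 0 < s → R s + (a * s ^ j - a * ((x : ℝ) ^ 4) ^ (-(ε : ℝ)) *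
      s ^ ((j : ℝ) + (ε : ℝ))) = R s + a * s ^ j * (1 - (s / (x : ℝ) ^ 4) ^ (τ * (x : ℝ))) := by
    intro s hs
    rw [← hε, Real.rpow_add hs, Real.rpow_natCast, Real.div_rpow hs.le hx4pos.le,
      Real.rpow_neg hx4pos.le]
    have : ((x : ℝ) ^ 4) ^ (ε : ℝ) ≠ 0 := (Real.rpow_pos_of_pos hx4pos _).ne'
    field_simp
  refine ⟨ε, a * ((x : ℝ) ^ 4) ^ (-(ε : ℝ)), ?_, ?_, ?_⟩
  · have : ((|ε| : ℚ) : ℝ) < ((1 / 4 : ℚ) : ℝ) := by
      push_cast
      exact hεabs
    exact_mod_cast this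
  · exact mul_ne_zero ha (Real.rpow_pos_of_pos hx4pos _).ne'
  · refine ⟨fun i => if i ≤ n then t i else if i = n + 1 then 2 * (x : ℝ) ^ 4 else (x : ℝ) ^ 4 / 2,
      σ, ?_, ?_, ?_⟩
    · intro i hi
      by_cases h4 : i ≤ n
      · simp only [h4, if_true]
        exact ht i h4
      · by_cases h5 : i = n + 1
        · simp only [h4, h5, if_true]
          rw [if_neg (by omega)]
          refine ⟨by positivity, ?_⟩
          have := htn.2
          linarith
        · simp only [h4, h5, if_false]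
          refine ⟨by positivity, ?_⟩
          linarith
    · intro i hi
      by_cases h4 : i + 1 ≤ n
      · have h5 : i ≤ n := by omega
        simp only [h4, h5, if_true]
        exact hdec i (by omega)
      · by_cases h5 : i = n
        · subst h5
          simp only [le_refl, if_true]
          rw [if_neg (by omega)]
          linarith
        · have h6 : i = n + 1 := by omega
          subst h6
          simp only []
          rw [if_neg (by omega), if_neg (by omega), if_neg (by omega), if_pos trivial]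
          linarith
    · intro i hi
      by_cases h4 : i ≤ n
      · simp only [h4, if_true]
        have hti := ht i h4
        rw [hrep (t i) hti.1]
        have h5 := hpos i h4
        have h6 := h1 x hx0 hxη1 (t i) (hmono i h4) (by linarith [hti.2])
        have h7 := hδR i h4
        set e := a * t i ^ j * (1 - (t i / (x : ℝ) ^ 4) ^ (τ * (x : ℝ)))
        set A := σ * (-1) ^ i
        have hA : A ≠ 0 := by
          intro h8
          rw [h8, zero_mul] at h5
          exact lt_irrefl _ h5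
        have h8 : A * R (t i) = |A| * |R (t i)| := by
          rw [← abs_mul, abs_of_pos h5]
        have h9 : -(|A| * |e|) ≤ A * e := by
          rw [← abs_mul]
          exact neg_abs_le _
        have h10 : |A| * |e| < |A| * |R (t i)| :=
          mul_lt_mul_of_pos_left (lt_of_lt_of_le h6 h7) (abs_pos.mpr hA)
        rw [mul_add]
        linarith
      · by_cases h5 : i = n + 1
        · subst h5
          simp only []
          rw [if_neg (by omega), if_pos trivial, hrep _ (by positivity)]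
          have h6 : 0 < -(a * τ) * (R (2 * (x : ℝ) ^ 4) + a * (2 * (x : ℝ) ^ 4) ^ j *
              (1 - (2 * (x : ℝ) ^ 4 / (x : ℝ) ^ 4) ^ (τ * (x : ℝ)))) :=
            h2 x hx0 hxη2 _ (hR _ (by positivity) (by linarith))
          rw [← hB]
          set Y := R (2 * (x : ℝ) ^ 4) + a * (2 * (x : ℝ) ^ 4) ^ j *
              (1 - (2 * (x : ℝ) ^ 4 / (x : ℝ) ^ 4) ^ (τ * (x : ℝ)))
          have h7 : 0 < (-(a * τ) * B) * (-(a * τ) * Y) := mul_pos hτB h6
          have h8 : (-(a * τ) * B) * (-(a * τ) * Y) = (a * τ) ^ 2 * (B * Y) := by ring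
          rw [h8] at h7
          exact (pos_iff_pos_of_mul_pos h7).mp (by
            by_contra h9
            have h10 : (a * τ) ^ 2 = 0 := le_antisymm (not_lt.mp h9) (sq_nonneg _)
            rw [h10, zero_mul] at h7
            exact lt_irrefl _ h7)
        · have h6 : i = n + 2 := by omega
          subst h6
          simp only []
          rw [if_neg (by omega), if_neg (by omega), hrep _ (by positivity)]
          have h6 : 0 < (a * τ) * (R ((x : ℝ) ^ 4 / 2) + a * ((x : ℝ) ^ 4 / 2) ^ j *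
              (1 - ((x : ℝ) ^ 4 / 2 / (x : ℝ) ^ 4) ^ (τ * (x : ℝ)))) :=
            h3 x hx0 hxη3 _ (hR _ (by positivity) (by linarith))
          set Y := R ((x : ℝ) ^ 4 / 2) + a * ((x : ℝ) ^ 4 / 2) ^ j *
              (1 - ((x : ℝ) ^ 4 / 2 / (x : ℝ) ^ 4) ^ (τ * (x : ℝ)))
          have h7 : 0 < (-(a * τ) * B) * ((a * τ) * Y) := mul_pos hτB h6
          have h8 : (-(a * τ) * B) * ((a * τ) * Y) = (a * τ) ^ 2 * (σ * (-1) ^ (n + 2) * Y) := by
            rw [hB]; ring
          rw [h8] at h7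
          exact (pos_iff_pos_of_mul_pos h7).mp (by
            by_contra h9
            have h10 : (a * τ) ^ 2 = 0 := le_antisymm (not_lt.mp h9) (sq_nonneg _)
            rw [h10, zero_mul] at h7
            exact lt_irrefl _ h7)

lemma alt_step (j : ℕ) (a : ℝ) (ha : a ≠ 0) (R : ℝ → ℝ) (C : ℝ)
    (hR : ∀ s, 0 < s → s < 1 → |R s| ≤ C * s ^ ((j : ℝ) + 1 / 2)) (n : ℕ) (hn : Alt R n) :
    ∃ (ε : ℚ) (c : ℝ), |ε| < 1 / 4 ∧ c ≠ 0 ∧
      Alt (fun s => R s + (a * s ^ j - c * s ^ ((j : ℝ) + (ε : ℝ)))) (n + 2) :=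
  alt_step_assembly j a ha R C hR n hn (fun τ hτ r hr δ hδ => alt_step_small j a ha τ hτ r hr δ hδ)
    (fun τ hτ => alt_step_double j a ha τ hτ C) (fun τ hτ => alt_step_half j a ha τ hτ C)

noncomputable def Rp (a : ℕ → ℝ) (ε : ℕ → ℚ) (c : ℕ → ℝ) (k m : ℕ) (s : ℝ) : ℝ :=
  a k * s ^ k + ∑ j ∈ Finset.Ico m k, (a j * s ^ j - c j * s ^ ((j : ℝ) + (ε j : ℝ)))

lemma Rp_bound (a : ℕ → ℝ) (ε : ℕ → ℚ) (c : ℕ → ℝ) (k m : ℕ) (hm : m + 1 ≤ k)
    (hε : ∀ j, m + 1 ≤ j → j < k → |ε j| < 1 / 4) :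
    ∃ C : ℝ, ∀ s : ℝ, 0 < s → s < 1 → |Rp a ε c k (m + 1) s| ≤ C * s ^ ((m : ℝ) + 1 / 2) := by
  refine ⟨|a k| + ∑ j ∈ Finset.Ico (m + 1) k, (|a j| + |c j|), fun s hs0 hs1 => ?_⟩
  have hpow : ∀ j : ℕ, m + 1 ≤ j → s ^ j ≤ s ^ ((m : ℝ) + 1 / 2) := by
    intro j hj
    rw [← Real.rpow_natCast]
    apply Real.rpow_le_rpow_of_exponent_ge hs0 hs1.le
    have : ((m + 1 : ℕ) : ℝ) ≤ (j : ℝ) := by exact_mod_cast hj
    push_cast at this
    linarith
  have hpow2 : ∀ j : ℕ, m + 1 ≤ j → j < k → s ^ ((j : ℝ) + (ε j : ℝ)) ≤ s ^ ((m : ℝ) + 1 / 2) := by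
    intro j hj hjk
    apply Real.rpow_le_rpow_of_exponent_ge hs0 hs1.le
    have h1 : ((m + 1 : ℕ) : ℝ) ≤ (j : ℝ) := by exact_mod_cast hj
    push_cast at h1
    have h2 := hε j hj hjk
    have h3 : |(ε j : ℝ)| < 1 / 4 := by
      have h5 : ((|ε j| : ℚ) : ℝ) < ((1 / 4 : ℚ) : ℝ) := Rat.cast_lt.mpr h2
      push_cast at h5
      exact h5
    have h4 := (abs_lt.mp h3).1
    linarith
  unfold Rp
  refine (abs_add_le _ _).trans ?_
  rw [add_mul, Finset.sum_mul]
  apply add_le_add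
  · rw [abs_mul, abs_of_pos (pow_pos hs0 k)]
    exact mul_le_mul_of_nonneg_left (hpow k hm) (abs_nonneg _)
  · refine (Finset.abs_sum_le_sum_abs _ _).trans (Finset.sum_le_sum fun j hj => ?_)
    rw [Finset.mem_Ico] at hj
    refine (abs_sub _ _).trans ?_
    rw [add_mul, abs_mul, abs_mul, abs_of_pos (pow_pos hs0 j), abs_of_pos (Real.rpow_pos_of_pos hs0 _)]
    exact add_le_add (mul_le_mul_of_nonneg_left (hpow j hj.1) (abs_nonneg _))
      (mul_le_mul_of_nonneg_left (hpow2 j hj.1 hj.2) (abs_nonneg _))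

lemma alt_all_of_step
    (step : ∀ (j : ℕ) (a : ℝ), a ≠ 0 → ∀ (R : ℝ → ℝ) (C : ℝ),
      (∀ s, 0 < s → s < 1 → |R s| ≤ C * s ^ ((j : ℝ) + 1 / 2)) → ∀ (n : ℕ), Alt R n →
      ∃ (ε : ℚ) (c : ℝ), |ε| < 1 / 4 ∧ c ≠ 0 ∧
        Alt (fun s => R s + (a * s ^ j - c * s ^ ((j : ℝ) + (ε : ℝ)))) (n + 2))
    (k : ℕ) (a : ℕ → ℝ) (ha : ∀ j ≤ k, a j ≠ 0) :
    ∃ (ε : ℕ → ℚ) (c : ℕ → ℝ), (∀ j < k, |ε j| < 1 / 4 ∧ c j ≠ 0) ∧
      Alt (fun s => ∑ j ∈ Finset.range (k + 1), a j * s ^ j -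
        ∑ j ∈ Finset.range k, c j * s ^ ((j : ℝ) + (ε j : ℝ))) (2 * k) := by
  have key : ∀ i, i ≤ k → ∃ (ε : ℕ → ℚ) (c : ℕ → ℝ),
      (∀ j, k - i ≤ j → j < k → |ε j| < 1 / 4 ∧ c j ≠ 0) ∧ Alt (Rp a ε c k (k - i)) (2 * i) := by
    intro i
    induction i with
    | zero =>
      intro _
      refine ⟨fun _ => 0, fun _ => 1, fun j h1 h2 => by omega, fun _ => 1 / 8, a k, ?_, ?_, ?_⟩
      · intro i _
        norm_num
      · intro i hi
        omega
      · intro i hi
        have hi0 : i = 0 := by omega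
        subst hi0
        unfold Rp
        simp only [Nat.sub_zero, Finset.Ico_self, Finset.sum_empty, add_zero, pow_zero, mul_one]
        have h1 : a k ≠ 0 := ha k le_rfl
        have h2 : 0 < a k * a k := mul_self_pos.mpr h1
        have h3 : (0 : ℝ) < (1 / 8) ^ k := by positivity
        have h4 := mul_pos h2 h3
        linarith
    | succ i ih =>
      intro hik
      obtain ⟨ε, c, hεc, halt⟩ := ih (by omega)
      obtain ⟨m, hm⟩ : ∃ m, m = k - (i + 1) := ⟨_, rfl⟩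
      have hmi : k - i = m + 1 := by omega
      have hmk : m + 1 ≤ k := by omega
      rw [hmi] at hεc halt
      rw [← hm]
      obtain ⟨C, hC⟩ := Rp_bound a ε c k m hmk (fun j h1 h2 => (hεc j h1 h2).1)
      obtain ⟨ε', c', hε', hc', halt'⟩ := step m (a m) (ha m (by omega)) (Rp a ε c k (m + 1)) C hC
        (2 * i) halt
      refine ⟨Function.update ε m ε', Function.update c m c', ?_, ?_⟩
      · intro j h1 h2
        rcases Nat.lt_or_ge m j with h | h
        · rw [Function.update_of_ne (by omega), Function.update_of_ne (by omega)]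
          exact hεc j h h2
        · have hj : j = m := by omega
          subst hj
          rw [Function.update_self, Function.update_self]
          exact ⟨hε', hc'⟩
      · have e : (fun s : ℝ => Rp a ε c k (m + 1) s + (a m * s ^ m - c' * s ^ ((m : ℝ) + (ε' : ℝ)))) =
            Rp a (Function.update ε m ε') (Function.update c m c') k m := by
          funext s
          unfold Rp
          rw [Finset.sum_eq_sum_Ico_succ_bot (show m < k by omega), Function.update_self,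
            Function.update_self]
          have e2 : ∑ j ∈ Finset.Ico (m + 1) k, (a j * s ^ j - Function.update c m c' j *
              s ^ ((j : ℝ) + ((Function.update ε m ε' j : ℚ) : ℝ))) =
              ∑ j ∈ Finset.Ico (m + 1) k, (a j * s ^ j - c j * s ^ ((j : ℝ) + (ε j : ℝ))) := by
            apply Finset.sum_congr rfl
            intro j hj
            rw [Finset.mem_Ico] at hj
            rw [Function.update_of_ne (by omega), Function.update_of_ne (by omega)]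
          rw [e2]
          ring
        rw [e] at halt'
        have e3 : 2 * (i + 1) = 2 * i + 2 := by ring
        rw [e3]
        exact halt'
  obtain ⟨ε, c, h1, h2⟩ := key k le_rfl
  refine ⟨ε, c, fun j hj => h1 j (by omega) hj, ?_⟩
  have e : (fun s : ℝ => ∑ j ∈ Finset.range (k + 1), a j * s ^ j -
        ∑ j ∈ Finset.range k, c j * s ^ ((j : ℝ) + (ε j : ℝ))) = Rp a ε c k (k - k) := by
    funext s
    unfold Rp
    rw [Nat.sub_self, ← Finset.range_eq_Ico, Finset.sum_range_succ, Finset.sum_sub_distrib]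
    ring
  rw [e]
  exact h2

lemma exists_regular_value (φ φ' : ℝ → ℝ) (hφ : ∀ s, 0 < s → HasDerivAt φ (φ' s) s) (c δ : ℝ)
    (hδ : 0 < δ) (hc : c ≠ 0) :
    ∃ c' : ℝ, c' ≠ 0 ∧ |c' - c| < δ ∧ ∀ s, 0 < s → φ s = c' → φ' s ≠ 0 := by
  set Z : Set ℝ := {s | 0 < s ∧ φ' s = 0} with hZ
  have h0 : MeasureTheory.volume (φ '' Z) = 0 := by
    apply MeasureTheory.addHaar_image_eq_zero_of_det_fderivWithin_eq_zero MeasureTheory.volume
      (f' := fun x => ContinuousLinearMap.toSpanSingleton ℝ (φ' x))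
    · intro x hx
      exact (hφ x hx.1).hasDerivWithinAt.hasFDerivWithinAt
    · intro x hx
      rw [ContinuousLinearMap.det_toSpanSingleton]
      exact hx.2
  have h1 : MeasureTheory.volume (φ '' Z ∪ {0}) = 0 := by
    rw [MeasureTheory.measure_union_null_iff]
    exact ⟨h0, by simp⟩
  have h2 : ¬ (Set.Ioo (c - δ) (c + δ) ⊆ φ '' Z ∪ {0}) := by
    intro hsub
    have h3 := MeasureTheory.measure_mono_null hsub h1
    rw [Real.volume_Ioo, ENNReal.ofReal_eq_zero] at h3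
    linarith
  rw [Set.not_subset] at h2
  obtain ⟨c', hc', hn⟩ := h2
  refine ⟨c', fun h => hn (Or.inr h), ?_, ?_⟩
  · rw [abs_lt]
    constructor <;> linarith [hc'.1, hc'.2]
  · intro s hs hsc hs0
    exact hn (Or.inl ⟨s, ⟨hs, hs0⟩, hsc⟩)

lemma nondegenerate_of
    (hreg : ∀ (φ φ' : ℝ → ℝ), (∀ s, 0 < s → HasDerivAt φ (φ' s) s) → ∀ (c δ : ℝ), 0 < δ → c ≠ 0 →
      ∃ c' : ℝ, c' ≠ 0 ∧ |c' - c| < δ ∧ ∀ s, 0 < s → φ s = c' → φ' s ≠ 0)
    (E E' : ℝ → ℝ) (hE : ∀ s, 0 < s → HasDerivAt E (E' s) s) (α c : ℝ) (hc : c ≠ 0)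
    (n : ℕ) (hn : Alt (fun s => E s - c * s ^ α) n) :
    ∃ (c' : ℝ) (Z : Finset ℝ), c' ≠ 0 ∧ Z.card = n ∧ ∀ s ∈ Z, 0 < s ∧ s < 1 / 4 ∧
      E s - c' * s ^ α = 0 ∧ E' s - c' * (α * s ^ (α - 1)) ≠ 0 := by
  obtain ⟨t, σ, ht, hdec, hsgn⟩ := hn

  have hev : ∀ᶠ c' in nhds c, ∀ i ∈ Finset.range (n + 1),
      0 < σ * (-1) ^ i * (E (t i) - c' * (t i) ^ α) := by
    rw [Filter.eventually_all_finset]
    intro i hi
    have hi' : i ≤ n := Nat.lt_succ_iff.1 (Finset.mem_range.1 hi)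
    have hcont : Continuous (fun c' : ℝ => σ * (-1) ^ i * (E (t i) - c' * (t i) ^ α)) := by
      fun_prop
    exact hcont.continuousAt.eventually (lt_mem_nhds (hsgn i hi'))
  obtain ⟨δ, hδ, hball⟩ := Metric.eventually_nhds_iff.1 hev

  have hder : ∀ s : ℝ, 0 < s → HasDerivAt (fun s => E s * s ^ (-α))
      (E' s * s ^ (-α) + E s * (-α * s ^ (-α - 1))) s := by
    intro s hs
    exact (hE s hs).mul (Real.hasDerivAt_rpow_const (Or.inl hs.ne'))
  obtain ⟨c', hc'0, hc'δ, hreg'⟩ := hreg (fun s => E s * s ^ (-α))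
    (fun s => E' s * s ^ (-α) + E s * (-α * s ^ (-α - 1))) hder c δ hδ hc
  have hsg' : ∀ i, i ≤ n → 0 < σ * (-1) ^ i * (E (t i) - c' * (t i) ^ α) := by
    intro i hi
    exact hball (by rw [Real.dist_eq]; exact hc'δ) i (Finset.mem_range.2 (Nat.lt_succ_of_le hi))

  have hz : ∀ i, ∃ z : ℝ, i < n → (t (i + 1) < z ∧ z < t i ∧ E z - c' * z ^ α = 0) := by
    intro i
    by_cases hi : i < n
    · have h1 := hsg' i hi.le
      have h2 := hsg' (i + 1) hi
      have hlt := hdec i hi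
      have hpos := (ht (i + 1) hi).1
      have hcont : ContinuousOn (fun s : ℝ => σ * (-1) ^ i * (E s - c' * s ^ α))
          (Set.Icc (t (i + 1)) (t i)) := by
        intro s hs
        have hs0 : 0 < s := lt_of_lt_of_le hpos hs.1
        have hEc : ContinuousAt E s := (hE s hs0).continuousAt
        have hpc : ContinuousAt (fun s : ℝ => s ^ α) s :=
          Real.continuousAt_rpow_const s α (Or.inl hs0.ne')
        exact (continuousAt_const.mul (hEc.sub (continuousAt_const.mul hpc))).continuousWithinAt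
      have h3 : (0 : ℝ) ∈ Set.Ioo (σ * (-1) ^ i * (E (t (i + 1)) - c' * (t (i + 1)) ^ α))
          (σ * (-1) ^ i * (E (t i) - c' * (t i) ^ α)) := by
        refine ⟨?_, h1⟩
        have : σ * (-1) ^ (i + 1) * (E (t (i + 1)) - c' * (t (i + 1)) ^ α) =
            -(σ * (-1) ^ i * (E (t (i + 1)) - c' * (t (i + 1)) ^ α)) := by ring
        rw [this] at h2
        linarith
      obtain ⟨z, ⟨hz1, hz2⟩, hz3⟩ := intermediate_value_Ioo hlt.le hcont h3
      refine ⟨z, fun _ => ⟨hz1, hz2, ?_⟩⟩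
      have hne : σ * (-1) ^ i ≠ 0 := by
        intro h0
        rw [h0, zero_mul] at h1
        exact lt_irrefl _ h1
      have hz3' : σ * (-1) ^ i * (E z - c' * z ^ α) = 0 := hz3
      exact (mul_eq_zero.1 hz3').resolve_left hne
    · exact ⟨0, fun h => absurd h hi⟩
  choose z hz using hz
  have hanti : ∀ j i, i ≤ j → j ≤ n → t j ≤ t i := by
    intro j
    induction j with
    | zero =>
      intro i hi _
      have : i = 0 := Nat.le_zero.1 hi
      rw [this]
    | succ j ih =>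
      intro i hi hj
      rcases Nat.lt_or_ge j i with h | h
      · have : i = j + 1 := by omega
        rw [this]
      · exact (hdec j hj).le.trans (ih i h (by omega))
  have hinj : Set.InjOn z (Finset.range n : Set ℕ) := by
    have key : ∀ i j, i < j → j < n → z j < z i := by
      intro i j hij hj
      have h1 := (hz j hj).2.1
      have h2 := (hz i (by omega)).1
      have h3 := hanti j (i + 1) hij hj.le
      linarith
    intro i hi j hj hij
    have hi' : i < n := Finset.mem_range.1 (Finset.mem_coe.1 hi)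
    have hj' : j < n := Finset.mem_range.1 (Finset.mem_coe.1 hj)
    rcases lt_trichotomy i j with h | h | h
    · have := key i j h hj'
      rw [hij] at this
      exact absurd this (lt_irrefl _)
    · exact h
    · have := key j i h hi'
      rw [hij] at this
      exact absurd this (lt_irrefl _)
  refine ⟨c', (Finset.range n).image z, hc'0, ?_, ?_⟩
  · rw [Finset.card_image_of_injOn hinj, Finset.card_range]
  · intro s hs
    obtain ⟨i, hi, rfl⟩ := Finset.mem_image.1 hs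
    have hi' : i < n := Finset.mem_range.1 hi
    obtain ⟨hz1, hz2, hz3⟩ := hz i hi'
    have hpos : 0 < z i := lt_trans (ht (i + 1) hi').1 hz1
    refine ⟨hpos, lt_trans hz2 (ht i hi'.le).2, hz3, ?_⟩
    intro h0
    have hEz : E (z i) = c' * z i ^ α := by linarith
    have hE'z : E' (z i) = c' * (α * z i ^ (α - 1)) := by linarith
    have hφ : E (z i) * z i ^ (-α) = c' := by
      rw [hEz, mul_assoc, ← Real.rpow_add hpos, add_neg_cancel, Real.rpow_zero, mul_one]
    apply hreg' (z i) hpos hφ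
    show E' (z i) * z i ^ (-α) + E (z i) * (-α * z i ^ (-α - 1)) = 0
    rw [hEz, hE'z]
    have e1 : z i ^ (α - 1) * z i ^ (-α) = z i ^ (-1 : ℝ) := by
      rw [← Real.rpow_add hpos]; congr 1; ring
    have e2 : z i ^ α * z i ^ (-α - 1) = z i ^ (-1 : ℝ) := by
      rw [← Real.rpow_add hpos]; congr 1; ring
    calc c' * (α * z i ^ (α - 1)) * z i ^ (-α) + c' * z i ^ α * (-α * z i ^ (-α - 1))
        = c' * α * (z i ^ (α - 1) * z i ^ (-α)) - c' * α * (z i ^ α * z i ^ (-α - 1)) := by ring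
      _ = 0 := by rw [e1, e2]; ring

lemma exists_zeros_of (k : ℕ) (hk : 1 ≤ k)
    (hps : ∃ a : ℕ → ℝ, (∀ j ≤ k, a j ≠ 0) ∧
      ∀ X : ℝ, X ^ (2 * k) + (1 - X) ^ (2 * k) =
        ∑ j ∈ Finset.range (k + 1), a j * (X * (1 - X)) ^ j)
    (halt : ∀ (a : ℕ → ℝ), (∀ j ≤ k, a j ≠ 0) →
      ∃ (ε : ℕ → ℚ) (c : ℕ → ℝ), (∀ j < k, |ε j| < 1 / 4 ∧ c j ≠ 0) ∧
        Alt (fun s => ∑ j ∈ Finset.range (k + 1), a j * s ^ j -
          ∑ j ∈ Finset.range k, c j * s ^ ((j : ℝ) + (ε j : ℝ))) (2 * k))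
    (hnd : ∀ (E E' : ℝ → ℝ), (∀ s, 0 < s → HasDerivAt E (E' s) s) → ∀ (α c : ℝ), c ≠ 0 →
      ∀ (n : ℕ), Alt (fun s => E s - c * s ^ α) n →
      ∃ (c' : ℝ) (Z : Finset ℝ), c' ≠ 0 ∧ Z.card = n ∧ ∀ s ∈ Z, 0 < s ∧ s < 1 / 4 ∧
        E s - c' * s ^ α = 0 ∧ E' s - c' * (α * s ^ (α - 1)) ≠ 0) :
    ∃ (a : ℕ → ℝ) (ε : ℕ → ℚ) (c : ℕ → ℝ) (Z : Finset ℝ),
      (∀ X : ℝ, X ^ (2 * k) + (1 - X) ^ (2 * k) =
        ∑ j ∈ Finset.range (k + 1), a j * (X * (1 - X)) ^ j) ∧
      (∀ j < k, |ε j| < 1 / 4 ∧ c j ≠ 0) ∧ Z.card = 2 * k ∧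
      ∀ s ∈ Z, 0 < s ∧ s < 1 / 4 ∧
        ∑ j ∈ Finset.range (k + 1), a j * s ^ j -
          ∑ j ∈ Finset.range k, c j * s ^ ((j : ℝ) + (ε j : ℝ)) = 0 ∧
        ∑ j ∈ Finset.range (k + 1), a j * (j * s ^ (j - 1)) -
          ∑ j ∈ Finset.range k, c j * (((j : ℝ) + (ε j : ℝ)) * s ^ ((j : ℝ) + (ε j : ℝ) - 1)) ≠ 0 := by
  obtain ⟨a, ha, hX⟩ := hps
  obtain ⟨ε, c, hεc, hAlt⟩ := halt a ha
  have hsplit : ∀ (f : ℕ → ℝ), ∑ j ∈ Finset.range k, f j = f 0 + ∑ j ∈ Finset.Ico 1 k, f j := by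
    intro f
    rw [Finset.range_eq_Ico, Finset.sum_eq_sum_Ico_succ_bot (by omega)]
  obtain ⟨c', Z, hc', hZc, hZ⟩ := hnd
    (fun s => ∑ j ∈ Finset.range (k + 1), a j * s ^ j -
      ∑ j ∈ Finset.Ico 1 k, c j * s ^ ((j : ℝ) + (ε j : ℝ)))
    (fun s => ∑ j ∈ Finset.range (k + 1), a j * (j * s ^ (j - 1)) -
      ∑ j ∈ Finset.Ico 1 k, c j * (((j : ℝ) + (ε j : ℝ)) * s ^ ((j : ℝ) + (ε j : ℝ) - 1)))
    (by
      intro s hs
      apply HasDerivAt.sub
      · apply HasDerivAt.fun_sum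
        intro j _
        exact (hasDerivAt_pow j s).const_mul (a j)
      · apply HasDerivAt.fun_sum
        intro j _
        exact (Real.hasDerivAt_rpow_const (Or.inl hs.ne')).const_mul (c j))
    (ε 0 : ℝ) (c 0) (hεc 0 (by omega)).2 (2 * k)
    (by
      have e : (fun s : ℝ => (∑ j ∈ Finset.range (k + 1), a j * s ^ j -
          ∑ j ∈ Finset.Ico 1 k, c j * s ^ ((j : ℝ) + (ε j : ℝ))) - c 0 * s ^ (ε 0 : ℝ))
          = (fun s => ∑ j ∈ Finset.range (k + 1), a j * s ^ j -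
          ∑ j ∈ Finset.range k, c j * s ^ ((j : ℝ) + (ε j : ℝ))) := by
        funext s
        rw [hsplit]
        simp only [Nat.cast_zero, zero_add]
        ring
      rw [e]
      exact hAlt)
  have hup : ∀ j ∈ Finset.Ico 1 k, Function.update c 0 c' j = c j := by
    intro j hj
    rw [Finset.mem_Ico] at hj
    exact Function.update_of_ne (by omega) _ _
  refine ⟨a, ε, Function.update c 0 c', Z, hX, ?_, hZc, ?_⟩
  · intro j hj
    refine ⟨(hεc j hj).1, ?_⟩
    by_cases h0 : j = 0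
    · subst h0
      simpa using hc'
    · rw [Function.update_of_ne h0]
      exact (hεc j hj).2
  · intro s hs
    obtain ⟨h1, h2, h3, h4⟩ := hZ s hs
    refine ⟨h1, h2, ?_, ?_⟩
    · rw [hsplit]
      have e2 : ∑ j ∈ Finset.Ico 1 k, Function.update c 0 c' j * s ^ ((j : ℝ) + (ε j : ℝ))
          = ∑ j ∈ Finset.Ico 1 k, c j * s ^ ((j : ℝ) + (ε j : ℝ)) :=
        Finset.sum_congr rfl fun j hj => by rw [hup j hj]
      rw [e2]
      simp only [Nat.cast_zero, zero_add, Function.update_self]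
      linarith
    · rw [hsplit]
      have e2 : ∑ j ∈ Finset.Ico 1 k, Function.update c 0 c' j *
            (((j : ℝ) + (ε j : ℝ)) * s ^ ((j : ℝ) + (ε j : ℝ) - 1))
          = ∑ j ∈ Finset.Ico 1 k, c j *
            (((j : ℝ) + (ε j : ℝ)) * s ^ ((j : ℝ) + (ε j : ℝ) - 1)) :=
        Finset.sum_congr rfl fun j hj => by rw [hup j hj]
      rw [e2]
      simp only [Nat.cast_zero, zero_add, Function.update_self]
      intro hcon
      apply h4
      linarith

lemma sum_eval (k : ℕ) (hk : 1 ≤ k) (a : ℕ → ℝ) (ε : ℕ → ℚ) (c : ℕ → ℝ)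
    (hps : ∀ X : ℝ, X ^ (2 * k) + (1 - X) ^ (2 * k) =
        ∑ j ∈ Finset.range (k + 1), a j * (X * (1 - X)) ^ j)
    (cc : Fin k ⊕ Bool → ℝ) (A B : Fin k ⊕ Bool → ℚ)
    (hcl : ∀ j : Fin k, cc (Sum.inl j) = -c j) (hcr : ∀ b : Bool, cc (Sum.inr b) = 1)
    (hA : ∀ j : Fin k, A (Sum.inl j) = (j : ℕ) + ε j) (hB : ∀ j : Fin k, B (Sum.inl j) = (j : ℕ) + ε j)
    (hAf : A (Sum.inr false) = 2 * k) (hBf : B (Sum.inr false) = 0)
    (hAt : A (Sum.inr true) = 0) (hBt : B (Sum.inr true) = 2 * k)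
    (X : ℝ) (hX0 : 0 < X) (hX1 : X < 1) :
    (∑ i, cc i * X ^ (A i : ℝ) * (1 - X) ^ (B i : ℝ) =
      ∑ j ∈ Finset.range (k + 1), a j * (X * (1 - X)) ^ j -
        ∑ j ∈ Finset.range k, c j * (X * (1 - X)) ^ ((j : ℝ) + (ε j : ℝ))) ∧
    (∑ i, cc i * X ^ (A i : ℝ) * (1 - X) ^ (B i : ℝ) * ((A i : ℝ) / X - (B i : ℝ) / (1 - X)) =
      (∑ j ∈ Finset.range (k + 1), a j * (j * (X * (1 - X)) ^ (j - 1)) -
        ∑ j ∈ Finset.range k, c j * (((j : ℝ) + (ε j : ℝ)) *
          (X * (1 - X)) ^ ((j : ℝ) + (ε j : ℝ) - 1))) * (1 - 2 * X)) := by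
  have hY : 0 < 1 - X := by linarith
  have hs : 0 < X * (1 - X) := mul_pos hX0 hY
  have pw : ∀ p : ℝ, X ^ p * (1 - X) ^ p = (X * (1 - X)) ^ p := fun p =>
    (Real.mul_rpow hX0.le hY.le).symm
  have e2k : ((((2 : ℚ) * (k : ℚ)) : ℚ) : ℝ) = ((2 * k : ℕ) : ℝ) := by push_cast; ring
  constructor
  · rw [Fintype.sum_sum_type, Fintype.sum_bool]
    rw [hcr, hcr, hAf, hBf, hAt, hBt, e2k]
    rw [Rat.cast_zero, Real.rpow_zero, Real.rpow_zero, Real.rpow_natCast, Real.rpow_natCast]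
    rw [← hps X]
    have h1 : ∑ x : Fin k, cc (Sum.inl x) * X ^ ((A (Sum.inl x) : ℚ) : ℝ) *
        (1 - X) ^ ((B (Sum.inl x) : ℚ) : ℝ) =
        - ∑ j ∈ Finset.range k, c j * (X * (1 - X)) ^ ((j : ℝ) + (ε j : ℝ)) := by
      rw [← Finset.sum_neg_distrib, Finset.sum_range]
      refine Finset.sum_congr rfl fun j _ => ?_
      rw [hcl, hA, hB]
      push_cast
      rw [mul_assoc, pw]
      ring
    rw [h1]
    ring
  · rw [Fintype.sum_sum_type, Fintype.sum_bool]
    rw [hcr, hcr, hAf, hBf, hAt, hBt, e2k]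
    rw [Rat.cast_zero, Real.rpow_zero, Real.rpow_zero, Real.rpow_natCast, Real.rpow_natCast]
    have h1 : ∑ x : Fin k, cc (Sum.inl x) * X ^ ((A (Sum.inl x) : ℚ) : ℝ) *
        (1 - X) ^ ((B (Sum.inl x) : ℚ) : ℝ) *
          (((A (Sum.inl x) : ℚ) : ℝ) / X - ((B (Sum.inl x) : ℚ) : ℝ) / (1 - X)) =
        - (∑ j ∈ Finset.range k, c j * (((j : ℝ) + (ε j : ℝ)) *
          (X * (1 - X)) ^ ((j : ℝ) + (ε j : ℝ) - 1))) * (1 - 2 * X) := by
      rw [neg_mul, Finset.sum_mul, ← Finset.sum_neg_distrib, Finset.sum_range]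
      refine Finset.sum_congr rfl fun j _ => ?_
      rw [hcl, hA, hB]
      push_cast
      rw [Real.rpow_sub_one hs.ne', ← pw]
      field_simp
      ring
    rw [h1]
    have hd1 : HasDerivAt (fun X : ℝ => X ^ (2 * k) + (1 - X) ^ (2 * k))
        (((2 * k : ℕ) : ℝ) * X ^ (2 * k - 1) - ((2 * k : ℕ) : ℝ) * (1 - X) ^ (2 * k - 1)) X := by
      have e1 := hasDerivAt_pow (2 * k) X
      have e2 : HasDerivAt (fun X : ℝ => (1 - X) ^ (2 * k))
          (((2 * k : ℕ) : ℝ) * (1 - X) ^ (2 * k - 1) * (-1)) X :=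
        ((hasDerivAt_id X).const_sub 1).pow (2 * k)
      have e3 := e1.fun_add e2
      refine e3.congr_deriv ?_
      ring
    have hd2 : HasDerivAt (fun X : ℝ => ∑ j ∈ Finset.range (k + 1), a j * (X * (1 - X)) ^ j)
        (∑ j ∈ Finset.range (k + 1), a j * ((j : ℝ) * (X * (1 - X)) ^ (j - 1) * (1 - 2 * X))) X := by
      have e0 : HasDerivAt (fun X : ℝ => X * (1 - X)) (1 - 2 * X) X := by
        have := (hasDerivAt_id' X).fun_mul ((hasDerivAt_id' X).const_sub 1)
        refine this.congr_deriv ?_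
        ring
      apply HasDerivAt.fun_sum
      intro j _
      exact (e0.pow j).const_mul (a j)
    have hfe : (fun X : ℝ => X ^ (2 * k) + (1 - X) ^ (2 * k)) =
        (fun X : ℝ => ∑ j ∈ Finset.range (k + 1), a j * (X * (1 - X)) ^ j) := funext hps
    rw [hfe] at hd1
    have hder := hd1.unique hd2
    have h2 : (∑ j ∈ Finset.range (k + 1), a j * ((j : ℝ) * (X * (1 - X)) ^ (j - 1) * (1 - 2 * X))) =
        (∑ j ∈ Finset.range (k + 1), a j * (j * (X * (1 - X)) ^ (j - 1))) * (1 - 2 * X) := by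
      rw [Finset.sum_mul]
      refine Finset.sum_congr rfl fun j _ => ?_
      ring
    rw [h2] at hder
    rw [sub_mul, ← hder]
    have h3 : X ^ (2 * k) = X ^ (2 * k - 1) * X := by
      rw [← pow_succ]; congr 1; omega
    have h4 : (1 - X) ^ (2 * k) = (1 - X) ^ (2 * k - 1) * (1 - X) := by
      rw [← pow_succ]; congr 1; omega
    rw [h3, h4]
    field_simp
    ring

lemma double_roots (Z : Finset ℝ) (hZ : ∀ s ∈ Z, 0 < s ∧ s < 1 / 4) :
    ∃ S : Finset ℝ, S.card = 2 * Z.card ∧ ∀ X ∈ S, 0 < X ∧ X < 1 ∧ X * (1 - X) ∈ Z ∧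
      1 - 2 * X ≠ 0 := by
  classical
  have hr : ∀ s ∈ Z, 0 < Real.sqrt (1 - 4 * s) ∧ Real.sqrt (1 - 4 * s) < 1 ∧
      Real.sqrt (1 - 4 * s) ^ 2 = 1 - 4 * s := by
    intro s hs
    obtain ⟨h0, h1⟩ := hZ s hs
    have hp : 0 < 1 - 4 * s := by linarith
    refine ⟨Real.sqrt_pos.2 hp, ?_, Real.sq_sqrt hp.le⟩
    rw [Real.sqrt_lt' one_pos]
    linarith
  have inj1 : Set.InjOn (fun s : ℝ => (1 - Real.sqrt (1 - 4 * s)) / 2) Z := by
    intro s hs t ht h
    have h1 := (hr s hs).2.2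
    have h2 := (hr t ht).2.2
    simp only at h
    have h3 : Real.sqrt (1 - 4 * s) = Real.sqrt (1 - 4 * t) := by linarith
    rw [h3] at h1
    linarith
  have inj2 : Set.InjOn (fun s : ℝ => (1 + Real.sqrt (1 - 4 * s)) / 2) Z := by
    intro s hs t ht h
    have h1 := (hr s hs).2.2
    have h2 := (hr t ht).2.2
    simp only at h
    have h3 : Real.sqrt (1 - 4 * s) = Real.sqrt (1 - 4 * t) := by linarith
    rw [h3] at h1
    linarith
  refine ⟨Z.image (fun s : ℝ => (1 - Real.sqrt (1 - 4 * s)) / 2) ∪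
    Z.image (fun s : ℝ => (1 + Real.sqrt (1 - 4 * s)) / 2), ?_, ?_⟩
  · rw [Finset.card_union_of_disjoint, Finset.card_image_of_injOn inj1,
      Finset.card_image_of_injOn inj2]
    · ring
    · rw [Finset.disjoint_left]
      intro X h1 h2
      rw [Finset.mem_image] at h1 h2
      obtain ⟨s, hs, rfl⟩ := h1
      obtain ⟨t, ht, h⟩ := h2
      have a := (hr s hs).1
      have b := (hr t ht).1
      linarith
  · intro X hX
    rw [Finset.mem_union, Finset.mem_image, Finset.mem_image] at hX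
    rcases hX with ⟨s, hs, rfl⟩ | ⟨s, hs, rfl⟩
    · obtain ⟨a, b, c⟩ := hr s hs
      refine ⟨by linarith, by linarith, ?_, by intro h; linarith⟩
      have : (1 - Real.sqrt (1 - 4 * s)) / 2 * (1 - (1 - Real.sqrt (1 - 4 * s)) / 2) = s := by
        nlinarith
      rw [this]; exact hs
    · obtain ⟨a, b, c⟩ := hr s hs
      refine ⟨by linarith, by linarith, ?_, by intro h; linarith⟩
      have : (1 + Real.sqrt (1 - 4 * s)) / 2 * (1 - (1 + Real.sqrt (1 - 4 * s)) / 2) = s := by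
        nlinarith
      rw [this]; exact hs

lemma pairs_injective (k : ℕ) (hk : 1 ≤ k) (ε : ℕ → ℚ) (hε : ∀ j < k, |ε j| < 1 / 4)
    (A B : Fin k ⊕ Bool → ℚ)
    (hA : ∀ j : Fin k, A (Sum.inl j) = (j : ℕ) + ε j) (hB : ∀ j : Fin k, B (Sum.inl j) = (j : ℕ) + ε j)
    (hAf : A (Sum.inr false) = 2 * k) (hBf : B (Sum.inr false) = 0)
    (hAt : A (Sum.inr true) = 0) (hBt : B (Sum.inr true) = 2 * k) :
    Function.Injective fun i => (A i, B i) := by
  have hkq : (1 : ℚ) ≤ k := by exact_mod_cast hk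
  intro i i' h
  have h1 : A i = A i' := congrArg Prod.fst h
  have h2 : B i = B i' := congrArg Prod.snd h
  rcases i with j | b
  · rcases i' with j' | b'
    · rw [hA, hA] at h1
      have e1 := abs_lt.1 (hε j j.2)
      have e2 := abs_lt.1 (hε j' j'.2)
      have h3 : ((j : ℕ) : ℚ) < (j' : ℕ) + 1 := by linarith [e1.1, e1.2, e2.1, e2.2]
      have h4 : ((j' : ℕ) : ℚ) < (j : ℕ) + 1 := by linarith [e1.1, e1.2, e2.1, e2.2]
      have h5 : (j : ℕ) < (j' : ℕ) + 1 := by exact_mod_cast h3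
      have h6 : (j' : ℕ) < (j : ℕ) + 1 := by exact_mod_cast h4
      have h7 : (j : ℕ) = (j' : ℕ) := by omega
      rw [Fin.ext h7]
    · exfalso
      cases b'
      · rw [hA, hAf] at h1
        rw [hB, hBf] at h2
        linarith
      · rw [hA, hAt] at h1
        rw [hB, hBt] at h2
        linarith
  · rcases i' with j' | b'
    · exfalso
      cases b
      · rw [hA, hAf] at h1
        rw [hB, hBf] at h2
        linarith
      · rw [hA, hAt] at h1
        rw [hB, hBt] at h2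
        linarith
    · cases b <;> cases b'
      · rfl
      · exfalso
        rw [hAf, hAt] at h1
        linarith
      · exfalso
        rw [hAf, hAt] at h1
        linarith
      · rfl

lemma one_variable (k : ℕ) (hk : 1 ≤ k) :
    ∃ (c : Fin k ⊕ Bool → ℝ) (A B : Fin k ⊕ Bool → ℚ) (S : Finset ℝ),
      (∀ i, c i ≠ 0) ∧ (Function.Injective fun i => (A i, B i)) ∧ S.card = 4 * k ∧
      ∀ X ∈ S, 0 < X ∧ X < 1 ∧ ∑ i, c i * X ^ (A i : ℝ) * (1 - X) ^ (B i : ℝ) = 0 ∧
      ∑ i, c i * X ^ (A i : ℝ) * (1 - X) ^ (B i : ℝ) *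
        ((A i : ℝ) / X - (B i : ℝ) / (1 - X)) ≠ 0 := by
  obtain ⟨a, ε, c, Z, hps, hεc, hZc, hZ⟩ := exists_zeros_of k hk (power_sum k)
    (fun a ha => alt_all_of_step alt_step k a ha)
    (fun E E' hE α c hc n hn => nondegenerate_of exists_regular_value E E' hE α c hc n hn)
  obtain ⟨S, hScard, hS⟩ := double_roots Z (fun s hs => ⟨(hZ s hs).1, (hZ s hs).2.1⟩)
  let cc : Fin k ⊕ Bool → ℝ := fun i => Sum.elim (fun j : Fin k => -c j) (fun _ => 1) i
  let A : Fin k ⊕ Bool → ℚ := fun i =>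
    Sum.elim (fun j : Fin k => ((j : ℕ) : ℚ) + ε j) (fun b => if b then 0 else 2 * k) i
  let B : Fin k ⊕ Bool → ℚ := fun i =>
    Sum.elim (fun j : Fin k => ((j : ℕ) : ℚ) + ε j) (fun b => if b then 2 * k else 0) i
  have hcl : ∀ j : Fin k, cc (Sum.inl j) = -c j := fun j => rfl
  have hcr : ∀ b : Bool, cc (Sum.inr b) = 1 := fun b => rfl
  have hA : ∀ j : Fin k, A (Sum.inl j) = (j : ℕ) + ε j := fun j => rfl
  have hB : ∀ j : Fin k, B (Sum.inl j) = (j : ℕ) + ε j := fun j => rfl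
  have hAf : A (Sum.inr false) = 2 * k := by simp [A]
  have hBf : B (Sum.inr false) = 0 := by simp [B]
  have hAt : A (Sum.inr true) = 0 := by simp [A]
  have hBt : B (Sum.inr true) = 2 * k := by simp [B]
  refine ⟨cc, A, B, S, ?_, pairs_injective k hk ε (fun j hj => (hεc j hj).1) A B hA hB hAf hBf hAt hBt,
    ?_, ?_⟩
  · rintro (j | b)
    · rw [hcl]; exact neg_ne_zero.2 (hεc j j.2).2
    · rw [hcr]; exact one_ne_zero
  · rw [hScard, hZc]; ring
  · intro X hX
    obtain ⟨hX0, hX1, hXZ, hX2⟩ := hS X hX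
    obtain ⟨_, _, hz, hz'⟩ := hZ _ hXZ
    obtain ⟨h1, h2⟩ := sum_eval k hk a ε c hps cc A B hcl hcr hA hB hAf hBf hAt hBt X hX0 hX1
    refine ⟨hX0, hX1, ?_, ?_⟩
    · rw [h1]; exact hz
    · rw [h2]; exact mul_ne_zero hz' hX2

lemma coeff_close (a : ℝ) (τ : ℝ) (hτ : τ = 1 ∨ τ = -1) (δ : ℝ) (hδ : 0 < δ) :
    ∃ η : ℝ, 0 < η ∧ ∀ x : ℝ, 0 < x → x < η → |a * (x ^ 4) ^ (-(τ * x)) - a| < δ := by
  have hc : Continuous fun x : ℝ => a * Real.exp (-4 * τ * (x * Real.log x)) - a := by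
    have := Real.continuous_mul_log
    fun_prop
  have h0 := Metric.continuous_iff.mp hc 0 δ hδ
  obtain ⟨η, hη, h⟩ := h0
  refine ⟨η, hη, fun x hx hxη => ?_⟩
  have h1 := h x (by rw [Real.dist_eq, sub_zero, abs_of_pos hx]; exact hxη)
  rw [Real.dist_eq] at h1
  simp only [zero_mul, mul_zero, Real.exp_zero, mul_one, sub_self, sub_zero] at h1
  have h2 : (x ^ 4) ^ (-(τ * x)) = Real.exp (-4 * τ * (x * Real.log x)) := by
    rw [Real.rpow_def_of_pos (by positivity), Real.log_pow]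
    congr 1
    push_cast
    ring
  rw [h2]
  exact h1

lemma alt_step_close (j : ℕ) (a : ℝ) (ha : a ≠ 0) (R : ℝ → ℝ) (C : ℝ)
    (hR : ∀ s, 0 < s → s < 1 → |R s| ≤ C * s ^ ((j : ℝ) + 1 / 2)) (n : ℕ) (hn : Alt R n)
    (δ₀ : ℝ) (hδ₀ : 0 < δ₀)
    (hclose : ∀ (τ : ℝ), (τ = 1 ∨ τ = -1) →
      ∃ η : ℝ, 0 < η ∧ ∀ x : ℝ, 0 < x → x < η → |a * (x ^ 4) ^ (-(τ * x)) - a| < δ₀)
    (hsmall : ∀ (τ : ℝ), (τ = 1 ∨ τ = -1) → ∀ (r : ℝ), 0 < r → ∀ (δ : ℝ), 0 < δ →
      ∃ η : ℝ, 0 < η ∧ ∀ x : ℝ, 0 < x → x < η → ∀ s : ℝ, r ≤ s → s ≤ 1 →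
        |a * s ^ j * (1 - (s / x ^ 4) ^ (τ * x))| < δ)
    (hdouble : ∀ (τ : ℝ), (τ = 1 ∨ τ = -1) →
      ∃ η : ℝ, 0 < η ∧ ∀ x : ℝ, 0 < x → x < η → ∀ r : ℝ,
      |r| ≤ C * (2 * x ^ 4) ^ ((j : ℝ) + 1 / 2) →
      0 < -(a * τ) * (r + a * (2 * x ^ 4) ^ j * (1 - (2 * x ^ 4 / x ^ 4) ^ (τ * x))))
    (hhalf : ∀ (τ : ℝ), (τ = 1 ∨ τ = -1) →
      ∃ η : ℝ, 0 < η ∧ ∀ x : ℝ, 0 < x → x < η → ∀ r : ℝ,
      |r| ≤ C * (x ^ 4 / 2) ^ ((j : ℝ) + 1 / 2) →
      0 < (a * τ) * (r + a * (x ^ 4 / 2) ^ j * (1 - (x ^ 4 / 2 / x ^ 4) ^ (τ * x)))) :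
    ∃ (ε : ℚ) (c : ℝ), |ε| < 1 / 4 ∧ |(ε : ℝ)| < δ₀ ∧ c ≠ 0 ∧ |c - a| < δ₀ ∧
      Alt (fun s => R s + (a * s ^ j - c * s ^ ((j : ℝ) + (ε : ℝ)))) (n + 2) := by
  obtain ⟨t, σ, ht, hdec, hpos⟩ := hn
  have hσ : σ ≠ 0 := by
    rintro rfl
    have := hpos 0 (Nat.zero_le n)
    simp at this

  have hmono : ∀ i, i ≤ n → t n ≤ t i := by
    intro i hi
    obtain ⟨d, rfl⟩ := Nat.exists_eq_add_of_le hi
    clear hi
    have : ∀ e, e ≤ d → t (i + e) ≤ t i := by
      intro e
      induction e with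
      | zero => intro _; simp
      | succ e ih =>
        intro he
        have h1 := ih (by omega)
        have h2 := hdec (i + e) (by omega)
        have h3 : i + (e + 1) = i + e + 1 := by omega
        rw [h3]
        linarith
    exact this d le_rfl
  have htn := ht n le_rfl

  set B : ℝ := σ * (-1) ^ (n + 1) with hB
  have hB0 : B ≠ 0 := mul_ne_zero hσ (pow_ne_zero _ (by norm_num))
  obtain ⟨τ, hτ, hτB⟩ : ∃ τ : ℝ, (τ = 1 ∨ τ = -1) ∧ 0 < -(a * τ) * B := by
    rcases lt_or_gt_of_ne (mul_ne_zero ha hB0) with h | h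
    · exact ⟨1, Or.inl rfl, by nlinarith⟩
    · exact ⟨-1, Or.inr rfl, by nlinarith⟩

  obtain ⟨δ, hδ, hδR⟩ : ∃ δ : ℝ, 0 < δ ∧ ∀ i, i ≤ n → δ ≤ |R (t i)| := by
    have hne : (Finset.range (n + 1)).Nonempty := ⟨0, by simp⟩
    obtain ⟨i0, hi0, hmin⟩ := Finset.exists_min_image (Finset.range (n + 1)) (fun i => |R (t i)|) hne
    refine ⟨|R (t i0)|, ?_, ?_⟩
    · have h1 := hpos i0 (by simpa [Nat.lt_succ_iff] using hi0)
      apply abs_pos.mpr
      rintro h2
      rw [h2, mul_zero] at h1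
      exact lt_irrefl _ h1
    · intro i hi
      exact hmin i (by simp; omega)
  obtain ⟨η1, hη1, h1⟩ := hsmall τ hτ (t n) htn.1 δ hδ
  obtain ⟨η2, hη2, h2⟩ := hdouble τ hτ
  obtain ⟨η3, hη3, h3⟩ := hhalf τ hτ
  obtain ⟨η4, hη4, hcl⟩ := hclose τ hτ
  obtain ⟨x, hx0, hx1⟩ : ∃ x : ℚ, (0 : ℝ) < (x : ℝ) ∧
      (x : ℝ) < min (min (min η1 η2) (min η3 (min (1 / 4) (t n / 2)))) (min η4 δ₀) := by
    have := exists_rat_btwn (show (0 : ℝ) <
        min (min (min η1 η2) (min η3 (min (1 / 4) (t n / 2)))) (min η4 δ₀) by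
      refine lt_min (lt_min (lt_min hη1 hη2) (lt_min hη3 (lt_min (by norm_num) (by linarith [htn.1]))))
        (lt_min hη4 hδ₀)
      )
    exact this
  have hxη4 : (x : ℝ) < η4 := lt_of_lt_of_le hx1 ((min_le_right _ _).trans (min_le_left _ _))
  have hxδ₀ : (x : ℝ) < δ₀ := lt_of_lt_of_le hx1 ((min_le_right _ _).trans (min_le_right _ _))
  replace hx1 : (x : ℝ) < min (min η1 η2) (min η3 (min (1 / 4) (t n / 2))) :=
    lt_of_lt_of_le hx1 (min_le_left _ _)
  have hxη1 : (x : ℝ) < η1 := lt_of_lt_of_le hx1 ((min_le_left _ _).trans (min_le_left _ _))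
  have hxη2 : (x : ℝ) < η2 := lt_of_lt_of_le hx1 ((min_le_left _ _).trans (min_le_right _ _))
  have hxη3 : (x : ℝ) < η3 := lt_of_lt_of_le hx1 ((min_le_right _ _).trans (min_le_left _ _))
  have hx4 : (x : ℝ) < 1 / 4 := lt_of_lt_of_le hx1
    ((min_le_right _ _).trans ((min_le_right _ _).trans (min_le_left _ _)))
  have hxt : (x : ℝ) < t n / 2 := lt_of_lt_of_le hx1
    ((min_le_right _ _).trans ((min_le_right _ _).trans (min_le_right _ _)))
  obtain ⟨ε, hε⟩ : ∃ ε : ℚ, (ε : ℝ) = τ * (x : ℝ) := by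
    rcases hτ with rfl | rfl
    · exact ⟨x, by simp⟩
    · exact ⟨-x, by simp⟩
  have hεabs : |(ε : ℝ)| < 1 / 4 := by
    rw [hε]
    rcases hτ with rfl | rfl
    · rw [one_mul, abs_of_pos hx0]; exact hx4
    · rw [neg_one_mul, abs_neg, abs_of_pos hx0]; exact hx4
  have hεabs0 : |(ε : ℝ)| < δ₀ := by
    rw [hε]
    rcases hτ with rfl | rfl
    · rw [one_mul, abs_of_pos hx0]; exact hxδ₀
    · rw [neg_one_mul, abs_neg, abs_of_pos hx0]; exact hxδ₀
  have hx4pos : (0 : ℝ) < (x : ℝ) ^ 4 := by positivity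
  have hx4le : (x : ℝ) ^ 4 ≤ (x : ℝ) := by
    have h5 : (x : ℝ) ^ 3 ≤ 1 := pow_le_one₀ hx0.le (by linarith)
    calc (x : ℝ) ^ 4 = (x : ℝ) ^ 3 * (x : ℝ) := by ring
      _ ≤ 1 * (x : ℝ) := by exact mul_le_mul_of_nonneg_right h5 hx0.le
      _ = (x : ℝ) := one_mul _
  have hrep : ∀ s : ℝ, 0 < s → R s + (a * s ^ j - a * ((x : ℝ) ^ 4) ^ (-(ε : ℝ)) *
      s ^ ((j : ℝ) + (ε : ℝ))) = R s + a * s ^ j * (1 - (s / (x : ℝ) ^ 4) ^ (τ * (x : ℝ))) := by
    intro s hs
    rw [← hε, Real.rpow_add hs, Real.rpow_natCast, Real.div_rpow hs.le hx4pos.le,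
      Real.rpow_neg hx4pos.le]
    have : ((x : ℝ) ^ 4) ^ (ε : ℝ) ≠ 0 := (Real.rpow_pos_of_pos hx4pos _).ne'
    field_simp
  have hcl' : |a * ((x : ℝ) ^ 4) ^ (-(ε : ℝ)) - a| < δ₀ := by
    rw [hε]; exact hcl x hx0 hxη4
  refine ⟨ε, a * ((x : ℝ) ^ 4) ^ (-(ε : ℝ)), ?_, hεabs0, ?_, hcl', ?_⟩
  · have : ((|ε| : ℚ) : ℝ) < ((1 / 4 : ℚ) : ℝ) := by
      push_cast
      exact hεabs
    exact_mod_cast this
  · exact mul_ne_zero ha (Real.rpow_pos_of_pos hx4pos _).ne'
  · refine ⟨fun i => if i ≤ n then t i else if i = n + 1 then 2 * (x : ℝ) ^ 4 else (x : ℝ) ^ 4 / 2,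
      σ, ?_, ?_, ?_⟩
    · intro i hi
      by_cases h4 : i ≤ n
      · simp only [h4, if_true]
        exact ht i h4
      · by_cases h5 : i = n + 1
        · simp only [h4, h5, if_true]
          rw [if_neg (by omega)]
          refine ⟨by positivity, ?_⟩
          have := htn.2
          linarith
        · simp only [h4, h5, if_false]
          refine ⟨by positivity, ?_⟩
          linarith
    · intro i hi
      by_cases h4 : i + 1 ≤ n
      · have h5 : i ≤ n := by omega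
        simp only [h4, h5, if_true]
        exact hdec i (by omega)
      · by_cases h5 : i = n
        · subst h5
          simp only [le_refl, if_true]
          rw [if_neg (by omega)]
          linarith
        · have h6 : i = n + 1 := by omega
          subst h6
          simp only []
          rw [if_neg (by omega), if_neg (by omega), if_neg (by omega), if_pos trivial]
          linarith
    · intro i hi
      by_cases h4 : i ≤ n
      · simp only [h4, if_true]
        have hti := ht i h4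
        rw [hrep (t i) hti.1]
        have h5 := hpos i h4
        have h6 := h1 x hx0 hxη1 (t i) (hmono i h4) (by linarith [hti.2])
        have h7 := hδR i h4
        set e := a * t i ^ j * (1 - (t i / (x : ℝ) ^ 4) ^ (τ * (x : ℝ)))
        set A := σ * (-1) ^ i
        have hA : A ≠ 0 := by
          intro h8
          rw [h8, zero_mul] at h5
          exact lt_irrefl _ h5
        have h8 : A * R (t i) = |A| * |R (t i)| := by
          rw [← abs_mul, abs_of_pos h5]
        have h9 : -(|A| * |e|) ≤ A * e := by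
          rw [← abs_mul]
          exact neg_abs_le _
        have h10 : |A| * |e| < |A| * |R (t i)| :=
          mul_lt_mul_of_pos_left (lt_of_lt_of_le h6 h7) (abs_pos.mpr hA)
        rw [mul_add]
        linarith
      · by_cases h5 : i = n + 1
        · subst h5
          simp only []
          rw [if_neg (by omega), if_pos trivial, hrep _ (by positivity)]
          have h6 : 0 < -(a * τ) * (R (2 * (x : ℝ) ^ 4) + a * (2 * (x : ℝ) ^ 4) ^ j *
              (1 - (2 * (x : ℝ) ^ 4 / (x : ℝ) ^ 4) ^ (τ * (x : ℝ)))) :=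
            h2 x hx0 hxη2 _ (hR _ (by positivity) (by linarith))
          rw [← hB]
          set Y := R (2 * (x : ℝ) ^ 4) + a * (2 * (x : ℝ) ^ 4) ^ j *
              (1 - (2 * (x : ℝ) ^ 4 / (x : ℝ) ^ 4) ^ (τ * (x : ℝ)))
          have h7 : 0 < (-(a * τ) * B) * (-(a * τ) * Y) := mul_pos hτB h6
          have h8 : (-(a * τ) * B) * (-(a * τ) * Y) = (a * τ) ^ 2 * (B * Y) := by ring
          rw [h8] at h7
          exact (pos_iff_pos_of_mul_pos h7).mp (by
            by_contra h9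
            have h10 : (a * τ) ^ 2 = 0 := le_antisymm (not_lt.mp h9) (sq_nonneg _)
            rw [h10, zero_mul] at h7
            exact lt_irrefl _ h7)
        · have h6 : i = n + 2 := by omega
          subst h6
          simp only []
          rw [if_neg (by omega), if_neg (by omega), hrep _ (by positivity)]
          have h6 : 0 < (a * τ) * (R ((x : ℝ) ^ 4 / 2) + a * ((x : ℝ) ^ 4 / 2) ^ j *
              (1 - ((x : ℝ) ^ 4 / 2 / (x : ℝ) ^ 4) ^ (τ * (x : ℝ)))) :=
            h3 x hx0 hxη3 _ (hR _ (by positivity) (by linarith))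
          set Y := R ((x : ℝ) ^ 4 / 2) + a * ((x : ℝ) ^ 4 / 2) ^ j *
              (1 - ((x : ℝ) ^ 4 / 2 / (x : ℝ) ^ 4) ^ (τ * (x : ℝ)))
          have h7 : 0 < (-(a * τ) * B) * ((a * τ) * Y) := mul_pos hτB h6
          have h8 : (-(a * τ) * B) * ((a * τ) * Y) = (a * τ) ^ 2 * (σ * (-1) ^ (n + 2) * Y) := by
            rw [hB]; ring
          rw [h8] at h7
          exact (pos_iff_pos_of_mul_pos h7).mp (by
            by_contra h9
            have h10 : (a * τ) ^ 2 = 0 := le_antisymm (not_lt.mp h9) (sq_nonneg _)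
            rw [h10, zero_mul] at h7
            exact lt_irrefl _ h7)

lemma alt_all_close_of_step
    (step : ∀ (j : ℕ) (a : ℝ), a ≠ 0 → ∀ (R : ℝ → ℝ) (C : ℝ),
      (∀ s, 0 < s → s < 1 → |R s| ≤ C * s ^ ((j : ℝ) + 1 / 2)) → ∀ (n : ℕ), Alt R n →
      ∀ (δ : ℝ), 0 < δ →
      ∃ (ε : ℚ) (c : ℝ), |ε| < 1 / 4 ∧ |(ε : ℝ)| < δ ∧ c ≠ 0 ∧ |c - a| < δ ∧
        Alt (fun s => R s + (a * s ^ j - c * s ^ ((j : ℝ) + (ε : ℝ)))) (n + 2))
    (k : ℕ) (a : ℕ → ℝ) (ha : ∀ j ≤ k, a j ≠ 0) (δ : ℝ) (hδ : 0 < δ) :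
    ∃ (ε : ℕ → ℚ) (c : ℕ → ℝ),
      (∀ j < k, |ε j| < 1 / 4 ∧ |(ε j : ℝ)| < δ ∧ c j ≠ 0 ∧ |c j - a j| < δ) ∧
      Alt (fun s => ∑ j ∈ Finset.range (k + 1), a j * s ^ j -
        ∑ j ∈ Finset.range k, c j * s ^ ((j : ℝ) + (ε j : ℝ))) (2 * k) := by
  have key : ∀ i, i ≤ k → ∃ (ε : ℕ → ℚ) (c : ℕ → ℝ),
      (∀ j, k - i ≤ j → j < k → |ε j| < 1 / 4 ∧ |(ε j : ℝ)| < δ ∧ c j ≠ 0 ∧ |c j - a j| < δ) ∧ Alt (Rp a ε c k (k - i)) (2 * i) := by
    intro i
    induction i with
    | zero =>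
      intro _
      refine ⟨fun _ => 0, fun _ => 1, fun j h1 h2 => by omega, fun _ => 1 / 8, a k, ?_, ?_, ?_⟩
      · intro i _
        norm_num
      · intro i hi
        omega
      · intro i hi
        have hi0 : i = 0 := by omega
        subst hi0
        unfold Rp
        simp only [Nat.sub_zero, Finset.Ico_self, Finset.sum_empty, add_zero, pow_zero, mul_one]
        have h1 : a k ≠ 0 := ha k le_rfl
        have h2 : 0 < a k * a k := mul_self_pos.mpr h1
        have h3 : (0 : ℝ) < (1 / 8) ^ k := by positivity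
        have h4 := mul_pos h2 h3
        linarith
    | succ i ih =>
      intro hik
      obtain ⟨ε, c, hεc, halt⟩ := ih (by omega)
      obtain ⟨m, hm⟩ : ∃ m, m = k - (i + 1) := ⟨_, rfl⟩
      have hmi : k - i = m + 1 := by omega
      have hmk : m + 1 ≤ k := by omega
      rw [hmi] at hεc halt
      rw [← hm]
      obtain ⟨C, hC⟩ := Rp_bound a ε c k m hmk (fun j h1 h2 => (hεc j h1 h2).1)
      obtain ⟨ε', c', hε', hε2, hc', hc2, halt'⟩ := step m (a m) (ha m (by omega)) (Rp a ε c k (m + 1)) C hC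
        (2 * i) halt δ hδ
      refine ⟨Function.update ε m ε', Function.update c m c', ?_, ?_⟩
      · intro j h1 h2
        rcases Nat.lt_or_ge m j with h | h
        · rw [Function.update_of_ne (by omega), Function.update_of_ne (by omega)]
          exact hεc j h h2
        · have hj : j = m := by omega
          subst hj
          rw [Function.update_self, Function.update_self]
          exact ⟨hε', hε2, hc', hc2⟩
      · have e : (fun s : ℝ => Rp a ε c k (m + 1) s + (a m * s ^ m - c' * s ^ ((m : ℝ) + (ε' : ℝ)))) =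
            Rp a (Function.update ε m ε') (Function.update c m c') k m := by
          funext s
          unfold Rp
          rw [Finset.sum_eq_sum_Ico_succ_bot (show m < k by omega), Function.update_self,
            Function.update_self]
          have e2 : ∑ j ∈ Finset.Ico (m + 1) k, (a j * s ^ j - Function.update c m c' j *
              s ^ ((j : ℝ) + ((Function.update ε m ε' j : ℚ) : ℝ))) =
              ∑ j ∈ Finset.Ico (m + 1) k, (a j * s ^ j - c j * s ^ ((j : ℝ) + (ε j : ℝ))) := by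
            apply Finset.sum_congr rfl
            intro j hj
            rw [Finset.mem_Ico] at hj
            rw [Function.update_of_ne (by omega), Function.update_of_ne (by omega)]
          rw [e2]
          ring
        rw [e] at halt'
        have e3 : 2 * (i + 1) = 2 * i + 2 := by ring
        rw [e3]
        exact halt'
  obtain ⟨ε, c, h1, h2⟩ := key k le_rfl
  refine ⟨ε, c, fun j hj => h1 j (by omega) hj, ?_⟩
  have e : (fun s : ℝ => ∑ j ∈ Finset.range (k + 1), a j * s ^ j -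
        ∑ j ∈ Finset.range k, c j * s ^ ((j : ℝ) + (ε j : ℝ))) = Rp a ε c k (k - k) := by
    funext s
    unfold Rp
    rw [Nat.sub_self, ← Finset.range_eq_Ico, Finset.sum_range_succ, Finset.sum_sub_distrib]
    ring
  rw [e]
  exact h2

lemma exists_regular_value_two (φ φ' ψ ψ' : ℝ → ℝ) (hφ : ∀ s, 0 < s → HasDerivAt φ (φ' s) s)
    (hψ : ∀ s, 0 < s → HasDerivAt ψ (ψ' s) s) (c δ : ℝ) (hδ : 0 < δ) (hc : c ≠ 0) :
    ∃ c' : ℝ, c' ≠ 0 ∧ |c' - c| < δ ∧ (∀ s, 0 < s → φ s = c' → φ' s ≠ 0) ∧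
      ∀ s, 0 < s → ψ s = c' → ψ' s ≠ 0 := by
  have key : ∀ (φ φ' : ℝ → ℝ), (∀ s, 0 < s → HasDerivAt φ (φ' s) s) →
      MeasureTheory.volume (φ '' {s | 0 < s ∧ φ' s = 0}) = 0 := by
    intro φ φ' hφ
    apply MeasureTheory.addHaar_image_eq_zero_of_det_fderivWithin_eq_zero MeasureTheory.volume
      (f' := fun x => ContinuousLinearMap.toSpanSingleton ℝ (φ' x))
    · intro x hx
      exact (hφ x hx.1).hasDerivWithinAt.hasFDerivWithinAt
    · intro x hx
      rw [ContinuousLinearMap.det_toSpanSingleton]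
      exact hx.2
  have h0 := key φ φ' hφ
  have h0' := key ψ ψ' hψ
  have h1 : MeasureTheory.volume ((φ '' {s | 0 < s ∧ φ' s = 0} ∪ ψ '' {s | 0 < s ∧ ψ' s = 0}) ∪ {0})
      = 0 := by
    rw [MeasureTheory.measure_union_null_iff, MeasureTheory.measure_union_null_iff]
    exact ⟨⟨h0, h0'⟩, by simp⟩
  have h2 : ¬ (Set.Ioo (c - δ) (c + δ) ⊆
      (φ '' {s | 0 < s ∧ φ' s = 0} ∪ ψ '' {s | 0 < s ∧ ψ' s = 0}) ∪ {0}) := by
    intro hsub
    have h3 := MeasureTheory.measure_mono_null hsub h1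
    rw [Real.volume_Ioo, ENNReal.ofReal_eq_zero] at h3
    linarith
  rw [Set.not_subset] at h2
  obtain ⟨c', hc', hn⟩ := h2
  refine ⟨c', fun h => hn (Or.inr h), ?_, ?_, ?_⟩
  · rw [abs_lt]
    constructor <;> linarith [hc'.1, hc'.2]
  · intro s hs hsc hs0
    exact hn (Or.inl (Or.inl ⟨s, ⟨hs, hs0⟩, hsc⟩))
  · intro s hs hsc hs0
    exact hn (Or.inl (Or.inr ⟨s, ⟨hs, hs0⟩, hsc⟩))

lemma nondegenerate_core (E E' : ℝ → ℝ) (hE : ∀ s, 0 < s → HasDerivAt E (E' s) s) (α c' : ℝ)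
    (n : ℕ) (t : ℕ → ℝ) (σ : ℝ) (ht : ∀ i, i ≤ n → 0 < t i) (hdec : ∀ i, i < n → t (i + 1) < t i)
    (hsg' : ∀ i, i ≤ n → 0 < σ * (-1) ^ i * (E (t i) - c' * (t i) ^ α))
    (hreg' : ∀ s, 0 < s → E s * s ^ (-α) = c' →
      E' s * s ^ (-α) + E s * (-α * s ^ (-α - 1)) ≠ 0) :
    ∃ Z : Finset ℝ, Z.card = n ∧ ∀ s ∈ Z, t n < s ∧ s < t 0 ∧
      E s - c' * s ^ α = 0 ∧ E' s - c' * (α * s ^ (α - 1)) ≠ 0 := by
  have hz : ∀ i, ∃ z : ℝ, i < n → (t (i + 1) < z ∧ z < t i ∧ E z - c' * z ^ α = 0) := by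
    intro i
    by_cases hi : i < n
    · have h1 := hsg' i hi.le
      have h2 := hsg' (i + 1) hi
      have hlt := hdec i hi
      have hpos := ht (i + 1) hi
      have hcont : ContinuousOn (fun s : ℝ => σ * (-1) ^ i * (E s - c' * s ^ α))
          (Set.Icc (t (i + 1)) (t i)) := by
        intro s hs
        have hs0 : 0 < s := lt_of_lt_of_le hpos hs.1
        have hEc : ContinuousAt E s := (hE s hs0).continuousAt
        have hpc : ContinuousAt (fun s : ℝ => s ^ α) s :=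
          Real.continuousAt_rpow_const s α (Or.inl hs0.ne')
        exact (continuousAt_const.mul (hEc.sub (continuousAt_const.mul hpc))).continuousWithinAt
      have h3 : (0 : ℝ) ∈ Set.Ioo (σ * (-1) ^ i * (E (t (i + 1)) - c' * (t (i + 1)) ^ α))
          (σ * (-1) ^ i * (E (t i) - c' * (t i) ^ α)) := by
        refine ⟨?_, h1⟩
        have : σ * (-1) ^ (i + 1) * (E (t (i + 1)) - c' * (t (i + 1)) ^ α) =
            -(σ * (-1) ^ i * (E (t (i + 1)) - c' * (t (i + 1)) ^ α)) := by ring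
        rw [this] at h2
        linarith
      obtain ⟨z, ⟨hz1, hz2⟩, hz3⟩ := intermediate_value_Ioo hlt.le hcont h3
      refine ⟨z, fun _ => ⟨hz1, hz2, ?_⟩⟩
      have hne : σ * (-1) ^ i ≠ 0 := by
        intro h0
        rw [h0, zero_mul] at h1
        exact lt_irrefl _ h1
      have hz3' : σ * (-1) ^ i * (E z - c' * z ^ α) = 0 := hz3
      exact (mul_eq_zero.1 hz3').resolve_left hne
    · exact ⟨0, fun h => absurd h hi⟩
  choose z hz using hz
  have hanti : ∀ j i, i ≤ j → j ≤ n → t j ≤ t i := by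
    intro j
    induction j with
    | zero =>
      intro i hi _
      have : i = 0 := Nat.le_zero.1 hi
      rw [this]
    | succ j ih =>
      intro i hi hj
      rcases Nat.lt_or_ge j i with h | h
      · have : i = j + 1 := by omega
        rw [this]
      · exact (hdec j hj).le.trans (ih i h (by omega))
  have hinj : Set.InjOn z (Finset.range n : Set ℕ) := by
    have key : ∀ i j, i < j → j < n → z j < z i := by
      intro i j hij hj
      have h1 := (hz j hj).2.1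
      have h2 := (hz i (by omega)).1
      have h3 := hanti j (i + 1) hij hj.le
      linarith
    intro i hi j hj hij
    have hi' : i < n := Finset.mem_range.1 (Finset.mem_coe.1 hi)
    have hj' : j < n := Finset.mem_range.1 (Finset.mem_coe.1 hj)
    rcases lt_trichotomy i j with h | h | h
    · have := key i j h hj'
      rw [hij] at this
      exact absurd this (lt_irrefl _)
    · exact h
    · have := key j i h hi'
      rw [hij] at this
      exact absurd this (lt_irrefl _)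
  refine ⟨(Finset.range n).image z, ?_, ?_⟩
  · rw [Finset.card_image_of_injOn hinj, Finset.card_range]
  · intro s hs
    obtain ⟨i, hi, rfl⟩ := Finset.mem_image.1 hs
    have hi' : i < n := Finset.mem_range.1 hi
    obtain ⟨hz1, hz2, hz3⟩ := hz i hi'
    have hpos : 0 < z i := lt_trans (ht (i + 1) hi') hz1
    refine ⟨lt_of_le_of_lt (hanti n (i + 1) hi' le_rfl) hz1,
      lt_of_lt_of_le hz2 (hanti i 0 (Nat.zero_le i) hi'.le), hz3, ?_⟩
    intro h0
    have hEz : E (z i) = c' * z i ^ α := by linarith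
    have hE'z : E' (z i) = c' * (α * z i ^ (α - 1)) := by linarith
    have hφ : E (z i) * z i ^ (-α) = c' := by
      rw [hEz, mul_assoc, ← Real.rpow_add hpos, add_neg_cancel, Real.rpow_zero, mul_one]
    apply hreg' (z i) hpos hφ
    rw [hEz, hE'z]
    have e1 : z i ^ (α - 1) * z i ^ (-α) = z i ^ (-1 : ℝ) := by
      rw [← Real.rpow_add hpos]; congr 1; ring
    have e2 : z i ^ α * z i ^ (-α - 1) = z i ^ (-1 : ℝ) := by
      rw [← Real.rpow_add hpos]; congr 1; ring
    calc c' * (α * z i ^ (α - 1)) * z i ^ (-α) + c' * z i ^ α * (-α * z i ^ (-α - 1))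
        = c' * α * (z i ^ (α - 1) * z i ^ (-α)) - c' * α * (z i ^ α * z i ^ (-α - 1)) := by ring
      _ = 0 := by rw [e1, e2]; ring

lemma nondegenerate_two
    (hreg : ∀ (φ φ' ψ ψ' : ℝ → ℝ), (∀ s, 0 < s → HasDerivAt φ (φ' s) s) →
      (∀ s, 0 < s → HasDerivAt ψ (ψ' s) s) → ∀ (c δ : ℝ), 0 < δ → c ≠ 0 →
      ∃ c' : ℝ, c' ≠ 0 ∧ |c' - c| < δ ∧ (∀ s, 0 < s → φ s = c' → φ' s ≠ 0) ∧
        ∀ s, 0 < s → ψ s = c' → ψ' s ≠ 0)
    (E E' F F' : ℝ → ℝ) (hE : ∀ s, 0 < s → HasDerivAt E (E' s) s)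
    (hF : ∀ s, 0 < s → HasDerivAt F (F' s) s) (α c : ℝ) (hc : c ≠ 0)
    (n q : ℕ) (hn : Alt (fun s => E s - c * s ^ α) n) (hq : AltD (fun s => F s - c * s ^ α) q) :
    ∃ (c' : ℝ) (Z W : Finset ℝ), c' ≠ 0 ∧ Z.card = n ∧ W.card = q ∧
      (∀ s ∈ Z, 0 < s ∧ s < 1 / 4 ∧
        E s - c' * s ^ α = 0 ∧ E' s - c' * (α * s ^ (α - 1)) ≠ 0) ∧
      (∀ s ∈ W, 1 / 4 < s ∧
        F s - c' * s ^ α = 0 ∧ F' s - c' * (α * s ^ (α - 1)) ≠ 0) := by
  obtain ⟨t, σ, ht, hdec, hsgn⟩ := hn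
  obtain ⟨u, ρ, hu, hdecu, hsgnu⟩ := hq
  have hev : ∀ᶠ c' in nhds c, ∀ i ∈ Finset.range (n + 1),
      0 < σ * (-1) ^ i * (E (t i) - c' * (t i) ^ α) := by
    rw [Filter.eventually_all_finset]
    intro i hi
    have hi' : i ≤ n := Nat.lt_succ_iff.1 (Finset.mem_range.1 hi)
    have hcont : Continuous (fun c' : ℝ => σ * (-1) ^ i * (E (t i) - c' * (t i) ^ α)) := by
      fun_prop
    exact hcont.continuousAt.eventually (lt_mem_nhds (hsgn i hi'))
  have hev2 : ∀ᶠ c' in nhds c, ∀ i ∈ Finset.range (q + 1),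
      0 < ρ * (-1) ^ i * (F (u i) - c' * (u i) ^ α) := by
    rw [Filter.eventually_all_finset]
    intro i hi
    have hi' : i ≤ q := Nat.lt_succ_iff.1 (Finset.mem_range.1 hi)
    have hcont : Continuous (fun c' : ℝ => ρ * (-1) ^ i * (F (u i) - c' * (u i) ^ α)) := by
      fun_prop
    exact hcont.continuousAt.eventually (lt_mem_nhds (hsgnu i hi'))
  obtain ⟨δ, hδ, hball⟩ := Metric.eventually_nhds_iff.1 (hev.and hev2)
  have hderE : ∀ s : ℝ, 0 < s → HasDerivAt (fun s => E s * s ^ (-α))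
      (E' s * s ^ (-α) + E s * (-α * s ^ (-α - 1))) s := by
    intro s hs
    exact (hE s hs).mul (Real.hasDerivAt_rpow_const (Or.inl hs.ne'))
  have hderF : ∀ s : ℝ, 0 < s → HasDerivAt (fun s => F s * s ^ (-α))
      (F' s * s ^ (-α) + F s * (-α * s ^ (-α - 1))) s := by
    intro s hs
    exact (hF s hs).mul (Real.hasDerivAt_rpow_const (Or.inl hs.ne'))
  obtain ⟨c', hc'0, hc'δ, hregE, hregF⟩ := hreg (fun s => E s * s ^ (-α))
    (fun s => E' s * s ^ (-α) + E s * (-α * s ^ (-α - 1)))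
    (fun s => F s * s ^ (-α))
    (fun s => F' s * s ^ (-α) + F s * (-α * s ^ (-α - 1))) hderE hderF c δ hδ hc
  have hb := hball (show dist c' c < δ by rw [Real.dist_eq]; exact hc'δ)
  obtain ⟨Z, hZ, hZ2⟩ := nondegenerate_core E E' hE α c' n t σ (fun i hi => (ht i hi).1) hdec
    (fun i hi => hb.1 i (Finset.mem_range.2 (Nat.lt_succ_of_le hi))) hregE
  obtain ⟨W, hW, hW2⟩ := nondegenerate_core F F' hF α c' q u ρ
    (fun i hi => lt_of_lt_of_le (by norm_num) (hu i hi)) hdecu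
    (fun i hi => hb.2 i (Finset.mem_range.2 (Nat.lt_succ_of_le hi))) hregF
  refine ⟨c', Z, W, hc'0, hZ, hW, ?_, ?_⟩
  · intro s hs
    obtain ⟨h1, h2, h3, h4⟩ := hZ2 s hs
    exact ⟨(ht n le_rfl).1.trans h1, h2.trans (ht 0 (Nat.zero_le n)).2, h3, h4⟩
  · intro s hs
    obtain ⟨h1, _, h3, h4⟩ := hW2 s hs
    exact ⟨lt_of_le_of_lt (hu q le_rfl) h1, h3, h4⟩

lemma psB_zero : ∀ n j : ℕ, n < 2 * j → psB n j = 0
  | 0, 0, h => by omega
  | 0, _ + 1, _ => by simp [psB]
  | 1, 0, h => by omega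
  | 1, _ + 1, _ => by simp [psB]
  | n + 2, 0, h => by omega
  | n + 2, j + 1, h => by
    rw [psB, psB_zero (n + 1) (j + 1) (by omega), psB_zero n j (by omega), add_zero]

lemma psB_top : ∀ k : ℕ, psB (2 * k) k = 2
  | 0 => by simp [psB]
  | k + 1 => by
    have h : 2 * (k + 1) = 2 * k + 2 := by ring
    rw [h, psB, psB_zero (2 * k + 1) (k + 1) (by omega), psB_top k, zero_add]

lemma psB_idC (X : ℂ) : ∀ n M : ℕ, n ≤ 2 * M + 1 → X ^ n + (1 - X) ^ n =
    ∑ j ∈ Finset.range (M + 1), ((-1) ^ j * (psB n j : ℂ)) * (X * (1 - X)) ^ j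
  | 0, M, _ => by
    rw [Finset.sum_range_succ']
    simp [psB]
    norm_num
  | 1, M, _ => by
    rw [Finset.sum_range_succ']
    simp [psB]
  | n + 2, 0, h => by omega
  | n + 2, M + 1, h => by
    have h1 := psB_idC X (n + 1) (M + 1) (by omega)
    have h2 := psB_idC X n M (by omega)
    rw [Finset.sum_range_succ'] at h1 ⊢
    have e : ∑ j ∈ Finset.range (M + 1),
        ((-1) ^ (j + 1) * (psB (n + 2) (j + 1) : ℂ)) * (X * (1 - X)) ^ (j + 1) =
        ∑ j ∈ Finset.range (M + 1),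
          ((-1) ^ (j + 1) * (psB (n + 1) (j + 1) : ℂ)) * (X * (1 - X)) ^ (j + 1) -
        X * (1 - X) * ∑ j ∈ Finset.range (M + 1), ((-1) ^ j * (psB n j : ℂ)) * (X * (1 - X)) ^ j := by
      rw [Finset.mul_sum, ← Finset.sum_sub_distrib]
      refine Finset.sum_congr rfl fun j _ => ?_
      rw [psB]
      push_cast
      ring
    rw [e, ← h2]
    have e2 : psB (n + 2) 0 = psB (n + 1) 0 := by rw [psB]
    rw [e2]
    have h3 : X ^ (n + 2) + (1 - X) ^ (n + 2) =
        (X ^ (n + 1) + (1 - X) ^ (n + 1)) - X * (1 - X) * (X ^ n + (1 - X) ^ n) := by ring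
    rw [h3, h1]
    ring

lemma power_sum_complex (k : ℕ) : ∃ a : ℕ → ℝ, (∀ j ≤ k, a j ≠ 0) ∧ a k = 2 * (-1) ^ k ∧
    ∀ X : ℂ, X ^ (2 * k) + (1 - X) ^ (2 * k) =
      ∑ j ∈ Finset.range (k + 1), (a j : ℂ) * (X * (1 - X)) ^ j := by
  refine ⟨fun j => (-1) ^ j * psB (2 * k) j, fun j hj => ?_, ?_, fun X => ?_⟩
  · exact mul_ne_zero (pow_ne_zero _ (by norm_num)) (psB_pos (2 * k) j (by omega)).ne'
  · show (-1) ^ k * psB (2 * k) k = 2 * (-1) ^ k
    rw [psB_top]
    ring
  · rw [psB_idC X (2 * k) k (by omega)]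
    refine Finset.sum_congr rfl fun j _ => ?_
    push_cast
    rfl

lemma diag_id (k : ℕ) (a : ℕ → ℝ)
    (hps : ∀ X : ℂ, X ^ (2 * k) + (1 - X) ^ (2 * k) =
      ∑ j ∈ Finset.range (k + 1), (a j : ℂ) * (X * (1 - X)) ^ j) (θ : ℝ) (hc : Real.cos θ ≠ 0) :
    ∑ j ∈ Finset.range (k + 1), a j * (1 / (4 * Real.cos θ ^ 2)) ^ j =
      2 * Real.cos (2 * k * θ) / (2 * Real.cos θ) ^ (2 * k) := by
  have hcc : ((Real.cos θ : ℝ) : ℂ) ≠ 0 := by exact_mod_cast hc
  have h2c : (2 * ((Real.cos θ : ℝ) : ℂ)) ≠ 0 := mul_ne_zero two_ne_zero hcc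
  have hsum : Complex.exp (θ * Complex.I) + Complex.exp (-(θ * Complex.I)) =
      2 * ((Real.cos θ : ℝ) : ℂ) := by
    rw [Complex.ofReal_cos, Complex.cos]
    rw [show -((θ:ℂ)) * Complex.I = -((θ:ℂ) * Complex.I) by ring]
    ring
  have hmul : Complex.exp (θ * Complex.I) * Complex.exp (-(θ * Complex.I)) = 1 := by
    rw [← Complex.exp_add]; simp
  set X : ℂ := Complex.exp (θ * Complex.I) / (2 * ((Real.cos θ : ℝ) : ℂ)) with hX
  have h1X : 1 - X = Complex.exp (-(θ * Complex.I)) / (2 * ((Real.cos θ : ℝ) : ℂ)) := by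
    rw [hX, eq_div_iff h2c, sub_mul, div_mul_cancel₀ _ h2c, ← hsum]
    ring
  have hXX : X * (1 - X) = ((1 / (4 * Real.cos θ ^ 2) : ℝ) : ℂ) := by
    rw [h1X, hX, div_mul_div_comm, hmul]
    push_cast
    ring
  have hpow : X ^ (2 * k) + (1 - X) ^ (2 * k) =
      ((2 * Real.cos (2 * k * θ) / (2 * Real.cos θ) ^ (2 * k) : ℝ) : ℂ) := by
    rw [h1X, hX, div_pow, div_pow, ← Complex.exp_nat_mul, ← Complex.exp_nat_mul, ← add_div]
    have : Complex.exp (((2 * k : ℕ) : ℂ) * (θ * Complex.I)) +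
        Complex.exp (((2 * k : ℕ) : ℂ) * -(θ * Complex.I)) =
        2 * ((Real.cos (2 * k * θ) : ℝ) : ℂ) := by
      rw [Complex.ofReal_cos, Complex.cos]
      push_cast
      rw [show (2 * (k:ℂ)) * ((θ:ℂ) * Complex.I) = 2 * (k:ℂ) * (θ:ℂ) * Complex.I by ring,
        show (2 * (k:ℂ)) * -((θ:ℂ) * Complex.I) = -(2 * (k:ℂ) * (θ:ℂ)) * Complex.I by ring]
      ring
    rw [this]
    push_cast
    ring
  have h := hps X
  rw [hpow, hXX] at h
  have h2 : ((2 * Real.cos (2 * k * θ) / (2 * Real.cos θ) ^ (2 * k) : ℝ) : ℂ) =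
      ((∑ j ∈ Finset.range (k + 1), a j * (1 / (4 * Real.cos θ ^ 2)) ^ j : ℝ) : ℂ) := by
    rw [h]
    push_cast
    rfl
  exact (Complex.ofReal_injective h2).symm

lemma diag_exact (k : ℕ) (hk : Odd k) (a : ℕ → ℝ) (hak : a k = 2 * (-1) ^ k)
    (hps : ∀ X : ℂ, X ^ (2 * k) + (1 - X) ^ (2 * k) =
      ∑ j ∈ Finset.range (k + 1), (a j : ℂ) * (X * (1 - X)) ^ j) :
    AltD (fun s => 2 * s ^ k - ∑ j ∈ Finset.range k, a j * s ^ j) k := by
  have hk0 : 0 < k := hk.pos
  have hkR : (0:ℝ) < k := by exact_mod_cast hk0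
  have hpi := Real.pi_pos
  have hak' : a k = -2 := by rw [hak, hk.neg_one_pow]; norm_num

  let θ : ℕ → ℝ := fun i => if i = 0 then Real.pi / 2 - Real.pi / (8 * k)
    else Real.pi * (k - i) / (2 * k)
  have hθ0 : θ 0 = Real.pi / 2 - Real.pi / (8 * k) := by simp [θ]
  have hθi : ∀ i, i ≠ 0 → θ i = Real.pi / 2 - Real.pi * i / (2 * k) := by
    intro i hi
    simp only [θ, hi, if_false]
    field_simp
  have hk1 : (1:ℝ) ≤ k := by exact_mod_cast hk0
  have h8 : Real.pi / (8 * k) < Real.pi / (2 * k) := by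
    apply div_lt_div_of_pos_left hpi (by positivity)
    nlinarith
  have h8' : 0 < Real.pi / (8 * k) := by positivity
  have hrange : ∀ i, i ≤ k → 0 ≤ θ i ∧ θ i < Real.pi / 2 := by
    intro i hi
    by_cases h : i = 0
    · rw [h, hθ0]
      have : Real.pi / (8 * k) ≤ Real.pi / 2 := by
        apply div_le_div_of_nonneg_left hpi.le (by norm_num)
        nlinarith
      constructor <;> linarith
    · rw [hθi i h]
      have hi1 : (1:ℝ) ≤ i := by exact_mod_cast Nat.one_le_iff_ne_zero.2 h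
      have hik : (i:ℝ) ≤ k := by exact_mod_cast hi
      have h1 : Real.pi * i / (2 * k) ≤ Real.pi / 2 := by
        rw [div_le_div_iff₀ (by positivity) (by norm_num)]
        nlinarith
      have h2 : 0 < Real.pi * i / (2 * k) := by positivity
      constructor <;> linarith
  have hdec : ∀ i, i < k → θ (i + 1) < θ i := by
    intro i hi
    rw [hθi (i+1) (by omega)]
    by_cases h : i = 0
    · subst h
      rw [hθ0]
      have : Real.pi * ((0 + 1 : ℕ) : ℝ) / (2 * k) = Real.pi / (2 * k) := by simp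
      rw [this]
      linarith
    · rw [hθi i h]
      have : Real.pi * i / (2 * k) < Real.pi * ((i + 1 : ℕ) : ℝ) / (2 * k) := by
        apply div_lt_div_of_pos_right _ (by positivity)
        push_cast
        nlinarith
      linarith
  have hcos : ∀ i, i ≤ k → 0 < Real.cos (θ i) := by
    intro i hi
    have := hrange i hi
    exact Real.cos_pos_of_mem_Ioo ⟨by linarith, this.2⟩
  refine ⟨fun i => 1 / (4 * Real.cos (θ i) ^ 2), 1, ?_, ?_, ?_⟩
  · intro i hi
    have h1 := hcos i hi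
    have h2 : Real.cos (θ i) ≤ 1 := Real.cos_le_one _
    apply div_le_div_of_nonneg_left (by norm_num) (by positivity)
    nlinarith
  · intro i hi
    have h1 := hcos i hi.le
    have h2 := hcos (i+1) hi
    have h3 : Real.cos (θ i) < Real.cos (θ (i+1)) := by
      apply Real.cos_lt_cos_of_nonneg_of_le_pi_div_two (hrange (i+1) hi).1
        (hrange i hi.le).2.le (hdec i hi)
    apply div_lt_div_of_pos_left (by norm_num) (by positivity)
    nlinarith
  · intro i hi
    have h1 := hcos i hi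
    have hid := diag_id k a hps (θ i) h1.ne'
    rw [Finset.sum_range_succ, hak'] at hid
    have hR : 2 * (1 / (4 * Real.cos (θ i) ^ 2)) ^ k -
        ∑ j ∈ Finset.range k, a j * (1 / (4 * Real.cos (θ i) ^ 2)) ^ j =
        - (2 * Real.cos (2 * k * θ i) / (2 * Real.cos (θ i)) ^ (2 * k)) := by
      linarith
    show 0 < 1 * (-1) ^ i * (2 * (1 / (4 * Real.cos (θ i) ^ 2)) ^ k -
        ∑ j ∈ Finset.range k, a j * (1 / (4 * Real.cos (θ i) ^ 2)) ^ j)
    rw [hR]
    have hden : 0 < (2 * Real.cos (θ i)) ^ (2 * k) := by positivity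
    have key : 0 < (-1) ^ i * (- Real.cos (2 * k * θ i)) := by
      by_cases h : i = 0
      · subst h
        rw [hθ0]
        have e : 2 * (k:ℝ) * (Real.pi / 2 - Real.pi / (8 * k)) = k * Real.pi - Real.pi / 4 := by
          field_simp
          ring
        rw [e, Real.cos_nat_mul_pi_sub, hk.neg_one_pow, Real.cos_pi_div_four]
        have : 0 < Real.sqrt 2 := by positivity
        simp only [pow_zero]
        linarith
      · rw [hθi i h]
        have e : 2 * (k:ℝ) * (Real.pi / 2 - Real.pi * i / (2 * k)) = k * Real.pi - i * Real.pi := by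
          field_simp
        rw [e, Real.cos_nat_mul_pi_sub, hk.neg_one_pow, Real.cos_nat_mul_pi]
        have : (-1:ℝ) ^ i * -(-1 * (-1) ^ i) = 1 := by
          rw [neg_mul, neg_neg, one_mul, ← mul_pow]; norm_num
        rw [this]
        norm_num
    have e2 : 1 * (-1) ^ i * -(2 * Real.cos (2 * k * θ i) / (2 * Real.cos (θ i)) ^ (2 * k)) =
        2 * ((-1) ^ i * (- Real.cos (2 * k * θ i))) / (2 * Real.cos (θ i)) ^ (2 * k) := by ring
    rw [e2]
    positivity

lemma diag_persist (k : ℕ) (a : ℕ → ℝ)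
    (h : AltD (fun s => 2 * s ^ k - ∑ j ∈ Finset.range k, a j * s ^ j) k) :
    ∃ δ : ℝ, 0 < δ ∧ ∀ (ε : ℕ → ℚ) (c : ℕ → ℝ),
      (∀ j < k, |(ε j : ℝ)| < δ ∧ |c j - a j| < δ) →
      AltD (fun s => 2 * s ^ k - ∑ j ∈ Finset.range k, c j * s ^ ((j : ℝ) + (ε j : ℝ))) k := by
  obtain ⟨t, σ, ht, hdec, hpos⟩ := h
  set p0 : (Fin k → ℝ) × (Fin k → ℝ) := (fun _ => 0, fun j => a j) with hp0
  have hev : ∀ᶠ p : (Fin k → ℝ) × (Fin k → ℝ) in nhds p0, ∀ i ∈ Finset.range (k + 1),
      0 < σ * (-1) ^ i * (2 * t i ^ k - ∑ j : Fin k, p.2 j * t i ^ (((j : ℕ) : ℝ) + p.1 j)) := by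
    rw [Filter.eventually_all_finset]
    intro i hi
    have hik : i ≤ k := by
      rw [Finset.mem_range] at hi; omega
    have hti : 0 < t i := by
      have := ht i hik; linarith
    have hcont : Continuous (fun p : (Fin k → ℝ) × (Fin k → ℝ) =>
        σ * (-1) ^ i * (2 * t i ^ k - ∑ j : Fin k, p.2 j * t i ^ (((j : ℕ) : ℝ) + p.1 j))) := by
      refine continuous_const.mul (continuous_const.sub (continuous_finsetSum _ fun j _ => ?_))
      refine Continuous.mul ((continuous_apply j).comp continuous_snd) ?_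
      exact (Real.continuous_const_rpow hti.ne').comp
        (continuous_const.add ((continuous_apply j).comp continuous_fst))
    have h0 : 0 < (fun p : (Fin k → ℝ) × (Fin k → ℝ) =>
        σ * (-1) ^ i * (2 * t i ^ k - ∑ j : Fin k, p.2 j * t i ^ (((j : ℕ) : ℝ) + p.1 j))) p0 := by
      have h1 := hpos i hik
      simp only [hp0, add_zero, Real.rpow_natCast]
      beta_reduce at h1
      rw [Finset.sum_range] at h1
      exact h1
    exact (hcont.tendsto p0).eventually (lt_mem_nhds h0)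
  rw [Metric.eventually_nhds_iff] at hev
  obtain ⟨δ, hδ, hev⟩ := hev
  refine ⟨δ, hδ, fun ε c hc => ⟨t, σ, ht, hdec, fun i hi => ?_⟩⟩
  have hd : dist ((fun j : Fin k => ((ε j : ℚ) : ℝ)), (fun j : Fin k => c j)) p0 < δ := by
    rw [hp0, Prod.dist_eq, max_lt_iff]
    constructor
    · rw [dist_pi_lt_iff hδ]
      intro j
      have := (hc j j.2).1
      rw [Real.dist_eq, sub_zero]
      exact this
    · rw [dist_pi_lt_iff hδ]
      intro j
      have := (hc j j.2).2
      rw [Real.dist_eq]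
      exact this
  have h2 := hev hd i (Finset.mem_range.mpr (by omega))
  simp only
  rw [Finset.sum_range]
  exact h2

lemma exists_zeros_two_of (k : ℕ) (hk : 1 ≤ k) (a : ℕ → ℝ) (ha : ∀ j ≤ k, a j ≠ 0)
    (hpers : ∃ δ : ℝ, 0 < δ ∧ ∀ (ε : ℕ → ℚ) (c : ℕ → ℝ),
      (∀ j < k, |(ε j : ℝ)| < δ ∧ |c j - a j| < δ) →
      AltD (fun s => 2 * s ^ k - ∑ j ∈ Finset.range k, c j * s ^ ((j : ℝ) + (ε j : ℝ))) k)
    (halt : ∀ (δ : ℝ), 0 < δ →
      ∃ (ε : ℕ → ℚ) (c : ℕ → ℝ),
      (∀ j < k, |ε j| < 1 / 4 ∧ |(ε j : ℝ)| < δ ∧ c j ≠ 0 ∧ |c j - a j| < δ) ∧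
      Alt (fun s => ∑ j ∈ Finset.range (k + 1), a j * s ^ j -
        ∑ j ∈ Finset.range k, c j * s ^ ((j : ℝ) + (ε j : ℝ))) (2 * k))
    (hnd : ∀ (E E' F F' : ℝ → ℝ), (∀ s, 0 < s → HasDerivAt E (E' s) s) →
      (∀ s, 0 < s → HasDerivAt F (F' s) s) → ∀ (α c : ℝ), c ≠ 0 →
      ∀ (n q : ℕ), Alt (fun s => E s - c * s ^ α) n → AltD (fun s => F s - c * s ^ α) q →
      ∃ (c' : ℝ) (Z W : Finset ℝ), c' ≠ 0 ∧ Z.card = n ∧ W.card = q ∧
        (∀ s ∈ Z, 0 < s ∧ s < 1 / 4 ∧
          E s - c' * s ^ α = 0 ∧ E' s - c' * (α * s ^ (α - 1)) ≠ 0) ∧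
        (∀ s ∈ W, 1 / 4 < s ∧
          F s - c' * s ^ α = 0 ∧ F' s - c' * (α * s ^ (α - 1)) ≠ 0)) :
    ∃ (ε : ℕ → ℚ) (c : ℕ → ℝ) (Z W : Finset ℝ),
      (∀ j < k, |ε j| < 1 / 4 ∧ c j ≠ 0) ∧ Z.card = 2 * k ∧ W.card = k ∧
      (∀ s ∈ Z, 0 < s ∧ s < 1 / 4 ∧
        ∑ j ∈ Finset.range (k + 1), a j * s ^ j -
          ∑ j ∈ Finset.range k, c j * s ^ ((j : ℝ) + (ε j : ℝ)) = 0 ∧
        ∑ j ∈ Finset.range (k + 1), a j * (j * s ^ (j - 1)) -
          ∑ j ∈ Finset.range k, c j * (((j : ℝ) + (ε j : ℝ)) * s ^ ((j : ℝ) + (ε j : ℝ) - 1)) ≠ 0) ∧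
      (∀ s ∈ W, 1 / 4 < s ∧
        2 * s ^ k - ∑ j ∈ Finset.range k, c j * s ^ ((j : ℝ) + (ε j : ℝ)) = 0 ∧
        2 * (k * s ^ (k - 1)) -
          ∑ j ∈ Finset.range k, c j * (((j : ℝ) + (ε j : ℝ)) * s ^ ((j : ℝ) + (ε j : ℝ) - 1)) ≠ 0) := by
  obtain ⟨δ, hδ, hper⟩ := hpers
  obtain ⟨ε, c, hεc, hAlt⟩ := halt δ hδ
  have hAltD := hper ε c (fun j hj => ⟨(hεc j hj).2.1, (hεc j hj).2.2.2⟩)
  have hsplit : ∀ (f : ℕ → ℝ), ∑ j ∈ Finset.range k, f j = f 0 + ∑ j ∈ Finset.Ico 1 k, f j := by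
    intro f
    rw [Finset.range_eq_Ico, Finset.sum_eq_sum_Ico_succ_bot (by omega)]
  obtain ⟨c', Z, W, hc', hZc, hWc, hZ, hW⟩ := hnd
    (fun s => ∑ j ∈ Finset.range (k + 1), a j * s ^ j -
      ∑ j ∈ Finset.Ico 1 k, c j * s ^ ((j : ℝ) + (ε j : ℝ)))
    (fun s => ∑ j ∈ Finset.range (k + 1), a j * (j * s ^ (j - 1)) -
      ∑ j ∈ Finset.Ico 1 k, c j * (((j : ℝ) + (ε j : ℝ)) * s ^ ((j : ℝ) + (ε j : ℝ) - 1)))
    (fun s => 2 * s ^ k - ∑ j ∈ Finset.Ico 1 k, c j * s ^ ((j : ℝ) + (ε j : ℝ)))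
    (fun s => 2 * (k * s ^ (k - 1)) -
      ∑ j ∈ Finset.Ico 1 k, c j * (((j : ℝ) + (ε j : ℝ)) * s ^ ((j : ℝ) + (ε j : ℝ) - 1)))
    (by
      intro s hs
      apply HasDerivAt.sub
      · apply HasDerivAt.fun_sum
        intro j _
        exact (hasDerivAt_pow j s).const_mul (a j)
      · apply HasDerivAt.fun_sum
        intro j _
        exact (Real.hasDerivAt_rpow_const (Or.inl hs.ne')).const_mul (c j))
    (by
      intro s hs
      apply HasDerivAt.sub
      · exact (hasDerivAt_pow k s).const_mul 2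
      · apply HasDerivAt.fun_sum
        intro j _
        exact (Real.hasDerivAt_rpow_const (Or.inl hs.ne')).const_mul (c j))
    (ε 0 : ℝ) (c 0) (hεc 0 (by omega)).2.2.1 (2 * k) k
    (by
      have e : (fun s : ℝ => (∑ j ∈ Finset.range (k + 1), a j * s ^ j -
          ∑ j ∈ Finset.Ico 1 k, c j * s ^ ((j : ℝ) + (ε j : ℝ))) - c 0 * s ^ (ε 0 : ℝ))
          = (fun s => ∑ j ∈ Finset.range (k + 1), a j * s ^ j -
          ∑ j ∈ Finset.range k, c j * s ^ ((j : ℝ) + (ε j : ℝ))) := by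
        funext s
        rw [hsplit]
        simp only [Nat.cast_zero, zero_add]
        ring
      rw [e]
      exact hAlt)
    (by
      have e : (fun s : ℝ => (2 * s ^ k -
          ∑ j ∈ Finset.Ico 1 k, c j * s ^ ((j : ℝ) + (ε j : ℝ))) - c 0 * s ^ (ε 0 : ℝ))
          = (fun s => 2 * s ^ k -
          ∑ j ∈ Finset.range k, c j * s ^ ((j : ℝ) + (ε j : ℝ))) := by
        funext s
        rw [hsplit]
        simp only [Nat.cast_zero, zero_add]
        ring
      rw [e]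
      exact hAltD)
  have hup : ∀ j ∈ Finset.Ico 1 k, Function.update c 0 c' j = c j := by
    intro j hj
    rw [Finset.mem_Ico] at hj
    exact Function.update_of_ne (by omega) _ _
  have e2 : ∀ s : ℝ, ∑ j ∈ Finset.Ico 1 k, Function.update c 0 c' j * s ^ ((j : ℝ) + (ε j : ℝ))
      = ∑ j ∈ Finset.Ico 1 k, c j * s ^ ((j : ℝ) + (ε j : ℝ)) := fun s =>
    Finset.sum_congr rfl fun j hj => by rw [hup j hj]
  have e3 : ∀ s : ℝ, ∑ j ∈ Finset.Ico 1 k, Function.update c 0 c' j *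
        (((j : ℝ) + (ε j : ℝ)) * s ^ ((j : ℝ) + (ε j : ℝ) - 1))
      = ∑ j ∈ Finset.Ico 1 k, c j *
        (((j : ℝ) + (ε j : ℝ)) * s ^ ((j : ℝ) + (ε j : ℝ) - 1)) := fun s =>
    Finset.sum_congr rfl fun j hj => by rw [hup j hj]
  refine ⟨ε, Function.update c 0 c', Z, W, ?_, hZc, hWc, ?_, ?_⟩
  · intro j hj
    refine ⟨(hεc j hj).1, ?_⟩
    by_cases h0 : j = 0
    · subst h0
      simpa using hc'
    · rw [Function.update_of_ne h0]
      exact (hεc j hj).2.2.1
  · intro s hs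
    obtain ⟨h1, h2, h3, h4⟩ := hZ s hs
    refine ⟨h1, h2, ?_, ?_⟩
    · rw [hsplit, e2]
      simp only [Nat.cast_zero, zero_add, Function.update_self]
      linarith
    · rw [hsplit, e3]
      simp only [Nat.cast_zero, zero_add, Function.update_self]
      intro hcon
      apply h4
      linarith
  · intro s hs
    obtain ⟨h1, h3, h4⟩ := hW s hs
    refine ⟨h1, ?_, ?_⟩
    · rw [hsplit, e2]
      simp only [Nat.cast_zero, zero_add, Function.update_self]
      linarith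
    · rw [hsplit, e3]
      simp only [Nat.cast_zero, zero_add, Function.update_self]
      intro hcon
      apply h4
      linarith

lemma sum_eval_diag (k : ℕ) (hk : 1 ≤ k) (ε : ℕ → ℚ) (c : ℕ → ℝ)
    (cc : Fin k ⊕ Bool → ℝ) (A B : Fin k ⊕ Bool → ℚ)
    (hcl : ∀ j : Fin k, cc (Sum.inl j) = -c j) (hcr : ∀ b : Bool, cc (Sum.inr b) = 1)
    (hA : ∀ j : Fin k, A (Sum.inl j) = (j : ℕ) + ε j) (hB : ∀ j : Fin k, B (Sum.inl j) = (j : ℕ) + ε j)
    (hAf : A (Sum.inr false) = 2 * k) (hBf : B (Sum.inr false) = 0)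
    (hAt : A (Sum.inr true) = 0) (hBt : B (Sum.inr true) = 2 * k)
    (s : ℝ) (hs : 0 < s) :
    (∑ i, cc i * s ^ (((A i : ℝ) + (B i : ℝ)) / 2) =
      2 * s ^ k - ∑ j ∈ Finset.range k, c j * s ^ ((j : ℝ) + (ε j : ℝ))) ∧
    (∑ i, cc i * ((A i : ℝ) + (B i : ℝ)) * s ^ (((A i : ℝ) + (B i : ℝ)) / 2) =
      2 * s * (2 * (k * s ^ (k - 1)) -
        ∑ j ∈ Finset.range k, c j * (((j : ℝ) + (ε j : ℝ)) * s ^ ((j : ℝ) + (ε j : ℝ) - 1)))) := by
  have hexpl : ∀ j : Fin k, ((A (Sum.inl j) : ℝ) + (B (Sum.inl j) : ℝ)) / 2 =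
      ((j : ℕ) : ℝ) + (ε j : ℝ) := by
    intro j; rw [hA, hB]; push_cast; ring
  have hexpl2 : ∀ j : Fin k, ((A (Sum.inl j) : ℝ) + (B (Sum.inl j) : ℝ)) =
      2 * (((j : ℕ) : ℝ) + (ε j : ℝ)) := by
    intro j; rw [hA, hB]; push_cast; ring
  have ht2 : ((A (Sum.inr true) : ℝ) + (B (Sum.inr true) : ℝ)) = 2 * (k : ℝ) := by
    rw [hAt, hBt]; push_cast; ring
  have hf2 : ((A (Sum.inr false) : ℝ) + (B (Sum.inr false) : ℝ)) = 2 * (k : ℝ) := by
    rw [hAf, hBf]; push_cast; ring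
  have hk2 : (2 * (k : ℝ)) / 2 = (k : ℝ) := by ring
  have hsk : s ^ k = s * s ^ (k - 1) := by
    obtain ⟨m, rfl⟩ : ∃ m, k = m + 1 := ⟨k - 1, by omega⟩
    rw [Nat.add_sub_cancel, pow_succ]; ring
  constructor
  · rw [Fintype.sum_sum_type, Fintype.sum_bool, Finset.sum_range]
    have h1 : ∑ j : Fin k, cc (Sum.inl j) * s ^ (((A (Sum.inl j) : ℝ) + (B (Sum.inl j) : ℝ)) / 2) =
        - ∑ j : Fin k, c j * s ^ (((j : ℕ) : ℝ) + (ε j : ℝ)) := by
      rw [← Finset.sum_neg_distrib]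
      apply Finset.sum_congr rfl
      intro j _
      rw [hexpl, hcl]; ring
    rw [h1, ht2, hf2, hcr, hcr, hk2, Real.rpow_natCast]
    ring
  · rw [Fintype.sum_sum_type, Fintype.sum_bool, Finset.sum_range]
    have h1 : ∑ j : Fin k, cc (Sum.inl j) * ((A (Sum.inl j) : ℝ) + (B (Sum.inl j) : ℝ)) *
          s ^ (((A (Sum.inl j) : ℝ) + (B (Sum.inl j) : ℝ)) / 2) =
        - (2 * s * ∑ j : Fin k, c j * ((((j : ℕ) : ℝ) + (ε j : ℝ)) *
          s ^ (((j : ℕ) : ℝ) + (ε j : ℝ) - 1))) := by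
      rw [Finset.mul_sum, ← Finset.sum_neg_distrib]
      apply Finset.sum_congr rfl
      intro j _
      rw [hexpl, hcl, hexpl2, Real.rpow_sub_one hs.ne']
      field_simp
    rw [h1, ht2, hf2, hcr, hcr, hk2, Real.rpow_natCast, hsk]
    ring

lemma point_solution_diag {ι : Type} [Fintype ι] (c : ι → ℝ) (A B : ι → ℝ) (K M : ℕ)
    (hK : 0 < K) (a b : ι → ℕ) (ha : ∀ i, (a i : ℝ) = K * A i + M)
    (hb : ∀ i, (b i : ℝ) = K * B i + M)
    (s : ℝ) (hs : 1 / 4 < s)
    (hS : ∑ i, c i * s ^ ((A i + B i) / 2) = 0)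
    (hS' : ∑ i, c i * (A i + B i) * s ^ ((A i + B i) / 2) ≠ 0) :
    IsSimplePositiveSolution
      (monomial (e K 0) 1 + monomial (e 0 K) (-1) +
      monomial (e (2 * K) 0) (-1) + monomial (e 0 (2 * K)) 1)
      (∑ i, monomial (e (a i) (b i)) (c i))
      (![s ^ ((1 : ℝ) / (2 * K)), s ^ ((1 : ℝ) / (2 * K))]) := by
  have hK' : (0:ℝ) < (K:ℝ) := by exact_mod_cast hK
  have hKne : (K:ℝ) ≠ 0 := hK'.ne'
  have hs0 : 0 < s := by linarith
  set r : ℝ := s ^ ((1 : ℝ) / (2 * K)) with hr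
  have hr0 : 0 < r := Real.rpow_pos_of_pos hs0 _
  have hrn : ∀ n : ℕ, r ^ n = s ^ ((n:ℝ) / (2 * K)) := by
    intro n
    rw [hr, ← Real.rpow_natCast, ← Real.rpow_mul hs0.le]
    congr 1
    ring
  set q : ℝ := Real.sqrt s with hq
  have hq0 : 0 < q := Real.sqrt_pos.2 hs0
  have hqq : q * q = s := Real.mul_self_sqrt hs0.le
  have hqhalf : 1 / 2 < q := by
    by_contra hcon
    push Not at hcon
    nlinarith
  have hrK : r ^ K = q := by
    rw [hrn, hq, Real.sqrt_eq_rpow]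
    congr 1
    field_simp
  have hr2K : r ^ (2 * K) = s := by
    rw [two_mul, pow_add, hrK, hqq]
  set L : ℝ := s ^ ((M:ℝ) / K) with hL
  have hL0 : 0 < L := Real.rpow_pos_of_pos hs0 _
  have hT : ∀ i, r ^ (a i) * r ^ (b i) = L * s ^ ((A i + B i) / 2) := by
    intro i
    have e1 : ((a i + b i : ℕ) : ℝ) / (2 * K) = (M:ℝ) / K + (A i + B i) / 2 := by
      push_cast
      rw [ha, hb]; field_simp; ring
    rw [← pow_add, hrn, e1, Real.rpow_add hs0, hL]
  set p : Fin 2 → ℝ := ![r, r] with hp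
  have p0 : p 0 = r := rfl
  have p1 : p 1 = r := rfl
  have ef : eval p (monomial (e K 0) 1 + monomial (e 0 K) (-1) +
      monomial (e (2 * K) 0) (-1) + monomial (e 0 (2 * K)) 1 : MvPolynomial (Fin 2) ℝ) = 0 := by
    rw [map_add, map_add, map_add, eval_mono, eval_mono, eval_mono, eval_mono, p0, p1, hrK, hr2K]
    ring
  have eg : eval p (∑ i, monomial (e (a i) (b i)) (c i) : MvPolynomial (Fin 2) ℝ) = 0 := by
    rw [map_sum]
    have : ∀ i, eval p (monomial (e (a i) (b i)) (c i) : MvPolynomial (Fin 2) ℝ)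
        = L * (c i * s ^ ((A i + B i) / 2)) := by
      intro i
      rw [eval_mono, p0, p1, mul_assoc, hT i]
      ring
    rw [Finset.sum_congr rfl (fun i _ => this i), ← Finset.mul_sum, hS, mul_zero]
  set D : ℝ := K * q - 2 * K * s with hD
  have hD0 : D ≠ 0 := by
    have : D = (K:ℝ) * q * (1 - 2 * q) := by rw [hD, ← hqq]; ring
    rw [this]
    have h1 : 1 - 2 * q < 0 := by linarith
    exact mul_ne_zero (by positivity) h1.ne
  have fx : r * eval p (pderiv 0 (monomial (e K 0) 1 + monomial (e 0 K) (-1) +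
      monomial (e (2 * K) 0) (-1) + monomial (e 0 (2 * K)) 1 : MvPolynomial (Fin 2) ℝ)) = D := by
    rw [map_add, map_add, map_add, map_add, map_add, map_add, mul_add, mul_add, mul_add]
    have h1 := eval_pderiv_zero p K 0 1
    have h2 := eval_pderiv_zero p 0 K (-1)
    have h3 := eval_pderiv_zero p (2 * K) 0 (-1)
    have h4 := eval_pderiv_zero p 0 (2 * K) 1
    rw [p0, p1] at h1 h2 h3 h4
    rw [h1, h2, h3, h4, hrK, hr2K, hD]
    push_cast
    ring
  have fy : r * eval p (pderiv 1 (monomial (e K 0) 1 + monomial (e 0 K) (-1) +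
      monomial (e (2 * K) 0) (-1) + monomial (e 0 (2 * K)) 1 : MvPolynomial (Fin 2) ℝ)) = -D := by
    rw [map_add, map_add, map_add, map_add, map_add, map_add, mul_add, mul_add, mul_add]
    have h1 := eval_pderiv_one p K 0 1
    have h2 := eval_pderiv_one p 0 K (-1)
    have h3 := eval_pderiv_one p (2 * K) 0 (-1)
    have h4 := eval_pderiv_one p 0 (2 * K) 1
    rw [p0, p1] at h1 h2 h3 h4
    rw [h1, h2, h3, h4, hrK, hr2K, hD]
    push_cast
    ring
  have gx : r * eval p (pderiv 0 (∑ i, monomial (e (a i) (b i)) (c i) : MvPolynomial (Fin 2) ℝ)) =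
      ∑ i, (K * A i + M) * (L * (c i * s ^ ((A i + B i) / 2))) := by
    rw [map_sum, map_sum, Finset.mul_sum]
    refine Finset.sum_congr rfl (fun i _ => ?_)
    have h1 := eval_pderiv_zero p (a i) (b i) (c i)
    rw [p0, p1] at h1
    rw [h1, mul_assoc, hT i, ← ha i]
    ring
  have gy : r * eval p (pderiv 1 (∑ i, monomial (e (a i) (b i)) (c i) : MvPolynomial (Fin 2) ℝ)) =
      ∑ i, (K * B i + M) * (L * (c i * s ^ ((A i + B i) / 2))) := by
    rw [map_sum, map_sum, Finset.mul_sum]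
    refine Finset.sum_congr rfl (fun i _ => ?_)
    have h1 := eval_pderiv_one p (a i) (b i) (c i)
    rw [p0, p1] at h1
    rw [h1, mul_assoc, hT i, ← hb i]
    ring
  refine ⟨?_, ef, eg, ?_⟩
  · intro i
    fin_cases i
    · exact hr0
    · exact hr0
  · intro h0
    apply hS'
    have key : (r * eval p (pderiv 0 (monomial (e K 0) 1 + monomial (e 0 K) (-1) +
      monomial (e (2 * K) 0) (-1) + monomial (e 0 (2 * K)) 1 : MvPolynomial (Fin 2) ℝ))) *
        (r * eval p (pderiv 1 (∑ i, monomial (e (a i) (b i)) (c i) : MvPolynomial (Fin 2) ℝ))) -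
        (r * eval p (pderiv 1 (monomial (e K 0) 1 + monomial (e 0 K) (-1) +
      monomial (e (2 * K) 0) (-1) + monomial (e 0 (2 * K)) 1 : MvPolynomial (Fin 2) ℝ))) *
        (r * eval p (pderiv 0 (∑ i, monomial (e (a i) (b i)) (c i) : MvPolynomial (Fin 2) ℝ))) = 0 := by
      have := congrArg (fun t => r * r * t) h0
      simp only [mul_zero] at this
      rw [← this]
      ring
    rw [fx, fy, gx, gy] at key
    have e3 : D * (∑ i, (K * B i + M) * (L * (c i * s ^ ((A i + B i) / 2)))) -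
        -D * (∑ i, (K * A i + M) * (L * (c i * s ^ ((A i + B i) / 2)))) =
        D * L * K * (∑ i, c i * (A i + B i) * s ^ ((A i + B i) / 2)) +
        2 * D * L * M * (∑ i, c i * s ^ ((A i + B i) / 2)) := by
      rw [Finset.mul_sum, Finset.mul_sum, Finset.mul_sum, Finset.mul_sum, ← Finset.sum_sub_distrib,
        ← Finset.sum_add_distrib]
      refine Finset.sum_congr rfl (fun i _ => ?_)
      ring
    rw [e3, hS, mul_zero, add_zero] at key
    have hne : D * L * K ≠ 0 := mul_ne_zero (mul_ne_zero hD0 hL0.ne') hKne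
    exact (mul_eq_zero.1 key).resolve_left hne

lemma persist_one_deriv (P : MvPolynomial (Fin 2) ℝ) (p : Fin 2 → ℝ) :
    HasStrictFDerivAt (fun q : Fin 2 → ℝ => eval q P)
      (eval p (pderiv 0 P) • (ContinuousLinearMap.proj (R := ℝ) (φ := fun _ : Fin 2 => ℝ) 0) +
        eval p (pderiv 1 P) • (ContinuousLinearMap.proj (R := ℝ) (φ := fun _ : Fin 2 => ℝ) 1)) p := by
  induction P using MvPolynomial.induction_on with
  | C a =>
    simp only [eval_C, pderiv_C, map_zero, zero_smul, add_zero]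
    exact hasStrictFDerivAt_const a p
  | add P Q hP hQ =>
    simp only [map_add]
    refine (hP.fun_add hQ).congr_fderiv ?_
    ext v
    simp
    ring
  | mul_X P i hP =>
    have hi : HasStrictFDerivAt (fun q : Fin 2 → ℝ => q i)
      (ContinuousLinearMap.proj (R := ℝ) (φ := fun _ : Fin 2 => ℝ) i) p :=
      (ContinuousLinearMap.proj (R := ℝ) (φ := fun _ : Fin 2 => ℝ) i).hasStrictFDerivAt
    simp only [map_mul, eval_X]
    refine (hP.fun_mul hi).congr_fderiv ?_
    ext v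
    fin_cases i
    · simp [pderiv_X]
      ring
    · simp [pderiv_X]
      ring

lemma persist_one_cont (P : MvPolynomial (Fin 2) ℝ) :
    Continuous (fun z : (Fin 2 → ℝ) × ℝ => eval z.1 P) :=
  (MvPolynomial.continuous_eval P).comp continuous_fst

open Topology in
lemma persist_one (f g M : MvPolynomial (Fin 2) ℝ)
    (hM : ∀ q : Fin 2 → ℝ, (∀ i, 0 < q i) → 0 < eval q M) (p : Fin 2 → ℝ)
    (hp : IsSimplePositiveSolution f g p) (U : Set (Fin 2 → ℝ)) (hU : U ∈ 𝓝 p) :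
    ∀ᶠ δ in 𝓝 (0 : ℝ), ∃ q ∈ U, IsSimplePositiveSolution (f + C δ * M) g q := by
  obtain ⟨hpos, hf0, hg0, hJ⟩ := hp
  let pr0 : (Fin 2 → ℝ) →L[ℝ] ℝ := ContinuousLinearMap.proj (R := ℝ) (φ := fun _ : Fin 2 => ℝ) 0
  let pr1 : (Fin 2 → ℝ) →L[ℝ] ℝ := ContinuousLinearMap.proj (R := ℝ) (φ := fun _ : Fin 2 => ℝ) 1
  let fs : ((Fin 2 → ℝ) × ℝ) →L[ℝ] (Fin 2 → ℝ) := ContinuousLinearMap.fst ℝ (Fin 2 → ℝ) ℝ
  let sn : ((Fin 2 → ℝ) × ℝ) →L[ℝ] ℝ := ContinuousLinearMap.snd ℝ (Fin 2 → ℝ) ℝ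
  have hfst : HasStrictFDerivAt (fun z : (Fin 2 → ℝ) × ℝ => z.1) fs (p, (0 : ℝ)) := fs.hasStrictFDerivAt
  have hsnd : HasStrictFDerivAt (fun z : (Fin 2 → ℝ) × ℝ => z.2) sn (p, (0 : ℝ)) := sn.hasStrictFDerivAt
  have hP : ∀ P : MvPolynomial (Fin 2) ℝ, HasStrictFDerivAt (fun z : (Fin 2 → ℝ) × ℝ => eval z.1 P)
      ((eval p (pderiv 0 P) • pr0 + eval p (pderiv 1 P) • pr1).comp fs) (p, (0 : ℝ)) := by
    intro P
    exact (persist_one_deriv P p).comp (p, (0 : ℝ)) hfst
  have h1 := (hP f).add (hsnd.mul (hP M))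
  have h2 := ((h1.prodMk (hP g)).prodMk hsnd)
  have hmap := h2.map_nhds_eq_of_surj ?_
  · have hV : {z : (Fin 2 → ℝ) × ℝ | z.1 ∈ U ∧ (∀ i, 0 < z.1 i) ∧
        (eval z.1 (pderiv 0 f) + z.2 * eval z.1 (pderiv 0 M)) * eval z.1 (pderiv 1 g) -
          (eval z.1 (pderiv 1 f) + z.2 * eval z.1 (pderiv 1 M)) * eval z.1 (pderiv 0 g) ≠ 0}
        ∈ 𝓝 (p, (0 : ℝ)) := by
      have a1 : ∀ᶠ z : (Fin 2 → ℝ) × ℝ in 𝓝 (p, (0 : ℝ)), z.1 ∈ U :=
        continuous_fst.continuousAt.eventually (show ∀ᶠ q in 𝓝 (p, (0:ℝ)).1, q ∈ U from hU)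
      have a2 : ∀ᶠ z : (Fin 2 → ℝ) × ℝ in 𝓝 (p, (0 : ℝ)), ∀ i, 0 < z.1 i := by
        rw [Filter.eventually_all]
        intro i
        have hc : Continuous (fun z : (Fin 2 → ℝ) × ℝ => z.1 i) :=
          (continuous_apply i).comp continuous_fst
        exact hc.continuousAt.eventually (lt_mem_nhds (hpos i))
      have a3 : ∀ᶠ z : (Fin 2 → ℝ) × ℝ in 𝓝 (p, (0 : ℝ)),
          (eval z.1 (pderiv 0 f) + z.2 * eval z.1 (pderiv 0 M)) * eval z.1 (pderiv 1 g) -
          (eval z.1 (pderiv 1 f) + z.2 * eval z.1 (pderiv 1 M)) * eval z.1 (pderiv 0 g) ≠ 0 := by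
        have hc : Continuous (fun z : (Fin 2 → ℝ) × ℝ =>
            (eval z.1 (pderiv 0 f) + z.2 * eval z.1 (pderiv 0 M)) * eval z.1 (pderiv 1 g) -
            (eval z.1 (pderiv 1 f) + z.2 * eval z.1 (pderiv 1 M)) * eval z.1 (pderiv 0 g)) :=
          (((persist_one_cont _).add (continuous_snd.mul (persist_one_cont _))).mul
            (persist_one_cont _)).sub
          (((persist_one_cont _).add (continuous_snd.mul (persist_one_cont _))).mul
            (persist_one_cont _))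
        apply hc.continuousAt.eventually_ne
        simpa using hJ
      filter_upwards [a1, a2, a3] with z b1 b2 b3 using ⟨b1, b2, b3⟩
    have himg := Filter.image_mem_map (m := fun z : (Fin 2 → ℝ) × ℝ =>
      ((eval z.1 f + z.2 * eval z.1 M, eval z.1 g), z.2)) hV
    have hmap' : Filter.map (fun z : (Fin 2 → ℝ) × ℝ =>
      ((eval z.1 f + z.2 * eval z.1 M, eval z.1 g), z.2)) (𝓝 (p, (0 : ℝ))) = 𝓝 (((0 : ℝ), (0 : ℝ)), (0 : ℝ)) := by
      have e := hmap
      have e2 : ((eval p f + (0 : ℝ) * eval p M, eval p g), (0 : ℝ)) = (((0 : ℝ), (0 : ℝ)), (0 : ℝ)) := by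
        rw [hf0, hg0, zero_mul, add_zero]
      rw [← e2]
      exact e
    rw [hmap'] at himg
    have hcont : Continuous (fun δ : ℝ => ((((0 : ℝ), (0 : ℝ)), δ) : (ℝ × ℝ) × ℝ)) := by fun_prop
    have hev := (hcont.tendsto (0 : ℝ)) himg
    rw [Filter.mem_map] at hev
    filter_upwards [hev] with δ hδ
    obtain ⟨⟨q, δ'⟩, ⟨b1, b2, b3⟩, hz⟩ := hδ
    simp only [Prod.mk.injEq] at hz
    obtain ⟨⟨c1, c2⟩, rfl⟩ := hz
    refine ⟨q, b1, b2, ?_, c2, ?_⟩
    · rw [map_add, map_mul, eval_C]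
      exact c1
    · have d : ∀ i : Fin 2, pderiv i (f + C δ' * M) = pderiv i f + C δ' * pderiv i M := by
        intro i
        rw [map_add, pderiv_C_mul, C_mul']
      rw [d 0, d 1, map_add, map_add, map_mul, map_mul, eval_C]
      exact b3
  · rw [LinearMap.range_eq_top]
    rintro ⟨⟨a, b⟩, d⟩
    obtain ⟨X, hX⟩ : ∃ X : ℝ, X = ((a - d * eval p M) * eval p (pderiv 1 g) - b * eval p (pderiv 1 f)) /
      (eval p (pderiv 0 f) * eval p (pderiv 1 g) - eval p (pderiv 1 f) * eval p (pderiv 0 g)) := ⟨_, rfl⟩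
    obtain ⟨Y, hY⟩ : ∃ Y : ℝ, Y = (eval p (pderiv 0 f) * b - eval p (pderiv 0 g) * (a - d * eval p M)) /
      (eval p (pderiv 0 f) * eval p (pderiv 1 g) - eval p (pderiv 1 f) * eval p (pderiv 0 g)) := ⟨_, rfl⟩
    have key1 : eval p (pderiv 0 f) * X + eval p (pderiv 1 f) * Y + d * eval p M = a := by
      rw [hX, hY, mul_div_assoc', mul_div_assoc', ← add_div, div_add' _ _ _ hJ, div_eq_iff hJ]
      ring
    have key2 : eval p (pderiv 0 g) * X + eval p (pderiv 1 g) * Y = b := by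
      rw [hX, hY, mul_div_assoc', mul_div_assoc', ← add_div, div_eq_iff hJ]
      ring
    refine ⟨(![X, Y], d), ?_⟩
    apply Prod.ext
    · apply Prod.ext
      · simp [pr0, pr1, fs, sn]
        linear_combination key1
      · simp [pr0, pr1, fs, sn]
        linear_combination key2
    · simp [pr0, pr1, fs, sn]

open Topology in
lemma add_monomial
    (hper : ∀ (f g M : MvPolynomial (Fin 2) ℝ),
      (∀ q : Fin 2 → ℝ, (∀ i, 0 < q i) → 0 < eval q M) → ∀ (p : Fin 2 → ℝ),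
      IsSimplePositiveSolution f g p → ∀ (U : Set (Fin 2 → ℝ)), U ∈ 𝓝 p →
      ∀ᶠ δ in 𝓝 (0 : ℝ), ∃ q ∈ U, IsSimplePositiveSolution (f + C δ * M) g q)
    (f g : MvPolynomial (Fin 2) ℝ) (T : Finset (Fin 2 → ℝ))
    (hT : ∀ p ∈ T, IsSimplePositiveSolution f g p) :
    ∃ (f' : MvPolynomial (Fin 2) ℝ) (T' : Finset (Fin 2 → ℝ)),
      f'.support.card = f.support.card + 1 ∧ T'.card = T.card ∧
      ∀ p ∈ T', IsSimplePositiveSolution f' g p := by
  classical
  obtain ⟨v, hv⟩ := Infinite.exists_notMem_finset f.support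
  have hM : ∀ q : Fin 2 → ℝ, (∀ i, 0 < q i) →
      0 < eval q (monomial v (1 : ℝ) : MvPolynomial (Fin 2) ℝ) := by
    intro q hq
    rw [eval_monomial, one_mul]
    exact Finset.prod_pos fun i _ => pow_pos (hq i) _
  obtain ⟨U, hU, hdis⟩ := (Finset.finite_toSet T).t2_separation
  have h1 : ∀ p ∈ T, ∀ᶠ δ in 𝓝 (0 : ℝ), ∃ q ∈ U p,
      IsSimplePositiveSolution (f + C δ * monomial v (1 : ℝ)) g q := fun p hp =>
    hper f g _ hM p (hT p hp) (U p) ((hU p).2.mem_nhds (hU p).1)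
  have h2 : ∀ᶠ δ in 𝓝 (0 : ℝ), ∀ p ∈ T, ∃ q ∈ U p,
      IsSimplePositiveSolution (f + C δ * monomial v (1 : ℝ)) g q :=
    (Filter.eventually_all_finset T).2 h1
  have h3 : ∀ᶠ δ in 𝓝[≠] (0 : ℝ), (∀ p ∈ T, ∃ q ∈ U p,
      IsSimplePositiveSolution (f + C δ * monomial v (1 : ℝ)) g q) ∧ δ ∈ ({0}ᶜ : Set ℝ) :=
    (h2.filter_mono nhdsWithin_le_nhds).and self_mem_nhdsWithin
  obtain ⟨δ, hδ, hδ0⟩ := h3.exists
  have hδne : δ ≠ 0 := hδ0
  choose! q hq using hδ
  refine ⟨f + C δ * monomial v (1 : ℝ), T.image q, ?_, ?_, ?_⟩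
  · have hs : (f + C δ * monomial v (1 : ℝ)).support = insert v f.support := by
      ext m
      rw [Finset.mem_insert, mem_support_iff, mem_support_iff, C_mul_monomial, mul_one, coeff_add,
        coeff_monomial]
      by_cases hm : v = m
      · subst hm
        have h0 : coeff v f = 0 := notMem_support_iff.1 hv
        rw [if_pos rfl, h0, zero_add]
        exact ⟨fun _ => Or.inl rfl, fun _ => hδne⟩
      · rw [if_neg hm, add_zero]
        constructor
        · intro h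
          exact Or.inr h
        · rintro (h | h)
          · exact absurd h.symm hm
          · exact h
    rw [hs, Finset.card_insert_of_notMem hv]
  · apply Finset.card_image_of_injOn
    intro a ha b hb hab
    by_contra hne
    have h4 := hdis ha hb hne
    have h5 : q a ∈ U a := (hq a ha).1
    have h6 : q a ∈ U b := by
      have h7 : q a = q b := hab
      rw [h7]
      exact (hq b hb).1
    exact (Set.disjoint_left.1 h4) h5 h6
  · intro p hp
    obtain ⟨a, ha, rfl⟩ := Finset.mem_image.1 hp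
    exact (hq a ha).2

lemma e_zero (a b : ℕ) : (e a b) 0 = a := by simp [e]

lemma e_one (a b : ℕ) : (e a b) 1 = b := by simp [e]

lemma eq_e (m : Fin 2 →₀ ℕ) (a b : ℕ) : m = e a b ↔ m 0 = a ∧ m 1 = b := by
  constructor
  · rintro rfl
    exact ⟨e_zero a b, e_one a b⟩
  · rintro ⟨h0, h1⟩
    ext i
    fin_cases i
    · show m 0 = (e a b) 0
      rw [e_zero, h0]
    · show m 1 = (e a b) 1
      rw [e_one, h1]

lemma e_le (m : Fin 2 →₀ ℕ) (a b : ℕ) : e a b ≤ m ↔ a ≤ m 0 ∧ b ≤ m 1 := by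
  rw [Finsupp.le_def, Fin.forall_fin_two, e_zero, e_one]

lemma coeff_step (K : ℕ) (P : MvPolynomial (Fin 2) ℝ) (c : ℝ) (m : Fin 2 →₀ ℕ) :
    coeff m (P * (monomial (e K 0) 1 + monomial (e 0 K) 1 + C (-c))) =
      (if K ≤ m 0 then coeff (e (m 0 - K) (m 1)) P else 0)
      + (if K ≤ m 1 then coeff (e (m 0) (m 1 - K)) P else 0) - c * coeff m P := by
  rw [mul_add, mul_add, coeff_add, coeff_add, coeff_mul_monomial', coeff_mul_monomial',
    mul_comm P (C (-c)), coeff_C_mul]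
  have h1 : m - e K 0 = e (m 0 - K) (m 1) := by
    rw [eq_e]
    simp [Finsupp.tsub_apply, e_zero, e_one]
  have h2 : m - e 0 K = e (m 0) (m 1 - K) := by
    rw [eq_e]
    simp [Finsupp.tsub_apply, e_zero, e_one]
  rw [h1, h2]
  simp only [e_le, zero_le, and_true, true_and, mul_one]
  ring

lemma main_coeff (K : ℕ) (hK : 0 < K) (l : ℕ → ℝ) (hl : ∀ i, 0 < l i) (r : ℕ) :
    (∀ a b, a + b ≤ r → 0 < (-1 : ℝ) ^ (r + a + b) * coeff (e (K * a) (K * b))
      (∏ i ∈ Finset.range r, (monomial (e K 0) 1 + monomial (e 0 K) 1 + C (-(l i))) :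
        MvPolynomial (Fin 2) ℝ)) ∧
    (∀ m, coeff m (∏ i ∈ Finset.range r, (monomial (e K 0) 1 + monomial (e 0 K) 1 + C (-(l i))) :
        MvPolynomial (Fin 2) ℝ) ≠ 0 → ∃ a b, a + b ≤ r ∧ m = e (K * a) (K * b)) := by
  induction r with
  | zero =>
    constructor
    · intro a b hab
      have ha : a = 0 := by omega
      have hb : b = 0 := by omega
      subst ha hb
      have : e (K * 0) (K * 0) = 0 := by
        symm
        rw [eq_e]
        simp
      rw [this]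
      simp
    · intro m hm
      rw [Finset.prod_range_zero, coeff_one] at hm
      have h0 : m = 0 := by
        by_contra hne
        exact hm (if_neg (fun h => hne h.symm))
      refine ⟨0, 0, le_rfl, ?_⟩
      rw [h0, eq_e]
      simp
  | succ r ih =>
    obtain ⟨ih1, ih2⟩ := ih
    rw [Finset.prod_range_succ]
    set P : MvPolynomial (Fin 2) ℝ :=
      ∏ i ∈ Finset.range r, (monomial (e K 0) 1 + monomial (e 0 K) 1 + C (-(l i))) with hP
    constructor
    · intro a b hab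
      rw [coeff_step, e_zero, e_one]

      have t1 : 0 ≤ (-1 : ℝ) ^ (r + 1 + a + b) *
          (if K ≤ K * a then coeff (e (K * a - K) (K * b)) P else 0) ∧ (1 ≤ a →
          0 < (-1 : ℝ) ^ (r + 1 + a + b) *
          (if K ≤ K * a then coeff (e (K * a - K) (K * b)) P else 0)) := by
        rcases Nat.eq_zero_or_pos a with ha | ha
        · subst ha
          rw [if_neg (by rw [mul_zero]; omega), mul_zero]
          exact ⟨le_rfl, fun h => absurd h (by omega)⟩
        · obtain ⟨a', rfl⟩ : ∃ a', a = a' + 1 := ⟨a - 1, by omega⟩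
          have hle : K ≤ K * (a' + 1) := Nat.le_mul_of_pos_right K ha
          have hsub : K * (a' + 1) - K = K * a' := by
            rw [mul_add, mul_one, Nat.add_sub_cancel]
          rw [if_pos hle, hsub]
          have h1 := ih1 a' b (by omega)
          have h2 : (-1 : ℝ) ^ (r + 1 + (a' + 1) + b) = (-1 : ℝ) ^ (r + a' + b) := by
            rw [show r + 1 + (a' + 1) + b = (r + a' + b) + 2 by ring, pow_add]
            norm_num
          rw [h2]
          exact ⟨h1.le, fun _ => h1⟩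
      have t2 : 0 ≤ (-1 : ℝ) ^ (r + 1 + a + b) *
          (if K ≤ K * b then coeff (e (K * a) (K * b - K)) P else 0) ∧ (1 ≤ b →
          0 < (-1 : ℝ) ^ (r + 1 + a + b) *
          (if K ≤ K * b then coeff (e (K * a) (K * b - K)) P else 0)) := by
        rcases Nat.eq_zero_or_pos b with hb | hb
        · subst hb
          rw [if_neg (by rw [mul_zero]; omega), mul_zero]
          exact ⟨le_rfl, fun h => absurd h (by omega)⟩
        · obtain ⟨b', rfl⟩ : ∃ b', b = b' + 1 := ⟨b - 1, by omega⟩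
          have hle : K ≤ K * (b' + 1) := Nat.le_mul_of_pos_right K hb
          have hsub : K * (b' + 1) - K = K * b' := by
            rw [mul_add, mul_one, Nat.add_sub_cancel]
          rw [if_pos hle, hsub]
          have h1 := ih1 a b' (by omega)
          have h2 : (-1 : ℝ) ^ (r + 1 + a + (b' + 1)) = (-1 : ℝ) ^ (r + a + b') := by
            rw [show r + 1 + a + (b' + 1) = (r + a + b') + 2 by ring, pow_add]
            norm_num
          rw [h2]
          exact ⟨h1.le, fun _ => h1⟩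
      have hs : (-1 : ℝ) ^ (r + 1 + a + b) = -((-1 : ℝ) ^ (r + a + b)) := by
        rw [show r + 1 + a + b = (r + a + b) + 1 by ring, pow_succ]
        ring
      have t3 : 0 ≤ (-1 : ℝ) ^ (r + 1 + a + b) * (-(l r * coeff (e (K * a) (K * b)) P)) ∧
          (a + b ≤ r → 0 < (-1 : ℝ) ^ (r + 1 + a + b) *
            (-(l r * coeff (e (K * a) (K * b)) P))) := by
        rcases le_or_gt (a + b) r with h | h
        · have h1 := mul_pos (hl r) (ih1 a b h)
          have h2 : (-1 : ℝ) ^ (r + 1 + a + b) * (-(l r * coeff (e (K * a) (K * b)) P))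
              = l r * ((-1 : ℝ) ^ (r + a + b) * coeff (e (K * a) (K * b)) P) := by
            rw [hs]; ring
          rw [h2]
          exact ⟨h1.le, fun _ => h1⟩
        · have h0 : coeff (e (K * a) (K * b)) P = 0 := by
            by_contra hne
            obtain ⟨a', b', hab', he⟩ := ih2 _ hne
            rw [eq_e, e_zero, e_one] at he
            have ha' : a = a' := Nat.eq_of_mul_eq_mul_left hK he.1
            have hb' : b = b' := Nat.eq_of_mul_eq_mul_left hK he.2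
            omega
          rw [h0, mul_zero, neg_zero, mul_zero]
          exact ⟨le_rfl, fun h' => absurd h' (by omega)⟩
      have hsplit : (-1 : ℝ) ^ (r + 1 + a + b) *
          ((if K ≤ K * a then coeff (e (K * a - K) (K * b)) P else 0) +
            (if K ≤ K * b then coeff (e (K * a) (K * b - K)) P else 0) -
            l r * coeff (e (K * a) (K * b)) P)
          = (-1 : ℝ) ^ (r + 1 + a + b) *
            (if K ≤ K * a then coeff (e (K * a - K) (K * b)) P else 0)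
          + (-1 : ℝ) ^ (r + 1 + a + b) *
            (if K ≤ K * b then coeff (e (K * a) (K * b - K)) P else 0)
          + (-1 : ℝ) ^ (r + 1 + a + b) * (-(l r * coeff (e (K * a) (K * b)) P)) := by ring
      rw [hsplit]
      rcases le_or_gt (a + b) r with h | h
      · have := t3.2 h
        linarith [t1.1, t2.1]
      · rcases Nat.eq_zero_or_pos a with ha | ha
        · have := t2.2 (by omega)
          linarith [t1.1, t3.1]
        · have := t1.2 ha
          linarith [t2.1, t3.1]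
    · intro m hm
      rw [coeff_step] at hm
      by_cases c3 : coeff m P = 0
      · by_cases c1 : (if K ≤ m 0 then coeff (e (m 0 - K) (m 1)) P else 0) = 0
        · rw [c1, c3, zero_add, mul_zero, sub_zero] at hm
          by_cases hk : K ≤ m 1
          · rw [if_pos hk] at hm
            obtain ⟨a, b, hab, he⟩ := ih2 _ hm
            rw [eq_e, e_zero, e_one] at he
            refine ⟨a, b + 1, by omega, ?_⟩
            rw [eq_e]
            refine ⟨he.1, ?_⟩
            rw [mul_add, mul_one]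
            omega
          · rw [if_neg hk] at hm
            exact absurd rfl hm
        · by_cases hk : K ≤ m 0
          · rw [if_pos hk] at c1
            obtain ⟨a, b, hab, he⟩ := ih2 _ c1
            rw [eq_e, e_zero, e_one] at he
            refine ⟨a + 1, b, by omega, ?_⟩
            rw [eq_e]
            refine ⟨?_, he.2⟩
            rw [mul_add, mul_one]
            omega
          · rw [if_neg hk] at c1
            exact absurd rfl c1
      · obtain ⟨a, b, hab, he⟩ := ih2 _ c3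
        exact ⟨a, b, by omega, he⟩

lemma support_card_prod (K : ℕ) (hK : 0 < K) (r : ℕ) (l : ℕ → ℝ) (hl : ∀ i, 0 < l i) :
    (∏ i ∈ Finset.range r, (monomial (e K 0) 1 + monomial (e 0 K) 1 + C (-(l i))) :
      MvPolynomial (Fin 2) ℝ).support.card = (r + 1) * (r + 2) / 2 := by
  obtain ⟨h1, h2⟩ := main_coeff K hK l hl r
  set P : MvPolynomial (Fin 2) ℝ :=
    ∏ i ∈ Finset.range r, (monomial (e K 0) 1 + monomial (e 0 K) 1 + C (-(l i))) with hP
  have hcard : ((Finset.range (r + 1)).sigma (fun n => Finset.range (n + 1))).card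
      = (r + 1) * (r + 2) / 2 := by
    rw [Finset.card_sigma]
    simp only [Finset.card_range]
    have h3 := Finset.sum_range_id (r + 2)
    rw [Finset.sum_range_succ'] at h3
    rw [add_zero] at h3
    rw [h3, mul_comm]
    congr 1
  rw [← hcard]
  symm
  refine Finset.card_bij (fun (x : Σ _ : ℕ, ℕ) _ => e (K * x.2) (K * (x.1 - x.2))) ?_ ?_ ?_
  · rintro ⟨n, a⟩ hx
    rw [Finset.mem_sigma, Finset.mem_range, Finset.mem_range] at hx
    simp only at hx
    rw [mem_support_iff]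
    have h4 := h1 a (n - a) (by omega)
    intro h5
    simp only at h5
    rw [h5, mul_zero] at h4
    exact lt_irrefl _ h4
  · rintro ⟨n, a⟩ hx ⟨n', a'⟩ hx' he
    rw [Finset.mem_sigma, Finset.mem_range, Finset.mem_range] at hx hx'
    simp only at hx hx' he
    rw [eq_e, e_zero, e_one] at he
    have ha : a = a' := Nat.eq_of_mul_eq_mul_left hK he.1
    have hb : n - a = n' - a' := Nat.eq_of_mul_eq_mul_left hK he.2
    have hn : n = n' := by omega
    subst ha hn
    rfl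
  · intro m hm
    rw [mem_support_iff] at hm
    obtain ⟨a, b, hab, he⟩ := h2 m hm
    refine ⟨⟨a + b, a⟩, ?_, ?_⟩
    · rw [Finset.mem_sigma, Finset.mem_range, Finset.mem_range]
      simp only
      omega
    · simp only
      rw [he, Nat.add_sub_cancel_left]

open Topology in
lemma prod_solutions
    (hmul : ∀ (h f g : MvPolynomial (Fin 2) ℝ) (p : Fin 2 → ℝ), eval p h ≠ 0 →
      IsSimplePositiveSolution f g p → IsSimplePositiveSolution (h * f) g p)
    (m g : MvPolynomial (Fin 2) ℝ) (n : ℕ)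
    (hall : ∀ᶠ δ in 𝓝 (0 : ℝ), ∃ T' : Finset (Fin 2 → ℝ), T'.card = n ∧
      ∀ p ∈ T', IsSimplePositiveSolution ((m + C (-1)) + C δ) g p) (r : ℕ) :
    ∃ l : ℕ → ℝ, (∀ i, 0 < l i) ∧ ∃ T : Finset (Fin 2 → ℝ), T.card = r * n ∧
      ∀ p ∈ T, IsSimplePositiveSolution (∏ i ∈ Finset.range r, (m + C (-(l i)))) g p := by
  classical
  obtain ⟨ε, hε, hball⟩ := Metric.eventually_nhds_iff.mp hall
  set ρ : ℝ := min ε 1 with hρ
  have hρ0 : 0 < ρ := lt_min hε one_pos
  have hρ1 : ρ ≤ 1 := min_le_right _ _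
  have hρε : ρ ≤ ε := min_le_left _ _
  let δ : ℕ → ℝ := fun i => ρ / ((i : ℝ) + 2)
  have hδ0 : ∀ i, 0 < δ i := fun i => by
    have : (0 : ℝ) < (i : ℝ) + 2 := by positivity
    exact div_pos hρ0 this
  have hδlt : ∀ i, δ i < ρ := fun i => by
    have h2 : (1 : ℝ) < (i : ℝ) + 2 := by
      have : (0 : ℝ) ≤ (i : ℝ) := Nat.cast_nonneg i
      linarith
    exact div_lt_self hρ0 h2
  have hδinj : ∀ i j, δ i = δ j → i = j := by
    intro i j hij
    have hi : (0 : ℝ) < (i : ℝ) + 2 := by positivity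
    have hj : (0 : ℝ) < (j : ℝ) + 2 := by positivity
    have h1 : ρ / ((i : ℝ) + 2) = ρ / ((j : ℝ) + 2) := hij
    rw [div_eq_div_iff hi.ne' hj.ne'] at h1
    have h2 := mul_left_cancel₀ hρ0.ne' h1
    have h3 : (i : ℝ) = j := by linarith
    exact_mod_cast h3
  have hT : ∀ i, ∃ T' : Finset (Fin 2 → ℝ), T'.card = n ∧
      ∀ p ∈ T', IsSimplePositiveSolution ((m + C (-1)) + C (δ i)) g p := by
    intro i
    apply hball
    rw [Real.dist_eq, sub_zero, abs_of_pos (hδ0 i)]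
    exact lt_of_lt_of_le (hδlt i) hρε
  choose T hTc hTs using hT
  have hpoly : ∀ i, (m + C (-1)) + C (δ i) = m + C (-(1 - δ i)) := by
    intro i
    rw [add_assoc, ← C_add]
    congr 2
    ring
  have hval : ∀ i, ∀ p ∈ T i, eval p m = 1 - δ i := by
    intro i p hp
    have h1 := (hTs i p hp).2.1
    rw [hpoly] at h1
    simp only [map_add, eval_C] at h1
    linarith
  refine ⟨fun i => 1 - δ i, fun i => ?_, (Finset.range r).biUnion T, ?_, ?_⟩
  · have := hδlt i
    simp only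
    linarith
  · rw [Finset.card_biUnion]
    · simp [hTc]
    · intro i _ j _ hij
      change Disjoint (T i) (T j)
      rw [Finset.disjoint_left]
      intro p hp1 hp2
      apply hij
      apply hδinj
      have h1 := hval i p hp1
      have h2 := hval j p hp2
      linarith
  · intro p hp
    obtain ⟨i, hi, hpi⟩ := Finset.mem_biUnion.mp hp
    rw [← Finset.prod_erase_mul _ _ hi]
    apply hmul
    · rw [map_prod]
      refine Finset.prod_ne_zero_iff.mpr fun j hj => ?_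
      rw [map_add, eval_C, hval i p hpi]
      intro h0
      apply (Finset.mem_erase.mp hj).1
      apply hδinj
      linarith
    · rw [← hpoly]
      exact hTs i p hpi

open Topology in
lemma persist_all
    (hper : ∀ (f g M : MvPolynomial (Fin 2) ℝ),
      (∀ q : Fin 2 → ℝ, (∀ i, 0 < q i) → 0 < eval q M) → ∀ (p : Fin 2 → ℝ),
      IsSimplePositiveSolution f g p → ∀ (U : Set (Fin 2 → ℝ)), U ∈ 𝓝 p →
      ∀ᶠ δ in 𝓝 (0 : ℝ), ∃ q ∈ U, IsSimplePositiveSolution (f + C δ * M) g q)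
    (f g : MvPolynomial (Fin 2) ℝ) (T : Finset (Fin 2 → ℝ))
    (hT : ∀ p ∈ T, IsSimplePositiveSolution f g p) :
    ∀ᶠ δ in 𝓝 (0 : ℝ), ∃ T' : Finset (Fin 2 → ℝ), T'.card = T.card ∧
      ∀ p ∈ T', IsSimplePositiveSolution (f + C δ) g p := by
  classical
  obtain ⟨U, hU, hdisj⟩ := (T.finite_toSet).t2_separation
  have h1 : ∀ p ∈ T, ∀ᶠ δ in 𝓝 (0 : ℝ), ∃ q ∈ U p, IsSimplePositiveSolution (f + C δ) g q := by
    intro p hp
    have h := hper f g 1 (by intro q _; simp) p (hT p hp) (U p) ((hU p).2.mem_nhds (hU p).1)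
    filter_upwards [h] with δ hδ
    simpa using hδ
  have h2 := (Filter.eventually_all_finset T).2 h1
  filter_upwards [h2] with δ hδ
  choose q hqU hqs using hδ
  refine ⟨T.attach.image (fun p => q p.1 p.2), ?_, ?_⟩
  · rw [Finset.card_image_of_injective, Finset.card_attach]
    rintro ⟨a, ha⟩ ⟨b, hb⟩ hab
    simp only at hab
    apply Subtype.ext
    by_contra hne
    have hd := hdisj ha hb hne
    have := Set.disjoint_left.1 hd (hqU a ha)
    apply this
    rw [hab]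
    exact hqU b hb
  · intro p hp
    rw [Finset.mem_image] at hp
    obtain ⟨a, _, rfl⟩ := hp
    exact hqs a.1 a.2

lemma mul_simple (h f g : MvPolynomial (Fin 2) ℝ) (p : Fin 2 → ℝ) (hh : eval p h ≠ 0)
    (hp : IsSimplePositiveSolution f g p) : IsSimplePositiveSolution (h * f) g p := by
  obtain ⟨h1, h2, h3, h4⟩ := hp
  refine ⟨h1, ?_, h3, ?_⟩
  · rw [map_mul, h2, mul_zero]
  · have e : ∀ i : Fin 2, eval p (pderiv i (h * f)) = eval p h * eval p (pderiv i f) := by
      intro i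
      rw [Derivation.leibniz]
      simp only [smul_eq_mul, map_add, map_mul]
      rw [h2]; ring
    rw [e, e]
    have : eval p h * eval p (pderiv 0 f) * eval p (pderiv 1 g) -
        eval p h * eval p (pderiv 1 f) * eval p (pderiv 0 g) =
        eval p h * (eval p (pderiv 0 f) * eval p (pderiv 1 g) -
          eval p (pderiv 1 f) * eval p (pderiv 0 g)) := by ring
    rw [this]
    exact mul_ne_zero hh h4

private theorem sca_sign (l : ℕ → ℝ) (hl : ∀ i, 0 < l i) (r : ℕ) :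
    ∀ j, j ≤ r → 0 < (-1 : ℝ) ^ (r + j) *
      (∏ i ∈ Finset.range r, (Polynomial.X - Polynomial.C (l i))).coeff j := by
  induction r with
  | zero =>
    intro j hj
    have : j = 0 := by omega
    subst this
    simp
  | succ r ih =>
    have hdeg : (∏ i ∈ Finset.range r, (Polynomial.X - Polynomial.C (l i))).natDegree = r := by
      rw [Polynomial.natDegree_prod_of_monic _ _ (fun i _ => Polynomial.monic_X_sub_C _)]
      simp
    intro j hj
    rw [Finset.prod_range_succ]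
    rcases j with _ | k
    · rw [Polynomial.mul_coeff_zero]
      have h0 := ih 0 (Nat.zero_le _)
      have h1 : (Polynomial.X - Polynomial.C (l r)).coeff 0 = - l r := by simp
      rw [h1]
      have h2 := mul_pos h0 (hl r)
      have h3 : (-1 : ℝ) ^ (r + 1 + 0) = - (-1 : ℝ) ^ (r + 0) := by
        rw [add_zero, add_zero, pow_succ]; ring
      rw [h3]
      linarith
    · rw [Polynomial.coeff_mul_X_sub_C]
      have h0 := ih k (by omega)
      have h3 : (-1 : ℝ) ^ (r + 1 + (k + 1)) = (-1 : ℝ) ^ (r + k) := by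
        have : r + 1 + (k + 1) = r + k + 2 := by ring
        rw [this, pow_add]; norm_num
      rw [h3]
      have h4 : (-1 : ℝ) ^ (r + k) *
          (∏ i ∈ Finset.range r, (Polynomial.X - Polynomial.C (l i))).coeff (k + 1) ≤ 0 := by
        rcases Nat.lt_or_ge r (k + 1) with h | h
        · rw [Polynomial.coeff_eq_zero_of_natDegree_lt (by rw [hdeg]; exact h)]
          simp
        · have h5 := ih (k + 1) h
          have h6 : (-1 : ℝ) ^ (r + (k + 1)) = - (-1 : ℝ) ^ (r + k) := by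
            rw [← add_assoc, pow_succ]; ring
          rw [h6] at h5
          linarith
      have h7 := mul_nonneg (neg_nonneg.2 h4) (hl r).le
      linarith

private theorem sca_g (j a : ℕ) (ha : a < j + 2) :
    ((if a = 0 then (0 : ℝ) else (j.choose (a - 1) : ℝ)) - (j.choose a : ℝ)) = 0 ↔ 2 * a = j + 1 := by
  rcases a with _ | b
  · simp
  · have hb : b ≤ j := by omega
    rw [if_neg (by omega)]
    simp only [Nat.add_sub_cancel]
    rw [sub_eq_zero]
    constructor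
    · intro h
      have h' : j.choose b = j.choose (b + 1) := by exact_mod_cast h
      have h1 := Nat.choose_succ_right_eq j b
      rw [← h'] at h1
      have h2 : 0 < j.choose b := Nat.choose_pos hb
      have h3 := Nat.eq_of_mul_eq_mul_left h2 h1
      omega
    · intro h
      have hj : j = 2 * b + 1 := by omega
      subst hj
      exact_mod_cast (Nat.choose_symm_half b).symm

private theorem sca_count (j : ℕ) :
    ((Finset.range (j + 2)).filter fun a => ¬ (2 * a = j + 1)).card = j + 2 - j % 2 := by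
  have h := Finset.card_filter_add_card_filter_not (s := Finset.range (j + 2))
    (fun a => 2 * a = j + 1)
  rw [Finset.card_range] at h
  have h2 : ((Finset.range (j + 2)).filter fun a => 2 * a = j + 1).card = j % 2 := by
    rcases Nat.even_or_odd j with ⟨m, hm⟩ | ⟨m, hm⟩
    · have : ((Finset.range (j + 2)).filter fun a => 2 * a = j + 1) = ∅ := by
        ext a
        simp only [Finset.mem_filter, Finset.mem_range, Finset.notMem_empty, iff_false, not_and]
        intro _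
        omega
      rw [this, Finset.card_empty]
      omega
    · have : ((Finset.range (j + 2)).filter fun a => 2 * a = j + 1) = {m + 1} := by
        ext a
        simp only [Finset.mem_filter, Finset.mem_range, Finset.mem_singleton]
        omega
      rw [this, Finset.card_singleton]
      omega
  omega

private theorem sca_eadd (a b c d : ℕ) : e a b + e c d = e (a + c) (b + d) := by
  unfold e
  rw [Finsupp.single_add, Finsupp.single_add]
  abel

private theorem sca_powA (K m : ℕ) :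
    (monomial (e K 0) (1 : ℝ)) ^ m = monomial (e (K * m) 0) 1 := by
  induction m with
  | zero =>
    rw [pow_zero, mul_zero]
    have : e 0 0 = 0 := by unfold e; simp
    rw [this]
    rfl
  | succ n ih =>
    rw [pow_succ, ih, monomial_mul, sca_eadd, mul_one]
    congr 1

private theorem sca_powB (K m : ℕ) :
    (monomial (e 0 K) (1 : ℝ)) ^ m = monomial (e 0 (K * m)) 1 := by
  induction m with
  | zero =>
    rw [pow_zero, mul_zero]
    have : e 0 0 = 0 := by unfold e; simp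
    rw [this]
    rfl
  | succ n ih =>
    rw [pow_succ, ih, monomial_mul, sca_eadd, mul_one]
    congr 1

private theorem sca_expand (K j : ℕ) :
    ((monomial (e K 0) (1 : ℝ) + monomial (e 0 K) (-1)) *
      (monomial (e K 0) 1 + monomial (e 0 K) 1) ^ j : MvPolynomial (Fin 2) ℝ) =
    ∑ a ∈ Finset.range (j + 2), monomial (e (K * a) (K * (j + 1 - a)))
      ((if a = 0 then (0 : ℝ) else (j.choose (a - 1) : ℝ)) - (j.choose a : ℝ)) := by
  set A : MvPolynomial (Fin 2) ℝ := monomial (e K 0) 1 with hA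
  set B : MvPolynomial (Fin 2) ℝ := monomial (e 0 K) 1 with hB
  have hB' : (monomial (e 0 K) (-1 : ℝ) : MvPolynomial (Fin 2) ℝ) = - B := by
    rw [hB, ← map_neg]
  have hmon : ∀ a b : ℕ, A ^ a * B ^ b = monomial (e (K * a) (K * b)) 1 := by
    intro a b
    rw [hA, hB, sca_powA, sca_powB, monomial_mul, sca_eadd, mul_one, add_zero, zero_add]
  have hmonc : ∀ (a b : ℕ) (c : ℝ), monomial (e (K * a) (K * b)) c = C c * (A ^ a * B ^ b) := by
    intro a b c
    rw [hmon, C_mul_monomial, mul_one]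
  rw [hB', add_pow]
  have hR : ∑ a ∈ Finset.range (j + 2), monomial (e (K * a) (K * (j + 1 - a)))
      ((if a = 0 then (0 : ℝ) else (j.choose (a - 1) : ℝ)) - (j.choose a : ℝ)) =
      ∑ a ∈ Finset.range (j + 2), C (if a = 0 then (0 : ℝ) else (j.choose (a - 1) : ℝ)) *
        (A ^ a * B ^ (j + 1 - a)) -
      ∑ a ∈ Finset.range (j + 2), C (j.choose a : ℝ) * (A ^ a * B ^ (j + 1 - a)) := by
    rw [← Finset.sum_sub_distrib]
    refine Finset.sum_congr rfl fun a _ => ?_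
    rw [hmonc, C_sub, sub_mul]
  rw [hR]
  have h1 : ∑ a ∈ Finset.range (j + 2), C (if a = 0 then (0 : ℝ) else (j.choose (a - 1) : ℝ)) *
        (A ^ a * B ^ (j + 1 - a)) = A * ∑ m ∈ Finset.range (j + 1), A ^ m * B ^ (j - m) * (j.choose m : MvPolynomial (Fin 2) ℝ) := by
    rw [Finset.sum_range_succ']
    simp only [if_true, C_0, zero_mul, add_zero]
    rw [Finset.mul_sum]
    refine Finset.sum_congr rfl fun m _ => ?_
    rw [if_neg (by omega)]
    have : j + 1 - (m + 1) = j - m := by omega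
    rw [this]
    simp only [Nat.add_sub_cancel, map_natCast]
    ring
  have h2 : ∑ a ∈ Finset.range (j + 2), C (j.choose a : ℝ) * (A ^ a * B ^ (j + 1 - a)) =
      B * ∑ m ∈ Finset.range (j + 1), A ^ m * B ^ (j - m) * (j.choose m : MvPolynomial (Fin 2) ℝ) := by
    rw [Finset.sum_range_succ]
    simp only [Nat.choose_succ_self, Nat.cast_zero, C_0, zero_mul, add_zero]
    rw [Finset.mul_sum]
    refine Finset.sum_congr rfl fun m hm => ?_
    have hm' := Finset.mem_range.1 hm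
    have : j + 1 - m = (j - m) + 1 := by omega
    rw [this]
    simp only [map_natCast]
    ring
  rw [h1, h2]
  ring

lemma support_card_anti (K : ℕ) (hK : 0 < K) (r : ℕ) (l : ℕ → ℝ) (hl : ∀ i, 0 < l i) :
    ((monomial (e K 0) 1 + monomial (e 0 K) (-1)) *
      ∏ i ∈ Finset.range r, (monomial (e K 0) 1 + monomial (e 0 K) 1 + C (-(l i))) :
      MvPolynomial (Fin 2) ℝ).support.card = ∑ j ∈ Finset.range (r + 1), (j + 2 - j % 2) := by
  classical
  set p : Polynomial ℝ := ∏ i ∈ Finset.range r, (Polynomial.X - Polynomial.C (l i)) with hp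
  have hdeg : p.natDegree = r := by
    rw [hp, Polynomial.natDegree_prod_of_monic _ _ (fun i _ => Polynomial.monic_X_sub_C _)]
    simp
  set S : MvPolynomial (Fin 2) ℝ := monomial (e K 0) 1 + monomial (e 0 K) 1 with hS
  have hprod : ∏ i ∈ Finset.range r, (S + C (-(l i))) =
      ∑ j ∈ Finset.range (r + 1), C (p.coeff j) * S ^ j := by
    have h1 : ∏ i ∈ Finset.range r, (S + C (-(l i))) = Polynomial.aeval S p := by
      rw [hp, map_prod]
      refine Finset.prod_congr rfl fun i _ => ?_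
      rw [map_sub, Polynomial.aeval_X, Polynomial.aeval_C, C_neg, sub_eq_add_neg]
      rfl
    rw [h1, Polynomial.aeval_eq_sum_range' (n := r + 1) (by omega)]
    refine Finset.sum_congr rfl fun j _ => ?_
    rw [smul_eq_C_mul]
  have hF : ((monomial (e K 0) 1 + monomial (e 0 K) (-1)) *
      ∏ i ∈ Finset.range r, (S + C (-(l i))) : MvPolynomial (Fin 2) ℝ) =
      ∑ t ∈ (Finset.range (r + 1)).sigma (fun j => Finset.range (j + 2)),
        monomial (e (K * t.2) (K * (t.1 + 1 - t.2))) (p.coeff t.1 *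
          ((if t.2 = 0 then (0 : ℝ) else (t.1.choose (t.2 - 1) : ℝ)) - (t.1.choose t.2 : ℝ))) := by
    rw [hprod, Finset.mul_sum, Finset.sum_sigma]
    refine Finset.sum_congr rfl fun j _ => ?_
    have h1 : (monomial (e K 0) 1 + monomial (e 0 K) (-1)) * (C (p.coeff j) * S ^ j) =
        C (p.coeff j) * ((monomial (e K 0) 1 + monomial (e 0 K) (-1)) * S ^ j) := by ring
    rw [h1, hS, sca_expand, Finset.mul_sum]
    refine Finset.sum_congr rfl fun a _ => ?_
    rw [C_mul_monomial]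
  rw [hF]
  set T := (Finset.range (r + 1)).sigma (fun j => Finset.range (j + 2)) with hT
  set ψ : (Σ _ : ℕ, ℕ) → (Fin 2 →₀ ℕ) := fun t => e (K * t.2) (K * (t.1 + 1 - t.2)) with hψ
  set w : (Σ _ : ℕ, ℕ) → ℝ := fun t => p.coeff t.1 *
          ((if t.2 = 0 then (0 : ℝ) else (t.1.choose (t.2 - 1) : ℝ)) - (t.1.choose t.2 : ℝ)) with hw
  have hinj : Set.InjOn ψ T := by
    rintro ⟨j, a⟩ ht ⟨j', a'⟩ ht' h
    have ht1 : a < j + 2 := by
      have := (Finset.mem_sigma.1 (Finset.mem_coe.1 ht)).2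
      exact Finset.mem_range.1 this
    have ht1' : a' < j' + 2 := by
      have := (Finset.mem_sigma.1 (Finset.mem_coe.1 ht')).2
      exact Finset.mem_range.1 this
    have h0 := DFunLike.congr_fun h 0
    have h1 := DFunLike.congr_fun h 1
    simp only [hψ, e, Finsupp.add_apply, Finsupp.single_apply] at h0 h1
    simp at h0 h1
    have h2 : a = a' := by
      rcases h0 with h0 | h0
      · exact h0
      · omega
    have h3 : j + 1 - a = j' + 1 - a' := by
      rcases h1 with h1 | h1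
      · exact h1
      · omega
    have h4 : j = j' := by omega
    subst h2; subst h4; rfl
  have hsupp : (∑ t ∈ T, monomial (ψ t) (w t)).support = (T.filter fun t => w t ≠ 0).image ψ := by
    ext m
    rw [mem_support_iff, coeff_sum, Finset.mem_image]
    simp only [coeff_monomial]
    constructor
    · intro h
      obtain ⟨t, ht, hne⟩ := Finset.exists_ne_zero_of_sum_ne_zero h
      by_cases hm : ψ t = m
      · rw [if_pos hm] at hne
        exact ⟨t, Finset.mem_filter.2 ⟨ht, hne⟩, hm⟩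
      · rw [if_neg hm] at hne
        exact absurd rfl hne
    · rintro ⟨t, ht, rfl⟩
      obtain ⟨htT, hne⟩ := Finset.mem_filter.1 ht
      rw [Finset.sum_eq_single t]
      · rw [if_pos rfl]; exact hne
      · intro t' ht' hne'
        rw [if_neg]
        intro h
        exact hne' (hinj (Finset.mem_coe.2 ht') (Finset.mem_coe.2 htT) h)
      · intro h; exact absurd htT h
  have hgoal : (∑ t ∈ T, monomial (ψ t) (w t)).support.card = ∑ j ∈ Finset.range (r + 1), (j + 2 - j % 2) := by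
    rw [hsupp, Finset.card_image_of_injOn]
    · have h1 : (T.filter fun t => w t ≠ 0) =
          (Finset.range (r + 1)).sigma (fun j => (Finset.range (j + 2)).filter fun a => ¬ (2 * a = j + 1)) := by
        ext ⟨j, a⟩
        simp only [hT, Finset.mem_filter, Finset.mem_sigma]
        constructor
        · rintro ⟨⟨h1, h2⟩, h3⟩
          refine ⟨h1, h2, fun h => h3 ?_⟩
          simp only [hw]
          rw [(sca_g j a (Finset.mem_range.1 h2)).2 h, mul_zero]
        · rintro ⟨h1, h2, h3⟩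
          refine ⟨⟨h1, h2⟩, ?_⟩
          simp only [hw]
          refine mul_ne_zero ?_ ?_
          · have h4 := sca_sign l hl r j (by have := Finset.mem_range.1 h1; omega)
            intro h5
            rw [← hp, h5, mul_zero] at h4
            exact lt_irrefl _ h4
          · intro h4
            exact h3 ((sca_g j a (Finset.mem_range.1 h2)).1 h4)
      rw [h1, Finset.card_sigma]
      exact Finset.sum_congr rfl fun j _ => sca_count j
    · intro x hx y hy h
      exact hinj (Finset.mem_coe.2 (Finset.mem_filter.1 (Finset.mem_coe.1 hx)).1)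
        (Finset.mem_coe.2 (Finset.mem_filter.1 (Finset.mem_coe.1 hy)).1) h
  exact hgoal

lemma mon_eq (a b : ℕ) (c : ℝ) : (monomial (e a b) c : MvPolynomial (Fin 2) ℝ) =
    C c * X 0 ^ a * X 1 ^ b := by
  rw [e, X_pow_eq_monomial, X_pow_eq_monomial, C_mul_monomial, monomial_mul, mul_one, mul_one]

lemma diag_factor (K : ℕ) (g : MvPolynomial (Fin 2) ℝ) (p : Fin 2 → ℝ) (h01 : p 0 = p 1)
    (hp : IsSimplePositiveSolution (monomial (e K 0) 1 + monomial (e 0 K) (-1) +
      monomial (e (2 * K) 0) (-1) + monomial (e 0 (2 * K)) 1) g p) :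
    IsSimplePositiveSolution (monomial (e K 0) 1 + monomial (e 0 K) (-1)) g p := by
  obtain ⟨hpos, hf, hg, hJ⟩ := hp
  set d : MvPolynomial (Fin 2) ℝ := monomial (e K 0) 1 + monomial (e 0 K) (-1) with hd
  have hd' : d = X 0 ^ K - X 1 ^ K := by
    rw [hd, mon_eq, mon_eq]
    simp only [map_one, map_neg, pow_zero]
    ring
  have hfac : (monomial (e K 0) 1 + monomial (e 0 K) (-1) +
      monomial (e (2 * K) 0) (-1) + monomial (e 0 (2 * K)) 1 : MvPolynomial (Fin 2) ℝ) =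
      d * (1 - X 0 ^ K - X 1 ^ K) := by
    rw [hd', mon_eq, mon_eq, mon_eq, mon_eq]
    simp only [map_one, map_neg, pow_zero]
    ring
  have hd0 : eval p d = 0 := by
    rw [hd']; simp [h01]
  rw [← hd] at hfac
  rw [hfac] at hJ
  refine ⟨hpos, hd0, hg, ?_⟩
  intro h0
  apply hJ
  have hder : ∀ i, eval p (pderiv i (d * (1 - X 0 ^ K - X 1 ^ K))) =
      eval p (pderiv i d) * eval p (1 - X 0 ^ K - X 1 ^ K) := by
    intro i
    rw [Derivation.leibniz, smul_eq_mul, smul_eq_mul, map_add, map_mul, map_mul, hd0, zero_mul,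
      zero_add, mul_comm]
  rw [hder, hder]
  linear_combination (eval p (1 - X 0 ^ K - X 1 ^ K)) * h0

open Topology in
lemma persist_all_in
    (hper : ∀ (f g M : MvPolynomial (Fin 2) ℝ),
      (∀ q : Fin 2 → ℝ, (∀ i, 0 < q i) → 0 < eval q M) → ∀ (p : Fin 2 → ℝ),
      IsSimplePositiveSolution f g p → ∀ (U : Set (Fin 2 → ℝ)), U ∈ 𝓝 p →
      ∀ᶠ δ in 𝓝 (0 : ℝ), ∃ q ∈ U, IsSimplePositiveSolution (f + C δ * M) g q)
    (f g : MvPolynomial (Fin 2) ℝ) (T : Finset (Fin 2 → ℝ)) (V : Set (Fin 2 → ℝ)) (hV : IsOpen V)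
    (hTV : ∀ p ∈ T, p ∈ V)
    (hT : ∀ p ∈ T, IsSimplePositiveSolution f g p) :
    ∀ᶠ δ in 𝓝 (0 : ℝ), ∃ T' : Finset (Fin 2 → ℝ), T'.card = T.card ∧
      ∀ p ∈ T', p ∈ V ∧ IsSimplePositiveSolution (f + C δ) g p := by
  classical
  obtain ⟨U, hU, hdisj⟩ := (T.finite_toSet).t2_separation
  have h1 : ∀ p ∈ T, ∀ᶠ δ in 𝓝 (0 : ℝ), ∃ q ∈ U p ∩ V, IsSimplePositiveSolution (f + C δ) g q := by
    intro p hp
    have h := hper f g 1 (by intro q _; simp) p (hT p hp) (U p ∩ V)
      (Filter.inter_mem ((hU p).2.mem_nhds (hU p).1) (hV.mem_nhds (hTV p hp)))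
    filter_upwards [h] with δ hδ
    simpa using hδ
  have h2 := (Filter.eventually_all_finset T).2 h1
  filter_upwards [h2] with δ hδ
  choose q hqU hqs using hδ
  refine ⟨T.attach.image (fun p => q p.1 p.2), ?_, ?_⟩
  · rw [Finset.card_image_of_injective, Finset.card_attach]
    rintro ⟨a, ha⟩ ⟨b, hb⟩ hab
    simp only at hab
    apply Subtype.ext
    by_contra hne
    have hd := hdisj ha hb hne
    have := Set.disjoint_left.1 hd (hqU a ha).1
    apply this
    rw [hab]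
    exact (hqU b hb).1
  · intro p hp
    rw [Finset.mem_image] at hp
    obtain ⟨a, _, rfl⟩ := hp
    exact ⟨(hqU a.1 a.2).2, hqs a.1 a.2⟩

open Topology in
lemma prod_solutions_in
    (hmul : ∀ (h f g : MvPolynomial (Fin 2) ℝ) (p : Fin 2 → ℝ), eval p h ≠ 0 →
      IsSimplePositiveSolution f g p → IsSimplePositiveSolution (h * f) g p)
    (m g : MvPolynomial (Fin 2) ℝ) (n : ℕ) (V : Set (Fin 2 → ℝ)) (P : ℝ → Prop)
    (hP : ∀ᶠ δ in 𝓝 (0 : ℝ), P (1 - δ))
    (hall : ∀ᶠ δ in 𝓝 (0 : ℝ), ∃ T' : Finset (Fin 2 → ℝ), T'.card = n ∧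
      ∀ p ∈ T', p ∈ V ∧ IsSimplePositiveSolution ((m + C (-1)) + C δ) g p) (r : ℕ) :
    ∃ l : ℕ → ℝ, (∀ i, 0 < l i) ∧ (∀ i, P (l i)) ∧ ∃ T : Finset (Fin 2 → ℝ), T.card = r * n ∧
      ∀ p ∈ T, p ∈ V ∧ IsSimplePositiveSolution (∏ i ∈ Finset.range r, (m + C (-(l i)))) g p := by
  classical
  obtain ⟨ε, hε, hball⟩ := Metric.eventually_nhds_iff.mp (hP.and hall)
  set ρ : ℝ := min ε 1 with hρ
  have hρ0 : 0 < ρ := lt_min hε one_pos
  have hρ1 : ρ ≤ 1 := min_le_right _ _
  have hρε : ρ ≤ ε := min_le_left _ _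
  let δ : ℕ → ℝ := fun i => ρ / ((i : ℝ) + 2)
  have hδ0 : ∀ i, 0 < δ i := fun i => by
    have : (0 : ℝ) < (i : ℝ) + 2 := by positivity
    exact div_pos hρ0 this
  have hδlt : ∀ i, δ i < ρ := fun i => by
    have h2 : (1 : ℝ) < (i : ℝ) + 2 := by
      have : (0 : ℝ) ≤ (i : ℝ) := Nat.cast_nonneg i
      linarith
    exact div_lt_self hρ0 h2
  have hδinj : ∀ i j, δ i = δ j → i = j := by
    intro i j hij
    have hi : (0 : ℝ) < (i : ℝ) + 2 := by positivity
    have hj : (0 : ℝ) < (j : ℝ) + 2 := by positivity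
    have h1 : ρ / ((i : ℝ) + 2) = ρ / ((j : ℝ) + 2) := hij
    rw [div_eq_div_iff hi.ne' hj.ne'] at h1
    have h2 := mul_left_cancel₀ hρ0.ne' h1
    have h3 : (i : ℝ) = j := by linarith
    exact_mod_cast h3
  have hB : ∀ i, P (1 - δ i) ∧ ∃ T' : Finset (Fin 2 → ℝ), T'.card = n ∧
      ∀ p ∈ T', p ∈ V ∧ IsSimplePositiveSolution ((m + C (-1)) + C (δ i)) g p := by
    intro i
    apply hball
    rw [Real.dist_eq, sub_zero, abs_of_pos (hδ0 i)]
    exact lt_of_lt_of_le (hδlt i) hρε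
  choose hPl T hTc hTs using hB
  have hpoly : ∀ i, (m + C (-1)) + C (δ i) = m + C (-(1 - δ i)) := by
    intro i
    rw [add_assoc, ← C_add]
    congr 2
    ring
  have hval : ∀ i, ∀ p ∈ T i, eval p m = 1 - δ i := by
    intro i p hp
    have h1 := (hTs i p hp).2.2.1
    rw [hpoly] at h1
    simp only [map_add, eval_C] at h1
    linarith
  refine ⟨fun i => 1 - δ i, fun i => ?_, fun i => hPl i, (Finset.range r).biUnion T, ?_, ?_⟩
  · have := hδlt i
    simp only
    linarith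
  · rw [Finset.card_biUnion]
    · simp [hTc]
    · intro i _ j _ hij
      change Disjoint (T i) (T j)
      rw [Finset.disjoint_left]
      intro p hp1 hp2
      apply hij
      apply hδinj
      have h1 := hval i p hp1
      have h2 := hval j p hp2
      linarith
  · intro p hp
    obtain ⟨i, hi, hpi⟩ := Finset.mem_biUnion.mp hp
    refine ⟨(hTs i p hpi).1, ?_⟩
    rw [← Finset.prod_erase_mul _ _ hi]
    apply hmul
    · rw [map_prod]
      refine Finset.prod_ne_zero_iff.mpr fun j hj => ?_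
      rw [map_add, eval_C, hval i p hpi]
      intro h0
      apply (Finset.mem_erase.mp hj).1
      apply hδinj
      linarith
    · rw [← hpoly]
      exact (hTs i p hpi).2

lemma alt_all_close (k : ℕ) (a : ℕ → ℝ) (ha : ∀ j ≤ k, a j ≠ 0) (δ : ℝ) (hδ : 0 < δ) :
    ∃ (ε : ℕ → ℚ) (c : ℕ → ℝ),
      (∀ j < k, |ε j| < 1 / 4 ∧ |(ε j : ℝ)| < δ ∧ c j ≠ 0 ∧ |c j - a j| < δ) ∧
      Alt (fun s => ∑ j ∈ Finset.range (k + 1), a j * s ^ j -
        ∑ j ∈ Finset.range k, c j * s ^ ((j : ℝ) + (ε j : ℝ))) (2 * k) :=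
  alt_all_close_of_step
    (fun j a ha R C hR n hn δ hδ => alt_step_close j a ha R C hR n hn δ hδ
      (fun τ hτ => coeff_close a τ hτ δ hδ)
      (fun τ hτ r hr δ hδ => alt_step_small j a ha τ hτ r hr δ hδ)
      (fun τ hτ => alt_step_double j a ha τ hτ C) (fun τ hτ => alt_step_half j a ha τ hτ C))
    k a ha δ hδ

lemma one_variable_two (k : ℕ) (hk : Odd k) :
    ∃ (c : Fin k ⊕ Bool → ℝ) (A B : Fin k ⊕ Bool → ℚ) (S W : Finset ℝ),
      (∀ i, c i ≠ 0) ∧ (Function.Injective fun i => (A i, B i)) ∧ S.card = 4 * k ∧ W.card = k ∧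
      (∀ X ∈ S, 0 < X ∧ X < 1 ∧ 1 - 2 * X ≠ 0 ∧
        ∑ i, c i * X ^ (A i : ℝ) * (1 - X) ^ (B i : ℝ) = 0 ∧
        ∑ i, c i * X ^ (A i : ℝ) * (1 - X) ^ (B i : ℝ) *
          ((A i : ℝ) / X - (B i : ℝ) / (1 - X)) ≠ 0) ∧
      (∀ s ∈ W, 1 / 4 < s ∧ ∑ i, c i * s ^ (((A i : ℝ) + (B i : ℝ)) / 2) = 0 ∧
        ∑ i, c i * ((A i : ℝ) + (B i : ℝ)) * s ^ (((A i : ℝ) + (B i : ℝ)) / 2) ≠ 0) := by
  have hk1 : 1 ≤ k := hk.pos
  obtain ⟨a, ha, hak, hpsC⟩ := power_sum_complex k
  have hps : ∀ X : ℝ, X ^ (2 * k) + (1 - X) ^ (2 * k) =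
        ∑ j ∈ Finset.range (k + 1), a j * (X * (1 - X)) ^ j := by
    intro X
    have := hpsC (X : ℂ)
    exact_mod_cast this
  obtain ⟨ε, c, Z, W, hεc, hZc, hWc, hZ, hW⟩ := exists_zeros_two_of k hk1 a ha
    (diag_persist k a (diag_exact k hk a hak hpsC))
    (fun δ hδ => alt_all_close k a ha δ hδ)
    (fun E E' F F' hE hF α c hc n q hn hq =>
      nondegenerate_two exists_regular_value_two E E' F F' hE hF α c hc n q hn hq)
  obtain ⟨S, hScard, hS⟩ := double_roots Z (fun s hs => ⟨(hZ s hs).1, (hZ s hs).2.1⟩)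
  let cc : Fin k ⊕ Bool → ℝ := fun i => Sum.elim (fun j : Fin k => -c j) (fun _ => 1) i
  let A : Fin k ⊕ Bool → ℚ := fun i =>
    Sum.elim (fun j : Fin k => ((j : ℕ) : ℚ) + ε j) (fun b => if b then 0 else 2 * k) i
  let B : Fin k ⊕ Bool → ℚ := fun i =>
    Sum.elim (fun j : Fin k => ((j : ℕ) : ℚ) + ε j) (fun b => if b then 2 * k else 0) i
  have hcl : ∀ j : Fin k, cc (Sum.inl j) = -c j := fun j => rfl
  have hcr : ∀ b : Bool, cc (Sum.inr b) = 1 := fun b => rfl
  have hA : ∀ j : Fin k, A (Sum.inl j) = (j : ℕ) + ε j := fun j => rfl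
  have hB : ∀ j : Fin k, B (Sum.inl j) = (j : ℕ) + ε j := fun j => rfl
  have hAf : A (Sum.inr false) = 2 * k := by simp [A]
  have hBf : B (Sum.inr false) = 0 := by simp [B]
  have hAt : A (Sum.inr true) = 0 := by simp [A]
  have hBt : B (Sum.inr true) = 2 * k := by simp [B]
  refine ⟨cc, A, B, S, W, ?_, pairs_injective k hk1 ε (fun j hj => (hεc j hj).1) A B hA hB hAf hBf hAt hBt,
    ?_, hWc, ?_, ?_⟩
  · rintro (j | b)
    · rw [hcl]; exact neg_ne_zero.2 (hεc j j.2).2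
    · rw [hcr]; exact one_ne_zero
  · rw [hScard, hZc]; ring
  · intro X hX
    obtain ⟨hX0, hX1, hXZ, hX2⟩ := hS X hX
    obtain ⟨_, _, hz, hz'⟩ := hZ _ hXZ
    obtain ⟨h1, h2⟩ := sum_eval k hk1 a ε c hps cc A B hcl hcr hA hB hAf hBf hAt hBt X hX0 hX1
    refine ⟨hX0, hX1, hX2, ?_, ?_⟩
    · rw [h1]; exact hz
    · rw [h2]; exact mul_ne_zero hz' hX2
  · intro s hs
    obtain ⟨hs0, hz, hz'⟩ := hW s hs
    have hs1 : 0 < s := by linarith
    obtain ⟨h1, h2⟩ := sum_eval_diag k hk1 ε c cc A B hcl hcr hA hB hAf hBf hAt hBt s hs1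
    refine ⟨hs0, ?_, ?_⟩
    · rw [h1]; exact hz
    · rw [h2]; exact mul_ne_zero (by positivity) hz'

def Has (m₁ m₂ n : ℕ) : Prop :=
  ∃ f g : MvPolynomial (Fin 2) ℝ, f.support.card = m₁ ∧ g.support.card = m₂ ∧
    ∃ T : Finset (Fin 2 → ℝ), T.card = n ∧ ∀ p ∈ T, IsSimplePositiveSolution f g p

lemma Has.le_N {m₁ m₂ n : ℕ} (h : Has m₁ m₂ n) : (n : ℕ∞) ≤ N m₁ m₂ := by
  obtain ⟨f, g, hf, hg, T, hT, hsol⟩ := h
  have h1 : (n : ℕ∞) ≤ Set.encard {p : Fin 2 → ℝ | IsSimplePositiveSolution f g p} := by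
    have h2 : ((T : Set (Fin 2 → ℝ))).encard = (n : ℕ∞) := by
      rw [Set.encard_coe_eq_coe_finsetCard, hT]
    rw [← h2]
    exact Set.encard_le_encard (fun p hp => hsol p hp)
  refine h1.trans ?_
  unfold N
  exact le_iSup_of_le f (le_iSup_of_le g (le_iSup_of_le hf (le_iSup_of_le hg le_rfl)))

lemma Has.succ_left {m₁ m₂ n : ℕ} (h : Has m₁ m₂ n) : Has (m₁ + 1) m₂ n := by
  obtain ⟨f, g, hf, hg, T, hT, hsol⟩ := h
  obtain ⟨f', T', hf', hT', hsol'⟩ := add_monomial persist_one f g T hsol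
  exact ⟨f', g, by rw [hf', hf], hg, T', by rw [hT', hT], hsol'⟩

lemma Has.symm {m₁ m₂ n : ℕ} (h : Has m₁ m₂ n) : Has m₂ m₁ n := by
  obtain ⟨f, g, hf, hg, T, hT, hsol⟩ := h
  refine ⟨g, f, hg, hf, T, hT, fun p hp => ?_⟩
  obtain ⟨h0, h1, h2, h3⟩ := hsol p hp
  refine ⟨h0, h2, h1, fun h => h3 ?_⟩
  linarith

lemma Has.mono_left {m₁ m₂ n : ℕ} (h : Has m₁ m₂ n) {m : ℕ} (hm : m₁ ≤ m) : Has m m₂ n := by
  induction m, hm using Nat.le_induction with
  | base => exact h
  | succ m _ ih => exact ih.succ_left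

lemma Has.mono {m₁ m₂ n : ℕ} (h : Has m₁ m₂ n) {m m' : ℕ} (hm : m₁ ≤ m) (hm' : m₂ ≤ m') :
    Has m m' n :=
  ((h.mono_left hm).symm.mono_left hm').symm

lemma transfer_explicit {ι : Type} [Fintype ι] [DecidableEq ι] (c : ι → ℝ) (A B : ι → ℚ)
    (hc : ∀ i, c i ≠ 0) (hAB : Function.Injective fun i => (A i, B i)) (S : Finset ℝ)
    (hS : ∀ X ∈ S, 0 < X ∧ X < 1 ∧ ∑ i, c i * X ^ (A i : ℝ) * (1 - X) ^ (B i : ℝ) = 0 ∧
      ∑ i, c i * X ^ (A i : ℝ) * (1 - X) ^ (B i : ℝ) * ((A i : ℝ) / X - (B i : ℝ) / (1 - X)) ≠ 0) :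
    ∃ (K : ℕ) (g : MvPolynomial (Fin 2) ℝ), 0 < K ∧ g.support.card = Fintype.card ι ∧
      ∃ T : Finset (Fin 2 → ℝ), T.card = S.card ∧ ∀ p ∈ T, IsSimplePositiveSolution
        (monomial (e K 0) 1 + monomial (e 0 K) 1 + monomial 0 (-1)) g p := by
  classical
  obtain ⟨K, M, a, b, hK, ha, hb⟩ := clear_denominators A B
  have hK' : (K : ℝ) ≠ 0 := by positivity
  have hab : Function.Injective fun i => (a i, b i) := by
    intro i j hij
    apply hAB
    simp only [Prod.mk.injEq] at hij ⊢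
    have h1 : (K : ℝ) * (A i : ℝ) = K * (A j : ℝ) := by
      have := ha i; have := ha j; rw [hij.1] at *; linarith
    have h2 : (K : ℝ) * (B i : ℝ) = K * (B j : ℝ) := by
      have := hb i; have := hb j; rw [hij.2] at *; linarith
    exact ⟨by exact_mod_cast mul_left_cancel₀ hK' h1, by exact_mod_cast mul_left_cancel₀ hK' h2⟩
  refine ⟨K, ∑ i, monomial (e (a i) (b i)) (c i), hK, support_card c a b hc hab,
    S.image (fun X => ![X ^ ((1 : ℝ) / K), (1 - X) ^ ((1 : ℝ) / K)]), ?_, ?_⟩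
  · apply Finset.card_image_of_injOn
    intro X hX Y hY hXY
    have h0 := congrFun hXY 0
    simp only [Matrix.cons_val_zero] at h0
    have hXp := (hS X hX).1
    have hYp := (hS Y hY).1
    have hKp : (0 : ℝ) < 1 / K := by positivity
    exact (Real.rpow_left_inj hXp.le hYp.le hKp.ne').1 h0
  · intro p hp
    obtain ⟨X, hX, rfl⟩ := Finset.mem_image.1 hp
    obtain ⟨h0, h1, h2, h3⟩ := hS X hX
    exact point_solution c (fun i => (A i : ℝ)) (fun i => (B i : ℝ)) K M hK a b ha hb eval_mono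
      eval_pderiv_zero eval_pderiv_one X h0 h1 h2 h3

lemma has_prod (r k : ℕ) (hk : 1 ≤ k) : Has ((r + 1) * (r + 2) / 2) (k + 2) (r * (4 * k)) := by
  obtain ⟨c, A, B, S, hc, hAB, hcard, hS⟩ := one_variable k hk
  obtain ⟨K, g, hK, hg, T, hT, hsol⟩ := transfer_explicit c A B hc hAB S hS
  have hall := persist_all persist_one
    (monomial (e K 0) 1 + monomial (e 0 K) 1 + monomial 0 (-1)) g T hsol
  rw [hT, hcard] at hall
  obtain ⟨l, hl, T', hT', hsol'⟩ := prod_solutions mul_simple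
    (monomial (e K 0) 1 + monomial (e 0 K) 1) g (4 * k) hall r
  exact ⟨_, g, support_card_prod K hK r l hl, by rw [hg]; simp, T', hT', hsol'⟩

lemma four_explicit (k : ℕ) (hk : Odd k) :
    ∃ (K : ℕ) (g : MvPolynomial (Fin 2) ℝ), 0 < K ∧ g.support.card = k + 2 ∧
      ∃ T D : Finset (Fin 2 → ℝ), T.card = 4 * k ∧ D.card = k ∧
        (∀ p ∈ T, p 0 ^ K ≠ p 1 ^ K ∧ IsSimplePositiveSolution
          (monomial (e K 0) 1 + monomial (e 0 K) 1 + monomial 0 (-1)) g p) ∧
        (∀ p ∈ D, p 0 ^ K = p 1 ^ K ∧ p 0 ^ K + p 1 ^ K ≠ 1 ∧ IsSimplePositiveSolution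
          (monomial (e K 0) 1 + monomial (e 0 K) (-1)) g p) := by
  classical
  obtain ⟨c, A, B, S, W, hc, hAB, hScard, hWcard, hS, hW⟩ := one_variable_two k hk
  obtain ⟨K, M, a, b, hK, ha, hb⟩ := clear_denominators A B
  have hK' : (K : ℝ) ≠ 0 := by positivity
  have hab : Function.Injective fun i => (a i, b i) := by
    intro i j hij
    apply hAB
    simp only [Prod.mk.injEq] at hij ⊢
    have h1 : (K : ℝ) * (A i : ℝ) = K * (A j : ℝ) := by
      have := ha i; have := ha j; rw [hij.1] at *; linarith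
    have h2 : (K : ℝ) * (B i : ℝ) = K * (B j : ℝ) := by
      have := hb i; have := hb j; rw [hij.2] at *; linarith
    exact ⟨by exact_mod_cast mul_left_cancel₀ hK' h1, by exact_mod_cast mul_left_cancel₀ hK' h2⟩
  have hKp : (0 : ℝ) < 1 / K := by positivity
  have hKp' : (0 : ℝ) < 1 / (2 * K) := by positivity
  have hroot : ∀ X : ℝ, 0 < X → (X ^ ((1 : ℝ) / K)) ^ K = X := by
    intro X hX
    rw [one_div]
    exact Real.rpow_inv_natCast_pow hX.le (by omega)
  have hroot2 : ∀ s : ℝ, 0 < s → (s ^ ((1 : ℝ) / (2 * K))) ^ K = s ^ ((1 : ℝ) / 2) := by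
    intro s hs
    rw [← Real.rpow_natCast, ← Real.rpow_mul hs.le]
    congr 1
    field_simp
  refine ⟨K, ∑ i, monomial (e (a i) (b i)) (c i), hK, by
    rw [support_card c a b hc hab]; simp,
    S.image (fun X => ![X ^ ((1 : ℝ) / K), (1 - X) ^ ((1 : ℝ) / K)]),
      W.image (fun s => ![s ^ ((1 : ℝ) / (2 * K)), s ^ ((1 : ℝ) / (2 * K))]), ?_, ?_, ?_, ?_⟩
  · rw [Finset.card_image_of_injOn, hScard]
    intro X hX Y hY hXY
    have h0 := congrFun hXY 0
    simp only [Matrix.cons_val_zero] at h0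
    have hXp := (hS X hX).1
    have hYp := (hS Y hY).1
    exact (Real.rpow_left_inj hXp.le hYp.le hKp.ne').1 h0
  · rw [Finset.card_image_of_injOn, hWcard]
    intro X hX Y hY hXY
    have h0 := congrFun hXY 0
    simp only [Matrix.cons_val_zero] at h0
    have hXp := (hW X hX).1
    have hYp := (hW Y hY).1
    exact (Real.rpow_left_inj (by linarith) (by linarith) hKp'.ne').1 h0
  · intro p hp
    obtain ⟨X, hX, rfl⟩ := Finset.mem_image.1 hp
    obtain ⟨h0, h1, h4, h2, h3⟩ := hS X hX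
    refine ⟨?_, point_solution c (fun i => (A i : ℝ)) (fun i => (B i : ℝ)) K M hK a b ha hb eval_mono
      eval_pderiv_zero eval_pderiv_one X h0 h1 h2 h3⟩
    simp only [Matrix.cons_val_zero, Matrix.cons_val_one]
    rw [hroot X h0, hroot (1 - X) (by linarith)]
    intro h
    exact h4 (by linarith)
  · intro p hp
    obtain ⟨s, hs, rfl⟩ := Finset.mem_image.1 hp
    obtain ⟨h0, h1, h2⟩ := hW s hs
    have hs0 : 0 < s := by linarith
    refine ⟨by simp, ?_, diag_factor K _ _ (by simp)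
      (point_solution_diag c (fun i => (A i : ℝ)) (fun i => (B i : ℝ)) K M hK a b ha hb s h0 h1 h2)⟩
    simp only [Matrix.cons_val_zero, Matrix.cons_val_one]
    rw [hroot2 s hs0]
    intro h
    have h5 : s ^ ((1 : ℝ) / 2) = 1 / 2 := by linarith
    have h6 : s = (s ^ ((1 : ℝ) / 2)) ^ (2 : ℝ) := by
      rw [← Real.rpow_mul hs0.le]
      norm_num
    rw [h5] at h6
    norm_num at h6
    linarith

lemma has_anti (r k : ℕ) (hk : Odd k) :
    Has (∑ j ∈ Finset.range (r + 1), (j + 2 - j % 2)) (k + 2) ((4 * r + 1) * k) := by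
  classical
  obtain ⟨K, g, hK, hg, T, D, hT, hD, hTs, hDs⟩ := four_explicit k hk
  set V : Set (Fin 2 → ℝ) := {p | p 0 ^ K ≠ p 1 ^ K} with hV
  have hVo : IsOpen V := by
    apply isOpen_ne_fun <;> fun_prop
  have hall := persist_all_in persist_one
    (monomial (e K 0) 1 + monomial (e 0 K) 1 + monomial 0 (-1)) g T V hVo (fun p hp => (hTs p hp).1)
    (fun p hp => (hTs p hp).2)
  rw [hT] at hall
  have hP : ∀ᶠ δ in nhds (0 : ℝ), ∀ p ∈ D, p 0 ^ K + p 1 ^ K ≠ 1 - δ := by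
    rw [Filter.eventually_all_finset]
    intro p hp
    have h1 : (p 0 ^ K + p 1 ^ K) ≠ 1 - 0 := by simpa using (hDs p hp).2.1
    have h2 : Filter.Tendsto (fun δ : ℝ => 1 - δ) (nhds 0) (nhds (1 - 0)) :=
      (continuous_const.sub continuous_id).tendsto 0
    filter_upwards [h2.eventually_ne h1.symm] with δ hδ
    exact hδ.symm
  obtain ⟨l, hl, hlP, T', hT', hsol'⟩ := prod_solutions_in mul_simple
    (monomial (e K 0) 1 + monomial (e 0 K) 1) g (4 * k) V
    (fun x => ∀ p ∈ D, p 0 ^ K + p 1 ^ K ≠ x) hP hall r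
  refine ⟨_, g, support_card_anti K hK r l hl, hg, T' ∪ D, ?_, ?_⟩
  · rw [Finset.card_union_of_disjoint, hT', hD]
    · ring
    · rw [Finset.disjoint_left]
      intro p hp hp'
      exact (hsol' p hp).1 (hDs p hp').1
  · intro p hp
    rcases Finset.mem_union.1 hp with hp | hp
    · obtain ⟨h1, h2⟩ := hsol' p hp
      refine mul_simple _ _ _ _ ?_ h2
      rw [map_add, eval_mono, eval_mono]
      intro h
      apply h1
      simp only [pow_zero, mul_one, one_mul, neg_mul] at h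
      linarith
    · obtain ⟨h1, h2, h3⟩ := hDs p hp
      rw [mul_comm]
      refine mul_simple _ _ _ _ ?_ h3
      rw [map_prod, Finset.prod_ne_zero_iff]
      intro i _
      rw [map_add, map_add, eval_mono, eval_mono, eval_C]
      simp only [pow_zero, mul_one, one_mul]
      intro h
      exact hlP i p hp (by linarith)

theorem row_bounds (m₁ m₂ : ℕ) (h₂ : 3 ≤ m₂) :
    (∀ r : ℕ, 1 ≤ r → (r + 1) * (r + 2) / 2 ≤ m₁ → ((4 * r * (m₂ - 2) : ℕ) : ℕ∞) ≤ N m₁ m₂) ∧
      (∀ r : ℕ, 1 ≤ r → ∑ j ∈ Finset.range (r + 1), (j + 2 - j % 2) ≤ m₁ → Odd m₂ →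
        (((4 * r + 1) * (m₂ - 2) : ℕ) : ℕ∞) ≤ N m₁ m₂) ∧
      (∀ r : ℕ, 1 ≤ r → ∑ j ∈ Finset.range (r + 1), (j + 2 - j % 2) ≤ m₁ → Even m₂ →
        (((4 * r + 1) * (m₂ - 3) : ℕ) : ℕ∞) ≤ N m₁ m₂) := by
  refine ⟨?_, ?_, ?_⟩
  · intro r _ h₁
    obtain ⟨k, rfl⟩ : ∃ k, m₂ = k + 2 := ⟨m₂ - 2, by omega⟩
    have h := ((has_prod r k (by omega)).mono h₁ le_rfl).le_N
    have h3 : r * (4 * k) = 4 * r * (k + 2 - 2) := by
      rw [Nat.add_sub_cancel]; ring
    rwa [h3] at h
  · intro r _ h₁ hodd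
    obtain ⟨k, rfl⟩ : ∃ k, m₂ = k + 2 := ⟨m₂ - 2, by omega⟩
    have hk : Odd k := by
      rcases hodd with ⟨s, hs⟩
      exact ⟨s - 1, by omega⟩
    have h := ((has_anti r k hk).mono h₁ le_rfl).le_N
    rwa [Nat.add_sub_cancel]
  · intro r _ h₁ heven
    obtain ⟨k, rfl⟩ : ∃ k, m₂ = k + 3 := ⟨m₂ - 3, by omega⟩
    have hk : Odd k := by
      rcases heven with ⟨s, hs⟩
      exact ⟨s - 2, by omega⟩
    have h := ((has_anti r k hk).mono h₁ (show k + 2 ≤ k + 3 by omega)).le_N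
    rwa [Nat.add_sub_cancel]

lemma fewN_le_N (m₁ m₂ : ℕ) : General.fewN m₁ m₂ ≤ N m₁ m₂ := by
  unfold General.fewN N
  refine iSup_le fun f => iSup_le fun g => iSup_le fun hf => iSup_le fun hg => ?_
  refine le_iSup_of_le f (le_iSup_of_le g (le_iSup_of_le hf (le_iSup_of_le hg ?_)))
  have hinj : Function.Injective (fun p : ℝ × ℝ => (![p.1, p.2] : Fin 2 → ℝ)) := by
    intro p q hpq
    have h0 := congrFun hpq 0
    have h1 := congrFun hpq 1
    simp only [Matrix.cons_val_zero, Matrix.cons_val_one] at h0 h1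
    exact Prod.ext h0 h1
  rw [← hinj.encard_image]
  refine Set.encard_le_encard ?_
  rintro _ ⟨p, hp, rfl⟩
  obtain ⟨h1, h2, h3, h4, h5⟩ := hp
  refine ⟨?_, h3, h4, h5⟩
  intro i
  fin_cases i
  · exact h1
  · exact h2

/-- Lower bounds for `N m₁ m₂`, `m₁, m₂ ≥ 3`: the bound `m₁ m₂ - min m₁ m₂ - 2` for all pairs, and the bounds of slope
`4 r` in `m₂` for `m₁ ≥ (r + 1) (r + 2) / 2`, of slope `4 r + 1` for `m₁ ≥ a_r`, `a_r` the sum of `j + 2 - (j mod 2)` over
`0 ≤ j ≤ r`. -/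
theorem result (m₁ m₂ : ℕ) (h₁ : 3 ≤ m₁) (h₂ : 3 ≤ m₂) :
    ((m₁ * m₂ - min m₁ m₂ - 2 : ℕ) : ℕ∞) ≤ N m₁ m₂ ∧
      (∀ r : ℕ, 1 ≤ r → (r + 1) * (r + 2) / 2 ≤ m₁ → ((4 * r * (m₂ - 2) : ℕ) : ℕ∞) ≤ N m₁ m₂) ∧
      (∀ r : ℕ, 1 ≤ r → ∑ j ∈ Finset.range (r + 1), (j + 2 - j % 2) ≤ m₁ → Odd m₂ →
        (((4 * r + 1) * (m₂ - 2) : ℕ) : ℕ∞) ≤ N m₁ m₂) ∧
      (∀ r : ℕ, 1 ≤ r → ∑ j ∈ Finset.range (r + 1), (j + 2 - j % 2) ≤ m₁ → Even m₂ →
        (((4 * r + 1) * (m₂ - 3) : ℕ) : ℕ∞) ≤ N m₁ m₂) :=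
  ⟨(General.general_bound m₁ m₂ h₁ h₂).trans (fewN_le_N m₁ m₂), row_bounds m₁ m₂ h₂⟩

end Pool.Agent.Results.MP_4cba3d_ag.AllPairs
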